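import Pool.Agent.Run7.h622.BE_INVc

/-!
# Invariance of stability conditions under the twists of degree zero

The piece `S_INV` of the project on bielliptic surfaces, from `S_SUM` and `S_PEN`.
-/

set_option autoImplicit false
set_option linter.unusedSectionVars false
set_option linter.unusedVariables false
set_option linter.unusedSimpArgs false

open CategoryTheory CategoryTheory.Limits Pretriangulated Triangulated Complex ZeroObject
open Pool.Agent.Helper445_GMF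
open Run7.h354.BE

namespace Run7.h622.BE

universe v u

section

variable {C : Type u} [Category.{v} C] [Preadditive C] [Linear ℂ C] [HasZeroObject C]
  [HasShift C ℤ] [∀ n : ℤ, (shiftFunctor C n).Additive] [Pretriangulated C] [IsTriangulated C]
  {τ : ℂ} (hτ : 0 < τ.im) {u : ℂ → ℂ → ℂ} (hu : TH τ u) (E : EA τ C)

include hτ hu in
/-- the countable exceptional set -/
theorem inv_count (hSUM : S_SUM.{v, u}) (hPEN : S_PEN.{v, u}) (σ : PreStab C) (φ : ℝ) (G : C)
    (hG : σ.P φ G) : {c : ℂˣ | ¬ σ.P φ (E.tw (g0 c) G)}.Countable := by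
  obtain ⟨-, hs1, hs2⟩ := hSUM C σ φ
  obtain ⟨-, -, hs3⟩ := hSUM C σ (φ + 1)
  choose K g h hK using fun l : ℂ => distinguished_cocone_triangle (al hu E G - l • be hu E G)
  have hcount := hPEN C σ (φ + 1) _ _ (al hu E G) (be hu E G) K (fun l => ⟨g l, h l, hK l⟩) 0
    (pen_zero hτ hu E σ G hG hs3 (g := g 0) (h := h 0) (by
      have := hK 0
      rwa [zero_smul, sub_zero] at this))
  have hbad : {p | ¬ Bad τ p ∧ ¬ σ.P (φ + 1) (K (par u p))}.Countable := by
    have : {p | ¬ Bad τ p ∧ ¬ σ.P (φ + 1) (K (par u p))} ⊆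
        ⋃ l ∈ {l | ¬ σ.P (φ + 1) (K l)}, {p | ¬ Bad τ p ∧ par u p = l} := by
      rintro p ⟨h1, h2⟩
      simp only [Set.mem_iUnion]
      exact ⟨_, h2, h1, rfl⟩
    exact (hcount.biUnion fun l _ => par_count hτ hu l).mono this
  have hall : (({p | Bad τ p} ∪ {p | ¬ Bad τ p ∧ ¬ σ.P (φ + 1) (K (par u p))}).image
      fun p => exp (2 * Real.pi * I * (0 - p))).Countable :=
    (Bad_count.union hbad).image _
  refine (hall.preimage (f := fun c : ℂˣ => (c : ℂ)) Units.val_injective).mono ?_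
  intro c hc
  obtain ⟨q, hq⟩ : ∃ q : ℂ, (c : ℂ) = exp (2 * Real.pi * I * (0 - q)) := by
    refine ⟨-(log c / (2 * Real.pi * I)), ?_⟩
    have hpi : (2 * Real.pi * I : ℂ) ≠ 0 := by simp [Real.pi_ne_zero, I_ne_zero]
    rw [zero_sub, neg_neg, mul_div_cancel₀ _ hpi, exp_log c.ne_zero]
  refine ⟨q, ?_, hq.symm⟩
  by_contra hcon
  simp only [Set.mem_union, Set.mem_ofPred_eq, not_or, not_and, not_not] at hcon
  obtain ⟨hb1, hb2⟩ := hcon
  obtain ⟨i⟩ := pen_gen hτ hu E G hb1 (hK _)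
  have h1 := σ.iso i (hb2 hb1)
  have h2 := hs1 _ _ ((σ.shift _ _).1 h1)
  rw [gu_sub 0 q c hq] at h2
  exact hc h2

theorem HNn_one (σ : PreStab C) {a b : ℝ} {X : C} (h : HNn σ.P a b X) (hab : b ≤ a) :
    σ.P a X := by
  cases h with
  | one hX _ => exact hX
  | step T hT h₁ h₃ h0 hφ =>
    have := σ.HN_le (σ.HNn_HN h₁)
    linarith

include hτ hu in
/-- the first part -/
theorem inv_P (hSUM : S_SUM.{v, u}) (hPEN : S_PEN.{v, u}) (σ : PreStab C) (φ : ℝ) (G : C)
    (hG : σ.P φ G) (c : ℂˣ) : σ.P φ (E.tw (g0 c) G) := by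
  obtain ⟨a, b, hX⟩ := σ.hn (E.tw (g0 c) G)
  rcases σ.HN_nonzero hX with h | ⟨a', b', _, _, hX'⟩
  · exact σ.zero _ _ h
  obtain ⟨A, hA, f, hf⟩ := σ.HNn_low hX'
  obtain ⟨hab, B, hB, g, hg⟩ := σ.HNn_top hX'
  have c1 := inv_count hτ hu E hSUM hPEN σ _ _ hA
  have c2 := inv_count hτ hu E hSUM hPEN σ _ _ hB
  have c3 := inv_count hτ hu E hSUM hPEN σ _ _ hG
  have c3' : ((fun d : ℂˣ => c * d) ⁻¹' {c : ℂˣ | ¬ σ.P φ (E.tw (g0 c) G)}).Countable :=
    c3.preimage (mul_right_injective c)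
  have hun : ¬ (Set.univ : Set ℂˣ).Countable := by
    intro h
    have h1 : (Set.univ : Set ℂ).Countable := by
      refine ((h.image (fun c : ℂˣ => (c : ℂ))).union (Set.countable_singleton 0)).mono ?_
      intro z _
      by_cases hz : z = 0
      · exact Or.inr hz
      · exact Or.inl ⟨Units.mk0 z hz, trivial, rfl⟩
    exact _root_.not_countable_complex h1
  obtain ⟨d, hd⟩ : ∃ d : ℂˣ, d ∉ ({c : ℂˣ | ¬ σ.P a' (E.tw (g0 c) A)} ∪
      {c : ℂˣ | ¬ σ.P b' (E.tw (g0 c) B)}) ∪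
      ((fun d : ℂˣ => c * d) ⁻¹' {c : ℂˣ | ¬ σ.P φ (E.tw (g0 c) G)}) := by
    by_contra hcon
    push Not at hcon
    exact hun (((c1.union c2).union c3').mono fun d _ => hcon d)
  simp only [Set.mem_union, Set.mem_ofPred_eq, Set.mem_preimage, not_or, not_not] at hd
  obtain ⟨⟨d1, d2⟩, d3⟩ := hd
  obtain ⟨i⟩ := tw_tw E G (g0_add c d).symm
  have d4 : σ.P φ (E.tw (g0 d) (E.tw (g0 c) G)) := σ.iso i.symm d3
  have l1 : φ ≤ a' := by
    by_contra hlt
    exact hf (tw_faithful E f (σ.hom (not_le.1 hlt) d4 d1 _))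
  have l2 : b' ≤ φ := by
    by_contra hlt
    exact hg (tw_faithful E g (σ.hom (not_le.1 hlt) d2 d4 _))
  have h1 := HNn_one σ hX' (l2.trans l1)
  rwa [le_antisymm (hab.trans l2) l1] at h1

/-- the number `Z (G(γ))` -/
noncomputable def zz (σ : PreStab C) (G : C) (γ : Gam) : ℂ := σ.Z (E.tw γ G)

include hu in
theorem zz_kt (σ : PreStab C) (G : C) (x : Gam) {a b : ℂ} (hab : ¬ Cg τ a b) :
    zz E σ G (x + gu a + gu b) - zz E σ G (x + gu a) - zz E σ G (x + gu b) + zz E σ G x = 0 := by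
  obtain ⟨h1, hk1⟩ := kt E G x (x + gu a) (x + gu b) (x + gu a + gu b) (gu a) (gu b)
    rfl rfl rfl (u a) (u b) (hu.mem _) (hu.mem _)
    (by
      intro z
      by_contra hc
      push Not at hc
      exact hab (Cg_trans (Cg_symm ((hu.zero _ _).1 hc.1)) ((hu.zero _ _).1 hc.2)))
    (by rw [add_sub_cancel_left]; exact hu.mem _) (by rw [add_sub_cancel_left]; exact hu.mem _)
    (by rw [show x + gu a + gu b - (x + gu b) = gu a by abel]; exact hu.mem _)
    (by rw [add_sub_cancel_left]; exact hu.mem _)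
  have h2 := σ.add _ hk1
  have h3 : σ.Z (E.tw (x + gu a) G ⊞ E.tw (x + gu b) G) = zz E σ G (x + gu a) +
    zz E σ G (x + gu b) := σ.Z_biprod _ _
  have h4 : σ.Z (E.tw (x + gu a) G ⊞ E.tw (x + gu b) G) = zz E σ G x +
    zz E σ G (x + gu a + gu b) := h2
  rw [h3] at h4
  linear_combination -h4

/-- the points which are congruent neither to `a` nor to `a'` -/
theorem exists_sep (a a' c : ℂ) : ∃ b : ℂ, ¬ Cg τ a b ∧ ¬ Cg τ a' b ∧ ¬ Cg τ a (b - c) ∧
    ¬ Cg τ a' (b - c) := by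
  by_contra hcon
  push Not at hcon
  have h1 : (Set.univ : Set ℂ) ⊆ {z | Cg τ z a} ∪ ({z | Cg τ z a'} ∪
      ({z | Cg τ z (a + c)} ∪ {z | Cg τ z (a' + c)})) := by
    intro z _
    by_cases h1 : Cg τ a z
    · exact Or.inl (Cg_symm h1)
    by_cases h2 : Cg τ a' z
    · exact Or.inr (Or.inl (Cg_symm h2))
    by_cases h3 : Cg τ a (z - c)
    · refine Or.inr (Or.inr (Or.inl ?_))
      obtain ⟨m, n, h⟩ := h3
      exact ⟨-m, -n, by push_cast; linear_combination -h⟩
    · refine Or.inr (Or.inr (Or.inr ?_))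
      obtain ⟨m, n, h⟩ := hcon z h1 h2 h3
      exact ⟨-m, -n, by push_cast; linear_combination -h⟩
  exact _root_.not_countable_complex
    (((Cg_count _).union ((Cg_count _).union ((Cg_count _).union (Cg_count _)))).mono h1)

include hu in
/-- `Z (G(0, c))` is affine in `c` -/
theorem zz_affine (σ : PreStab C) (G : C) (c d : ℂˣ) :
    zz E σ G (g0 (c * d)) - zz E σ G (g0 c) - zz E σ G (g0 d) + zz E σ G 0 = 0 := by
  have hpi : (2 * Real.pi * I : ℂ) ≠ 0 := by simp [Real.pi_ne_zero, I_ne_zero]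
  obtain ⟨a, ha⟩ : ∃ a : ℂ, (c : ℂ) = exp (2 * Real.pi * I * (a - 0)) :=
    ⟨log c / (2 * Real.pi * I), by rw [sub_zero, mul_div_cancel₀ _ hpi, exp_log c.ne_zero]⟩
  obtain ⟨b, hb1, hb2, hb3, hb4⟩ := exists_sep (τ := τ) a 0 (log d / (2 * Real.pi * I))
  have hd : (d : ℂ) = exp (2 * Real.pi * I * (b - (b - log d / (2 * Real.pi * I)))) := by
    rw [sub_sub_cancel, mul_div_cancel₀ _ hpi, exp_log d.ne_zero]
  set b' := b - log d / (2 * Real.pi * I) with hb'
  have e1 := gu_sub a 0 c ha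
  have e2 := gu_sub b b' d hd
  have k1 := zz_kt hu E σ G (-gu 0 - gu b') hb1
  have k2 := zz_kt hu E σ G (-gu 0 - gu b') hb2
  have k3 := zz_kt hu E σ G (-gu 0 - gu b') hb3
  have k4 := zz_kt hu E σ G (-gu 0 - gu b') hb4
  rw [show -gu 0 - gu b' + gu a + gu b = g0 (c * d) by rw [← g0_add, ← e1, ← e2]; abel] at k1
  rw [show -gu 0 - gu b' + gu 0 + gu b = g0 d by rw [← e2]; abel] at k2
  rw [show -gu 0 - gu b' + gu a + gu b' = g0 c by rw [← e1]; abel] at k3
  rw [show -gu 0 - gu b' + gu 0 + gu b' = 0 by abel] at k4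
  linear_combination k1 - k2 - k3 + k4

end

/-- **INV** -/
theorem p_INV (hSUM : S_SUM.{v, u}) (hPEN : S_PEN.{v, u}) : S_INV.{v, u} := by
  intro C _ _ _ _ _ _ _ _ τ hτ u hu E σ φ G c hG
  refine ⟨inv_P hτ hu E hSUM hPEN σ φ G hG c, ?_⟩
  have hm : ∀ d : ℂˣ, ∃ m : ℝ, 0 ≤ m ∧
      zz E σ G (g0 d) = m * Complex.exp (Complex.I * Real.pi * φ) := by
    intro d
    have h := inv_P hτ hu E hSUM hPEN σ φ G hG d
    by_cases h0 : IsZero (E.tw (g0 d) G)
    · exact ⟨0, le_rfl, by rw [zz, σ.Z_zero h0]; simp⟩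
    · obtain ⟨m, hm, e⟩ := σ.phase _ _ h h0
      exact ⟨m, hm.le, e⟩
  choose m hm0 hm using hm
  have hne : Complex.exp (Complex.I * Real.pi * φ) ≠ 0 := exp_ne_zero _
  have haff : ∀ c d : ℂˣ, m (c * d) = m c + m d - m 1 := by
    intro c d
    have h := zz_affine hu E σ G c d
    rw [← g0_one, hm, hm, hm, hm] at h
    have h2 : ((m (c * d) - m c - m d + m 1 : ℝ) : ℂ) = 0 := by
      apply mul_right_cancel₀ hne
      push_cast
      linear_combination h
    have h3 : m (c * d) - m c - m d + m 1 = 0 := by exact_mod_cast h2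
    linarith
  have hpow : ∀ (c : ℂˣ) (k : ℕ), m (c ^ k) = m 1 + k * (m c - m 1) := by
    intro c k
    induction k with
    | zero => simp
    | succ k ih =>
      rw [pow_succ, haff, ih]
      push_cast
      ring
  have hge : ∀ c : ℂˣ, m 1 ≤ m c := by
    intro c
    by_contra hlt
    rw [not_le] at hlt
    obtain ⟨k, hk⟩ := exists_nat_gt (m 1 / (m 1 - m c))
    have h1 := hm0 (c ^ k)
    rw [hpow] at h1
    rw [div_lt_iff₀ (sub_pos.2 hlt)] at hk
    linarith
  have heq : m c = m 1 := by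
    refine le_antisymm ?_ (hge c)
    have h1 := haff c c⁻¹
    rw [mul_inv_cancel] at h1
    linarith [hge c⁻¹]
  have h1 : zz E σ G (g0 c) = zz E σ G (g0 1) := by rw [hm, hm, heq]
  rw [g0_one] at h1
  exact h1.trans (Z_zero_tw E σ rfl)

end Run7.h622.BE
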