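import Pool.Agent.Run7.h622.BE_HFb

/-!
# HF, finiteness of the cohomology of line bundles
-/

set_option autoImplicit false
set_option linter.unusedSectionVars false
set_option linter.unusedVariables false

open CategoryTheory CategoryTheory.Limits Pretriangulated Triangulated
open Run7.h354.BE Run7.h622.HFb

namespace Run7.h622

universe w

namespace HF

variable {τ τ' : ℂ}

theorem fmm_comp (X : FM τ τ') {b b' b'' : Gam2} (f g : ℂ × ℂ → ℂ) (hf : f ∈ W τ τ' (b - b'))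
    (hg : g ∈ W τ τ' (b' - b'')) (hfg : f * g ∈ W τ τ' (b - b'')) :
    fmm X f hf ≫ fmm X g hg = fmm X (f * g) hfg := by
  refine ObjectProperty.hom_ext _ ?_
  ext x y
  refine Subtype.ext (funext fun t => ?_)
  show g (X.j t) * (f (X.j t) * y.1 t) = (f (X.j t) * g (X.j t)) * y.1 t
  ring

/-- Multiplication by a function without zeros is invertible. -/
theorem fmm_unit (X : FM τ τ') {b b' : Gam2} {γ δ : Gam} (g h : ℂ → ℂ) (hg : g ∈ V τ γ)
    (hh : h ∈ V τ' δ) (hne : ∀ t, g (X.j t).1 ≠ 0 ∧ h (X.j t).2 ≠ 0) (hb : b - b' = (γ, δ))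
    (hf : pr g h ∈ W τ τ' (b - b')) : ∃ k : fm X b' ⟶ fm X b, fmm X (pr g h) hf ≫ k = 𝟙 _ := by
  refine ⟨(lin τ τ' false).homMk
    { app := fun x => ModuleCat.ofHom
        { toFun := fun (ψ : X.U (x.deg - b')) => ⟨fun t => (pr g h (X.j t))⁻¹ * ψ.1 t, by
            refine X.loc _ _ fun t => ⟨γ, δ, g, h, hg, hh, (hne t).1, (hne t).2, ?_⟩
            have e : (fun t => pr g h (X.j t)) * (fun t => (pr g h (X.j t))⁻¹ * ψ.1 t) = ψ.1 := by
              funext t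
              show pr g h (X.j t) * ((pr g h (X.j t))⁻¹ * ψ.1 t) = ψ.1 t
              exact mul_inv_cancel_left₀ (mul_ne_zero (hne t).1 (hne t).2 : pr g h (X.j t) ≠ 0) _
            rw [e]
            have h2 : x.deg - b' = x.deg - b + (γ, δ) := by rw [← hb]; abel
            exact (congrArg (fun d => (ψ.1 : X.T → ℂ) ∈ X.U d) h2).mp ψ.2⟩
          map_add' := fun f g => Subtype.ext (funext fun t => mul_add _ _ _)
          map_smul' := fun c f => Subtype.ext (funext fun t => mul_left_comm _ _ _) }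
      naturality := fun x y φ => by
        refine ModuleCat.hom_ext (LinearMap.ext fun ψ => Subtype.ext (funext fun t => ?_))
        exact mul_left_comm _ _ _ }, ?_⟩
  refine ObjectProperty.hom_ext _ ?_
  ext x y
  refine Subtype.ext (funext fun t => ?_)
  exact inv_mul_cancel_left₀ (mul_ne_zero (hne t).1 (hne t).2 : pr g h (X.j t) ≠ 0) _

variable [HasDerivedCategory.{w} (QC τ τ' false)]

/-- the cohomology groups -/
abbrev Hc (a : Gam2) (X : FM τ τ') (b : Gam2) (i : ℤ) : Type _ :=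
  SS (fm (fW τ τ') a) ⟶ (SS (fm X b))⟦i⟧

/-- injectivity of the multiplication by `f` on the cohomology -/
def Inj (a : Gam2) (X : FM τ τ') (i : ℤ) (f : ℂ × ℂ → ℂ) (b b' : Gam2) : Prop :=
  ∀ (hf : f ∈ W τ τ' (b - b')) (x : Hc a X b i), x ≫ (Sm (fmm X f hf))⟦i⟧' = 0 → x = 0

theorem Sm_comp {M N P : GM τ τ' false} (f : M ⟶ N) (g : N ⟶ P) : Sm (f ≫ g) = Sm f ≫ Sm g := by
  unfold Sm
  rw [Functor.map_comp, Functor.map_comp]

theorem Sm_id (M : GM τ τ' false) : Sm (𝟙 M) = 𝟙 (SS M) := by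
  unfold Sm
  rw [CategoryTheory.Functor.map_id, CategoryTheory.Functor.map_id]

/-- the shift by zero -/
noncomputable def zi (K : DerivedCategory (QC τ τ' false)) : K ≅ K⟦(0 : ℤ)⟧ :=
  ((shiftFunctorZero (DerivedCategory (QC τ τ' false)) ℤ).app K).symm

theorem zi_nat {K L : DerivedCategory (QC τ τ' false)} (f : K ⟶ L) :
    f ≫ (zi L).hom = (zi K).hom ≫ f⟦(0 : ℤ)⟧' :=
  (shiftFunctorZero (DerivedCategory (QC τ τ' false)) ℤ).inv.naturality f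

theorem Inj.comp {a : Gam2} {X : FM τ τ'} {i : ℤ} {f g : ℂ × ℂ → ℂ} {b b' b'' : Gam2}
    (hf : f ∈ W τ τ' (b - b')) (hg : g ∈ W τ τ' (b' - b'')) (h1 : Inj a X i f b b')
    (h2 : Inj a X i g b' b'') : Inj a X i (f * g) b b'' := by
  intro hfg x hx
  rw [← fmm_comp X f g hf hg hfg, Sm_comp, Functor.map_comp, ← Category.assoc] at hx
  exact h1 hf x (h2 hg _ hx)

theorem Inj.unit {a : Gam2} {X : FM τ τ'} {i : ℤ} {b b' : Gam2} {γ δ : Gam} (g h : ℂ → ℂ)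
    (hg : g ∈ V τ γ) (hh : h ∈ V τ' δ) (hne : ∀ t, g (X.j t).1 ≠ 0 ∧ h (X.j t).2 ≠ 0)
    (hb : b - b' = (γ, δ)) : Inj a X i (pr g h) b b' := by
  intro hf x hx
  obtain ⟨k, hk⟩ := fmm_unit X g h hg hh hne hb hf
  have h1 : (Sm (fmm X (pr g h) hf))⟦i⟧' ≫ (Sm k)⟦i⟧' = 𝟙 _ := by
    rw [← Functor.map_comp, ← Sm_comp, hk, Sm_id, CategoryTheory.Functor.map_id]
  have h2 := congrArg (fun t => t ≫ (Sm k)⟦i⟧') hx
  simp only [zero_comp, Category.assoc, h1, Category.comp_id] at h2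
  exact h2

theorem V_nonneg {u : ℂ → ℂ → ℂ} {τ : ℂ} (hu : TH τ u) {γ : Gam} {g : ℂ → ℂ} (hg : g ∈ V τ γ)
    (h : g ≠ 0) : 0 ≤ γ.1 := by
  by_contra h1
  exact h (hu.neg γ g hg (by omega))

theorem pr_mul (g h g' h' : ℂ → ℂ) : pr g h * pr g' h' = pr (g * g') (h * h') := by
  funext p
  show g p.1 * h p.2 * (g' p.1 * h' p.2) = g p.1 * g' p.1 * (h p.2 * h' p.2)
  ring

/-- injectivity for all nonzero theta functions of the first variable -/
theorem Inj.fst {u : ℂ → ℂ → ℂ} (hu : TH τ u) {a : Gam2} {X : FM τ τ'} {i : ℤ} (P : Gam2 → Prop)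
    (hP : ∀ z b b', b - b' = (gu z, 0) → P b → P b')
    (h1 : ∀ z b b', b - b' = (gu z, 0) → P b → Inj a X i (pr (u z) 1) b b') :
    ∀ (n : ℕ) (γ : Gam) (g : ℂ → ℂ), γ.1 = n → g ∈ V τ γ → g ≠ 0 → ∀ b b', b - b' = (γ, 0) → P b →
      Inj a X i (pr g 1) b b' := by
  intro n
  induction n with
  | zero =>
    intro γ g hγ hg h0 b b' hb hp
    obtain ⟨k, r, hr, e⟩ := hu.deg0 γ g hg (by simpa using hγ) h0
    refine Inj.unit g 1 hg V_one (fun t => ⟨?_, one_ne_zero⟩) hb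
    rw [e]
    exact mul_ne_zero hr (Complex.exp_ne_zero _)
  | succ n ih =>
    intro γ g hγ hg h0 b b' hb hp
    obtain ⟨p, hp0⟩ := hu.pos γ g hg (by rw [hγ]; positivity)
    obtain ⟨g', hg', rfl⟩ := hu.div p γ g hg hp0
    have h2 : g' ≠ 0 := by rintro rfl; exact h0 (mul_zero _)
    have e : pr (u p * g') 1 = pr (u p) 1 * pr g' (1 : ℂ → ℂ) := by rw [pr_mul, one_mul]
    have e1 : b - (b - (gu p, 0)) = (gu p, 0) := by abel
    have e2 : b - (gu p, 0) - b' = (γ - gu p, 0) := by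
      rw [sub_right_comm, hb, Prod.mk_sub_mk, sub_zero]
    rw [e]
    refine Inj.comp (b' := b - (gu p, 0)) ?_ ?_ (h1 p _ _ e1 hp) (ih (γ - gu p) g' ?_ hg' h2 _ _ e2
      (hP p _ _ e1 hp))
    · rw [e1]; exact W_pr (hu.mem p) V_one
    · rw [e2]; exact W_pr hg' V_one
    · show γ.1 - 1 = n
      rw [hγ]; push_cast; ring

/-- injectivity for all nonzero theta functions of the second variable -/
theorem Inj.snd {v : ℂ → ℂ → ℂ} (hv : TH τ' v) {a : Gam2} {X : FM τ τ'} {i : ℤ} (P : Gam2 → Prop)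
    (hP : ∀ z b b', b - b' = (0, gu z) → P b → P b')
    (h1 : ∀ z b b', b - b' = (0, gu z) → P b → Inj a X i (pr 1 (v z)) b b') :
    ∀ (n : ℕ) (γ : Gam) (g : ℂ → ℂ), γ.1 = n → g ∈ V τ' γ → g ≠ 0 → ∀ b b', b - b' = (0, γ) → P b →
      Inj a X i (pr 1 g) b b' := by
  intro n
  induction n with
  | zero =>
    intro γ g hγ hg h0 b b' hb hp
    obtain ⟨k, r, hr, e⟩ := hv.deg0 γ g hg (by simpa using hγ) h0
    refine Inj.unit 1 g V_one hg (fun t => ⟨one_ne_zero, ?_⟩) hb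
    rw [e]
    exact mul_ne_zero hr (Complex.exp_ne_zero _)
  | succ n ih =>
    intro γ g hγ hg h0 b b' hb hp
    obtain ⟨p, hp0⟩ := hv.pos γ g hg (by rw [hγ]; positivity)
    obtain ⟨g', hg', rfl⟩ := hv.div p γ g hg hp0
    have h2 : g' ≠ 0 := by rintro rfl; exact h0 (mul_zero _)
    have e : pr 1 (v p * g') = pr 1 (v p) * pr (1 : ℂ → ℂ) g' := by rw [pr_mul, one_mul]
    have e1 : b - (b - (0, gu p)) = (0, gu p) := by abel
    have e2 : b - (0, gu p) - b' = (0, γ - gu p) := by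
      rw [sub_right_comm, hb, Prod.mk_sub_mk, sub_zero]
    rw [e]
    refine Inj.comp (b' := b - (0, gu p)) ?_ ?_ (h1 p _ _ e1 hp) (ih (γ - gu p) g' ?_ hg' h2 _ _ e2
      (hP p _ _ e1 hp))
    · rw [e1]; exact W_pr V_one (hv.mem p)
    · rw [e2]; exact W_pr V_one hg'
    · show γ.1 - 1 = n
      rw [hγ]; push_cast; ring

/-- every class of positive degree is killed by a product not zero at a given point -/
theorem killed (hL : S_LOC.{w}) (a : Gam2) (X : FM τ τ') (b : Gam2) (i : ℤ) (hi : 1 ≤ i)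
    (x : Hc a X b i) (z w : ℂ) : ∃ (γ δ : Gam) (g h : ℂ → ℂ), g ∈ V τ γ ∧ h ∈ V τ' δ ∧ g z ≠ 0 ∧
      h w ≠ 0 ∧ ∀ (b' : Gam2) (_ : b - b' = (γ, δ)) (hf : pr g h ∈ W τ τ' (b - b')),
        x ≫ (Sm (fmm X (pr g h) hf))⟦i⟧' = 0 := by
  have hK : ((SS (fm X b))⟦i⟧).IsLE (-1) := by
    have h0 : DerivedCategory.TStructure.t.IsLE (SS (fm X b)) 0 :=
      inferInstanceAs ((SS (fm X b)).IsLE 0)
    have h1 : DerivedCategory.TStructure.t.IsLE ((SS (fm X b))⟦i⟧) (-i) :=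
      DerivedCategory.TStructure.t.isLE_shift _ 0 i (-i) (by omega)
    exact DerivedCategory.TStructure.t.isLE_of_le _ (-i) (-1) (by omega)
  obtain ⟨γ, δ, g, h, hg, hh, hf, h1, h2, h3⟩ := hL τ τ' ((SS (fm X b))⟦i⟧) hK a x z w
  refine ⟨γ, δ, g, h, hg, hh, h1, h2, fun b' hb hf' => ?_⟩
  exact act_fm X (a' := a + (γ, δ)) (by rw [hb]; abel) (pr g h) hf hf' i x h3

/-- the vanishing criterion -/
theorem vanish (hL : S_LOC.{w}) {u v : ℂ → ℂ → ℂ} (hu : TH τ u) (hv : TH τ' v) (a : Gam2)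
    (X : FM τ τ') (i : ℤ) (hi : 1 ≤ i) (P : Gam2 → Prop) (z w : ℂ)
    (hP : ∀ (γ : Gam) b b', 0 ≤ γ.1 → b - b' = (γ, 0) → P b → P b')
    (h1 : ∀ (γ : Gam) (g : ℂ → ℂ), g ∈ V τ γ → g z ≠ 0 → ∀ b b', b - b' = (γ, 0) → P b →
      Inj a X i (pr g 1) b b')
    (h2 : ∀ (δ : Gam) (h : ℂ → ℂ), h ∈ V τ' δ → h w ≠ 0 → ∀ b b', b - b' = (0, δ) → P b →
      Inj a X i (pr 1 h) b b') (b : Gam2) (hb : P b) (x : Hc a X b i) : x = 0 := by
  obtain ⟨γ, δ, g, h, hg, hh, hg0, hh0, hk⟩ := killed hL a X b i hi x z w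
  have e : pr g h = pr g 1 * pr 1 h := by rw [pr_mul, mul_one, one_mul]
  have e1 : b - (b - (γ, 0)) = (γ, 0) := by abel
  have e2 : b - (γ, 0) - (b - (γ, δ)) = (0, δ) := by
    rw [sub_sub_sub_cancel_left, Prod.mk_sub_mk, sub_self, sub_zero]
  have e3 : b - (b - (γ, δ)) = (γ, δ) := by abel
  have hp : P (b - (γ, 0)) := hP γ _ _ (V_nonneg hu hg fun h => hg0 (congrFun h z)) e1 hb
  have m1 : pr g 1 ∈ W τ τ' (b - (b - (γ, 0))) := by rw [e1]; exact W_pr hg V_one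
  have m2 : pr 1 h ∈ W τ τ' (b - (γ, 0) - (b - (γ, δ))) := by rw [e2]; exact W_pr V_one hh
  have m3 : pr g h ∈ W τ τ' (b - (b - (γ, δ))) := by rw [e3]; exact W_pr hg hh
  have hi := Inj.comp m1 m2 (h1 γ g hg hg0 _ _ e1 hb) (h2 δ h hh hh0 _ _ e2 hp)
  rw [← e] at hi
  exact hi m3 x (hk _ e3 m3)

/-- injectivity from a short exact sequence -/
theorem inj_of_ses (a : Gam2) (X Y : FM τ τ') (c : Gam2) (f : ℂ × ℂ → ℂ) (b b' : Gam2)
    (hb : b - b' = c) (r : fm X b' ⟶ fm Y b')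
    (hs : ∀ h, ∃ e, (ShortComplex.mk ((sh τ τ' false).map (fmm X (a := b') (b := b' + c) f h))
      ((sh τ τ' false).map r) e).ShortExact) (i i' : ℤ) (hi : i + 1 = i')
    (hl : ∀ y : Hc a Y b' i, ∃ y' : Hc a X b' i, y = y' ≫ (Sm r)⟦i⟧') : Inj a X i' f b b' := by
  obtain rfl : b = b' + c := by rw [← hb]; abel
  intro hf x hx
  obtain ⟨e, he⟩ := hs hf
  obtain ⟨δ, h1, h2⟩ := HFa.conn_ses he i i' hi
  obtain ⟨y, hy⟩ := h2 _ x hx
  obtain ⟨y', hy'⟩ := hl y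
  rw [hy, hy', Category.assoc]
  exact (congrArg (fun t => y' ≫ t) h1).trans comp_zero

/-- finiteness from a short exact sequence -/
theorem fin_of_ses (a : Gam2) (X Y : FM τ τ') (c : Gam2) (f : ℂ × ℂ → ℂ) (b' : Gam2)
    (r : fm X b' ⟶ fm Y b') (hf : f ∈ W τ τ' c)
    (hs : ∀ h, ∃ e, (ShortComplex.mk ((sh τ τ' false).map (fmm X (a := b') (b := b' + c) f h))
      ((sh τ τ' false).map r) e).ShortExact) (i i' : ℤ) (hi : i + 1 = i')
    (h3 : Module.Finite ℂ (Hc a Y b' i)) (h2 : Module.Finite ℂ (Hc a X b' i')) :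
    Module.Finite ℂ (Hc a X (b' + c) i') := by
  have hf' : f ∈ W τ τ' (b' + c - b') := by rwa [add_sub_cancel_left]
  obtain ⟨e, he⟩ := hs hf'
  exact HFa.fin_ses he i i' hi _ h3 h2

/-- the classes of degree zero -/
theorem H0 (hS : S_SAT) (a : Gam2) (X : FM τ τ') (b : Gam2) (y : Hc a X b 0) :
    ∃ (ψ : X.T → ℂ) (hψ : ψ ∈ X.U (a - b)), y = Sm (fmg X ψ hψ) ≫ (zi _).hom := by
  obtain ⟨φ, hφ⟩ := (DerivedCategory.singleFunctor (QC τ τ' false) 0).map_surjective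
    (y ≫ (zi (SS (fm X b))).inv)
  obtain ⟨ψ, hψ, rfl⟩ := (hS τ τ' X a b).1 φ
  refine ⟨ψ, hψ, ?_⟩
  have e : Sm (fmg X ψ hψ) = y ≫ (zi (SS (fm X b))).inv := hφ
  rw [e, Category.assoc, Iso.inv_hom_id, Category.comp_id]

theorem lift0 (hS : S_SAT) (a : Gam2) (X Y : FM τ τ') (b : Gam2) (r : fm X b ⟶ fm Y b)
    (hr : ∀ (ψ : Y.T → ℂ) (hψ : ψ ∈ Y.U (a - b)), ∃ (ψ' : X.T → ℂ) (hψ' : ψ' ∈ X.U (a - b)),
      fmg X ψ' hψ' ≫ r = fmg Y ψ hψ) (y : Hc a Y b 0) :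
    ∃ y' : Hc a X b 0, y = y' ≫ (Sm r)⟦(0 : ℤ)⟧' := by
  obtain ⟨ψ, hψ, rfl⟩ := H0 hS a Y b y
  obtain ⟨ψ', hψ', e⟩ := hr ψ hψ
  refine ⟨Sm (fmg X ψ' hψ') ≫ (zi _).hom, ?_⟩
  rw [← e, Sm_comp, Category.assoc, Category.assoc, zi_nat]

theorem fin0 (hS : S_SAT) (a : Gam2) (X : FM τ τ') (b : Gam2) (h : Module.Finite ℂ (X.U (a - b))) :
    Module.Finite ℂ (Hc a X b 0) := by
  let f : X.U (a - b) →ₗ[ℂ] Hc a X b 0 :=
    { toFun := fun ψ => Sm (fmg X ψ.1 ψ.2) ≫ (zi _).hom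
      map_add' := fun ψ ψ' => by
        have e : fmg X (ψ + ψ').1 (ψ + ψ').2 = fmg X ψ.1 ψ.2 + fmg X ψ'.1 ψ'.2 := by
          refine ObjectProperty.hom_ext _ ?_
          ext x y
          refine Subtype.ext (funext fun t => ?_)
          exact mul_add _ _ _
        rw [e]
        unfold Sm
        rw [Functor.map_add, Functor.map_add, Preadditive.add_comp]
      map_smul' := fun r ψ => by
        have e : fmg X (r • ψ).1 (r • ψ).2 = r • fmg X ψ.1 ψ.2 := by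
          refine ObjectProperty.hom_ext _ ?_
          ext x y
          refine Subtype.ext (funext fun t => ?_)
          exact mul_left_comm _ _ _
        rw [e]
        unfold Sm
        rw [Functor.map_smul, Functor.map_smul, Linear.smul_comp]
        rfl }
  refine Module.Finite.of_surjective f fun y => ?_
  obtain ⟨ψ, hψ, rfl⟩ := H0 hS a X b y
  exact ⟨⟨ψ, hψ⟩, rfl⟩

theorem fin_of_zero (a : Gam2) (X : FM τ τ') (b : Gam2) (i : ℤ) (h : ∀ x : Hc a X b i, x = 0) :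
    Module.Finite ℂ (Hc a X b i) := by
  have : Subsingleton (Hc a X b i) := ⟨fun x y => by rw [h x, h y]⟩
  infer_instance

/-- negative degrees -/
theorem neg (a : Gam2) (X : FM τ τ') (b : Gam2) (i : ℤ) (hi : i < 0) (x : Hc a X b i) : x = 0 := by
  have h0 : DerivedCategory.TStructure.t.IsLE (SS (fm (fW τ τ') a)) 0 :=
    inferInstanceAs ((SS (fm (fW τ τ') a)).IsLE 0)
  have h0' : DerivedCategory.TStructure.t.IsGE (SS (fm X b)) 0 :=
    inferInstanceAs ((SS (fm X b)).IsGE 0)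
  have h1 : DerivedCategory.TStructure.t.IsGE ((SS (fm X b))⟦i⟧) (-i) :=
    DerivedCategory.TStructure.t.isGE_shift _ 0 i (-i) (by omega)
  exact DerivedCategory.TStructure.t.zero x 0 (-i) (by omega)

theorem desc1 (a : Gam2) (Q : Gam2 → Prop) (h1 : ∀ b : Gam2, 1 ≤ (a - b).1.1 → Q b)
    (h2 : ∀ b, Q b → Q (b + (gu 0, 0))) (b : Gam2) : Q b := by
  have h : ∀ (n : ℕ) (b : Gam2), 1 - (n : ℤ) ≤ (a - b).1.1 → Q b := by
    intro n
    induction n with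
    | zero => intro b hb; exact h1 b (by simpa using hb)
    | succ n ih =>
      intro b hb
      have e : (a - (b - (gu 0, 0))).1.1 = (a - b).1.1 + 1 := by
        show a.1.1 - (b.1.1 - 1) = a.1.1 - b.1.1 + 1
        ring
      have h3 := h2 _ (ih (b - (gu 0, 0)) (by rw [e]; push_cast at hb; linarith))
      rwa [sub_add_cancel] at h3
  refine h (1 - (a - b).1.1).toNat b ?_
  have := Int.self_le_toNat (1 - (a - b).1.1)
  linarith

theorem desc2 (a : Gam2) (Q : Gam2 → Prop) (h1 : ∀ b : Gam2, 1 ≤ (a - b).2.1 → Q b)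
    (h2 : ∀ b, Q b → Q (b + (0, gu 0))) (b : Gam2) : Q b := by
  have h : ∀ (n : ℕ) (b : Gam2), 1 - (n : ℤ) ≤ (a - b).2.1 → Q b := by
    intro n
    induction n with
    | zero => intro b hb; exact h1 b (by simpa using hb)
    | succ n ih =>
      intro b hb
      have e : (a - (b - (0, gu 0))).2.1 = (a - b).2.1 + 1 := by
        show a.2.1 - (b.2.1 - 1) = a.2.1 - b.2.1 + 1
        ring
      have h3 := h2 _ (ih (b - (0, gu 0)) (by rw [e]; push_cast at hb; linarith))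
      rwa [sub_add_cancel] at h3
  refine h (1 - (a - b).2.1).toNat b ?_
  have := Int.self_le_toNat (1 - (a - b).2.1)
  linarith

/-! ### The four kinds of sheaves -/

section steps

variable {u v : ℂ → ℂ → ℂ} (hu : TH τ u) (hv : TH τ' v)

include hu hv

/-- points -/
theorem ptZ (hL : S_LOC.{w}) (a : Gam2) (z w : ℂ) (i : ℤ) (hi : 1 ≤ i) (b : Gam2)
    (x : Hc a (fP τ τ' (z, w)) b i) : x = 0 := by
  refine vanish hL hu hv a _ i hi (fun _ => True) z w (fun _ _ _ _ _ _ => trivial) ?_ ?_ b trivial x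
  · intro γ g hg hg0 b b' hb _
    exact Inj.unit g 1 hg V_one (fun t => ⟨hg0, one_ne_zero⟩) hb
  · intro δ h hh hh0 b b' hb _
    exact Inj.unit 1 h V_one hh (fun t => ⟨one_ne_zero, hh0⟩) hb

theorem liftP (hT' : 0 < τ'.im) (hSEC : S_SEC) (hSAT : S_SAT) (hL : S_LOC.{w}) (a : Gam2)
    (z w : ℂ) (i : ℤ) (hi : 0 ≤ i) (b : Gam2) (hb : 2 ≤ (a - b).2.1)
    (y : Hc a (fP τ τ' (z, w)) b i) :
    ∃ y' : Hc a (fL τ τ' z) b i, y = y' ≫ (Sm (rLP z w b))⟦i⟧' := by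
  rcases hi.lt_or_eq with h | h
  · rw [ptZ hu hv hL a z w i (by omega) b y]
    exact ⟨0, zero_comp.symm⟩
  · subst h
    refine lift0 hSAT a (fL τ τ' z) (fP τ τ' (z, w)) b (rLP z w b) ?_ y
    intro ψ hψ
    obtain ⟨h, hh, h0⟩ := (hSEC τ' hT' v hv).1 (a - b).2 w hb
    refine ⟨(ψ () / h w) • h, Submodule.smul_mem _ _ hh, ?_⟩
    refine ObjectProperty.hom_ext _ ?_
    ext x y
    refine Subtype.ext (funext fun t => ?_)
    show y.1 (z, w) * (ψ () / h w * h w) = y.1 (z, w) * ψ ()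
    rw [div_mul_cancel₀ _ h0]

theorem liftP' (hT : 0 < τ.im) (hSEC : S_SEC) (hSAT : S_SAT) (hL : S_LOC.{w}) (a : Gam2)
    (z w : ℂ) (i : ℤ) (hi : 0 ≤ i) (b : Gam2) (hb : 2 ≤ (a - b).1.1)
    (y : Hc a (fP τ τ' (z, w)) b i) :
    ∃ y' : Hc a (fL' τ τ' w) b i, y = y' ≫ (Sm (rLP' z w b))⟦i⟧' := by
  rcases hi.lt_or_eq with h | h
  · rw [ptZ hu hv hL a z w i (by omega) b y]
    exact ⟨0, zero_comp.symm⟩
  · subst h
    refine lift0 hSAT a (fL' τ τ' w) (fP τ τ' (z, w)) b (rLP' z w b) ?_ y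
    intro ψ hψ
    obtain ⟨g, hg, h0⟩ := (hSEC τ hT u hu).1 (a - b).1 z hb
    refine ⟨(ψ () / g z) • g, Submodule.smul_mem _ _ hg, ?_⟩
    refine ObjectProperty.hom_ext _ ?_
    ext x y
    refine Subtype.ext (funext fun t => ?_)
    show y.1 (z, w) * (ψ () / g z * g z) = y.1 (z, w) * ψ ()
    rw [div_mul_cancel₀ _ h0]

/-- the curves `{z} × F` -/
theorem LZ (hT : 0 < τ.im) (hT' : 0 < τ'.im) (hSEC : S_SEC) (hSAT : S_SAT) (hSEQ : S_SEQ)
    (hL : S_LOC.{w}) (a : Gam2) (z : ℂ) (i : ℤ) (hi : 1 ≤ i) (b : Gam2) (hb : 1 ≤ (a - b).2.1)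
    (x : Hc a (fL τ τ' z) b i) : x = 0 := by
  refine vanish hL hu hv a _ i hi (fun b => 1 ≤ (a - b).2.1) z 0 ?_ ?_ ?_ b hb x
  · intro γ b b' hγ hb hp
    have e : (a - b').2.1 = (a - b).2.1 + (b - b').2.1 := by
      show a.2.1 - b'.2.1 = a.2.1 - b.2.1 + (b.2.1 - b'.2.1)
      ring
    rw [hb] at e
    show 1 ≤ (a - b').2.1
    rw [e]
    have : ((γ, (0 : Gam)) : Gam2).2.1 = 0 := rfl
    rw [this]
    linarith
  · intro γ g hg hg0 b b' hb _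
    exact Inj.unit g 1 hg V_one (fun t => ⟨hg0, one_ne_zero⟩) hb
  · intro δ h hh hh0 b b' hb hp
    have h0 : h ≠ 0 := fun e => hh0 (congrFun e 0)
    have e0 : ∀ (z : ℂ) (b b' : Gam2), b - b' = (0, gu z) → (a - b').2.1 = (a - b).2.1 + 1 := by
      intro z b b' hb
      have e : (a - b').2.1 = (a - b).2.1 + (b - b').2.1 := by
        show a.2.1 - b'.2.1 = a.2.1 - b.2.1 + (b.2.1 - b'.2.1)
        ring
      rw [e, hb]
      rfl
    refine Inj.snd hv (fun b => 1 ≤ (a - b).2.1) ?_ ?_ δ.1.toNat δ h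
      (Int.toNat_of_nonneg (V_nonneg hv hh h0)).symm hh h0 b b' hb hp
    · intro w b b' hb hp
      show 1 ≤ (a - b').2.1
      rw [e0 w b b' hb]
      have : 1 ≤ (a - b).2.1 := hp
      linarith
    · intro w b b' hb hp
      have hp' : 1 ≤ (a - b).2.1 := hp
      refine inj_of_ses a _ (fP τ τ' (z, w)) (0, gu w) _ b b' hb (rLP z w b')
        (hSEQ τ τ' hT hT' u v hu hv b' z w).2.2.1 (i - 1) i (by omega) fun y => ?_
      exact liftP hu hv hT' hSEC hSAT hL a z w (i - 1) (by omega) b'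
        (by rw [e0 w b b' hb]; linarith) y

/-- the curves `E × {w}` -/
theorem LZ' (hT : 0 < τ.im) (hT' : 0 < τ'.im) (hSEC : S_SEC) (hSAT : S_SAT) (hSEQ : S_SEQ)
    (hL : S_LOC.{w}) (a : Gam2) (w : ℂ) (i : ℤ) (hi : 1 ≤ i) (b : Gam2) (hb : 1 ≤ (a - b).1.1)
    (x : Hc a (fL' τ τ' w) b i) : x = 0 := by
  have e0 : ∀ (γ : Gam2) (b b' : Gam2), b - b' = γ → (a - b').1.1 = (a - b).1.1 + γ.1.1 := by
    intro γ b b' hb
    rw [← hb]
    show a.1.1 - b'.1.1 = a.1.1 - b.1.1 + (b.1.1 - b'.1.1)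
    ring
  refine vanish hL hu hv a _ i hi (fun b => 1 ≤ (a - b).1.1) 0 w ?_ ?_ ?_ b hb x
  · intro γ b b' hγ hb hp
    show 1 ≤ (a - b').1.1
    rw [e0 _ b b' hb]
    have : 1 ≤ (a - b).1.1 := hp
    show 1 ≤ (a - b).1.1 + γ.1
    linarith
  · intro γ g hg hg0 b b' hb hp
    have h0 : g ≠ 0 := fun e => hg0 (congrFun e 0)
    refine Inj.fst hu (fun b => 1 ≤ (a - b).1.1) ?_ ?_ γ.1.toNat γ g
      (Int.toNat_of_nonneg (V_nonneg hu hg h0)).symm hg h0 b b' hb hp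
    · intro z b b' hb hp
      show 1 ≤ (a - b').1.1
      rw [e0 _ b b' hb]
      have : 1 ≤ (a - b).1.1 := hp
      show 1 ≤ (a - b).1.1 + 1
      linarith
    · intro z b b' hb hp
      have hp' : 1 ≤ (a - b).1.1 := hp
      refine inj_of_ses a _ (fP τ τ' (z, w)) (gu z, 0) _ b b' hb (rLP' z w b')
        (hSEQ τ τ' hT hT' u v hu hv b' z w).2.2.2 (i - 1) i (by omega) fun y => ?_
      refine liftP' hu hv hT hSEC hSAT hL a z w (i - 1) (by omega) b' ?_ y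
      rw [e0 _ b b' hb]
      show 2 ≤ (a - b).1.1 + 1
      linarith
  · intro δ h hh hh0 b b' hb _
    exact Inj.unit 1 h V_one hh (fun t => ⟨one_ne_zero, hh0⟩) hb

theorem LF (hT : 0 < τ.im) (hT' : 0 < τ'.im) (hSEC : S_SEC) (hSAT : S_SAT) (hSEQ : S_SEQ)
    (hL : S_LOC.{w}) (a : Gam2) (z : ℂ) (i : ℤ) (hi : 0 ≤ i) (b : Gam2) :
    Module.Finite ℂ (Hc a (fL τ τ' z) b i) := by
  rcases hi.lt_or_eq with h | h
  · refine desc2 a (fun b => Module.Finite ℂ (Hc a (fL τ τ' z) b i)) (fun b hb => ?_)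
      (fun b hb => ?_) b
    · exact fin_of_zero _ _ _ _ fun x => LZ hu hv hT hT' hSEC hSAT hSEQ hL a z i (by omega) b hb x
    · refine fin_of_ses a _ (fP τ τ' (z, 0)) (0, gu 0) (pr 1 (v 0)) b (rLP z 0 b)
        (W_pr V_one (hv.mem 0))
        (hSEQ τ τ' hT hT' u v hu hv b z 0).2.2.1 (i - 1) i (by omega) ?_ hb
      rcases (show 0 ≤ i - 1 by omega).lt_or_eq with h' | h'
      · exact fin_of_zero _ _ _ _ fun x => ptZ hu hv hL a z 0 (i - 1) (by omega) b x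
      · rw [← h']
        refine fin0 hSAT _ _ _ ?_
        show Module.Finite ℂ (⊤ : Submodule ℂ (Unit → ℂ))
        infer_instance
  · subst h
    exact fin0 hSAT _ _ _ (hv.fin _)

theorem LF' (hT : 0 < τ.im) (hT' : 0 < τ'.im) (hSEC : S_SEC) (hSAT : S_SAT) (hSEQ : S_SEQ)
    (hL : S_LOC.{w}) (a : Gam2) (w : ℂ) (i : ℤ) (hi : 0 ≤ i) (b : Gam2) :
    Module.Finite ℂ (Hc a (fL' τ τ' w) b i) := by
  rcases hi.lt_or_eq with h | h
  · refine desc1 a (fun b => Module.Finite ℂ (Hc a (fL' τ τ' w) b i)) (fun b hb => ?_)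
      (fun b hb => ?_) b
    · exact fin_of_zero _ _ _ _ fun x => LZ' hu hv hT hT' hSEC hSAT hSEQ hL a w i (by omega) b hb x
    · refine fin_of_ses a _ (fP τ τ' (0, w)) (gu 0, 0) (pr (u 0) 1) b (rLP' 0 w b)
        (W_pr (hu.mem 0) V_one)
        (hSEQ τ τ' hT hT' u v hu hv b 0 w).2.2.2 (i - 1) i (by omega) ?_ hb
      rcases (show 0 ≤ i - 1 by omega).lt_or_eq with h' | h'
      · exact fin_of_zero _ _ _ _ fun x => ptZ hu hv hL a 0 w (i - 1) (by omega) b x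
      · rw [← h']
        refine fin0 hSAT _ _ _ ?_
        show Module.Finite ℂ (⊤ : Submodule ℂ (Unit → ℂ))
        infer_instance
  · subst h
    exact fin0 hSAT _ _ _ (hu.fin _)

theorem liftR (hT : 0 < τ.im) (hT' : 0 < τ'.im) (hSEC : S_SEC) (hSAT : S_SAT) (hSEQ : S_SEQ)
    (hL : S_LOC.{w}) (a : Gam2) (z : ℂ) (i : ℤ) (hi : 0 ≤ i) (b : Gam2) (hb : 2 ≤ (a - b).1.1)
    (hb' : 1 ≤ (a - b).2.1) (y : Hc a (fL τ τ' z) b i) :
    ∃ y' : Hc a (fW τ τ') b i, y = y' ≫ (Sm (rWL z b))⟦i⟧' := by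
  rcases hi.lt_or_eq with h | h
  · rw [LZ hu hv hT hT' hSEC hSAT hSEQ hL a z i (by omega) b hb' y]
    exact ⟨0, zero_comp.symm⟩
  · subst h
    refine lift0 hSAT a (fW τ τ') (fL τ τ' z) b (rWL z b) ?_ y
    intro ψ hψ
    obtain ⟨g, hg, h0⟩ := (hSEC τ hT u hu).1 (a - b).1 z hb
    have hψ' : ψ ∈ V τ' (a - b).2 := hψ
    refine ⟨pr ((g z)⁻¹ • g) ψ, W_pr (Submodule.smul_mem _ _ hg) hψ', ?_⟩
    refine ObjectProperty.hom_ext _ ?_
    ext x y
    refine Subtype.ext (funext fun (t : ℂ) => ?_)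
    show y.1 (z, t) * ((g z)⁻¹ * g z * ψ t) = y.1 (z, t) * ψ t
    rw [inv_mul_cancel₀ h0, one_mul]

theorem liftR' (hT : 0 < τ.im) (hT' : 0 < τ'.im) (hSEC : S_SEC) (hSAT : S_SAT) (hSEQ : S_SEQ)
    (hL : S_LOC.{w}) (a : Gam2) (w : ℂ) (i : ℤ) (hi : 0 ≤ i) (b : Gam2) (hb : 2 ≤ (a - b).2.1)
    (hb' : 1 ≤ (a - b).1.1) (y : Hc a (fL' τ τ' w) b i) :
    ∃ y' : Hc a (fW τ τ') b i, y = y' ≫ (Sm (rWL' w b))⟦i⟧' := by
  rcases hi.lt_or_eq with h | h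
  · rw [LZ' hu hv hT hT' hSEC hSAT hSEQ hL a w i (by omega) b hb' y]
    exact ⟨0, zero_comp.symm⟩
  · subst h
    refine lift0 hSAT a (fW τ τ') (fL' τ τ' w) b (rWL' w b) ?_ y
    intro ψ hψ
    obtain ⟨g, hg, h0⟩ := (hSEC τ' hT' v hv).1 (a - b).2 w hb
    have hψ' : ψ ∈ V τ (a - b).1 := hψ
    refine ⟨pr ψ ((g w)⁻¹ • g), W_pr hψ' (Submodule.smul_mem _ _ hg), ?_⟩
    refine ObjectProperty.hom_ext _ ?_
    ext x y
    refine Subtype.ext (funext fun (t : ℂ) => ?_)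
    show y.1 (t, w) * (ψ t * ((g w)⁻¹ * g w)) = y.1 (t, w) * ψ t
    rw [inv_mul_cancel₀ h0, mul_one]

/-- line bundles -/
theorem RZ (hT : 0 < τ.im) (hT' : 0 < τ'.im) (hSEC : S_SEC) (hSAT : S_SAT) (hSEQ : S_SEQ)
    (hL : S_LOC.{w}) (a : Gam2) (i : ℤ) (hi : 1 ≤ i) (b : Gam2) (hb : 1 ≤ (a - b).1.1)
    (hb' : 1 ≤ (a - b).2.1) (x : Hc a (fW τ τ') b i) : x = 0 := by
  have e0 : ∀ (γ : Gam2) (b b' : Gam2), b - b' = γ → (a - b').1.1 = (a - b).1.1 + γ.1.1 := by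
    intro γ b b' hb
    rw [← hb]
    show a.1.1 - b'.1.1 = a.1.1 - b.1.1 + (b.1.1 - b'.1.1)
    ring
  have e1 : ∀ (γ : Gam2) (b b' : Gam2), b - b' = γ → (a - b').2.1 = (a - b).2.1 + γ.2.1 := by
    intro γ b b' hb
    rw [← hb]
    show a.2.1 - b'.2.1 = a.2.1 - b.2.1 + (b.2.1 - b'.2.1)
    ring
  have key : ∀ (γ : Gam2) (b b' : Gam2), b - b' = γ → 0 ≤ γ.1.1 → 0 ≤ γ.2.1 →
      (1 ≤ (a - b).1.1 ∧ 1 ≤ (a - b).2.1) → (1 ≤ (a - b').1.1 ∧ 1 ≤ (a - b').2.1) := by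
    intro γ b b' hb h1 h2 h3
    rw [e0 _ b b' hb, e1 _ b b' hb]
    exact ⟨by linarith [h3.1], by linarith [h3.2]⟩
  refine vanish hL hu hv a _ i hi (fun b => 1 ≤ (a - b).1.1 ∧ 1 ≤ (a - b).2.1) 0 0 ?_ ?_ ?_ b
    ⟨hb, hb'⟩ x
  · intro γ b b' hγ hb hp
    exact key _ b b' hb hγ le_rfl hp
  · intro γ g hg hg0 b b' hb hp
    have h0 : g ≠ 0 := fun e => hg0 (congrFun e 0)
    refine Inj.fst hu (fun b => 1 ≤ (a - b).1.1 ∧ 1 ≤ (a - b).2.1) ?_ ?_ γ.1.toNat γ g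
      (Int.toNat_of_nonneg (V_nonneg hu hg h0)).symm hg h0 b b' hb hp
    · intro z b b' hb hp
      exact key _ b b' hb (zero_le_one (α := ℤ)) le_rfl hp
    · intro z b b' hb hp
      have hp' := key _ b b' hb (zero_le_one (α := ℤ)) le_rfl hp
      refine inj_of_ses a _ (fL τ τ' z) (gu z, 0) _ b b' hb (rWL z b')
        (hSEQ τ τ' hT hT' u v hu hv b' z 0).1 (i - 1) i (by omega) fun y => ?_
      refine liftR hu hv hT hT' hSEC hSAT hSEQ hL a z (i - 1) (by omega) b' ?_ hp'.2 y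
      rw [e0 _ b b' hb]
      show 2 ≤ (a - b).1.1 + 1
      linarith [hp.1]
  · intro γ g hg hg0 b b' hb hp
    have h0 : g ≠ 0 := fun e => hg0 (congrFun e 0)
    refine Inj.snd hv (fun b => 1 ≤ (a - b).1.1 ∧ 1 ≤ (a - b).2.1) ?_ ?_ γ.1.toNat γ g
      (Int.toNat_of_nonneg (V_nonneg hv hg h0)).symm hg h0 b b' hb hp
    · intro z b b' hb hp
      exact key _ b b' hb le_rfl (zero_le_one (α := ℤ)) hp
    · intro z b b' hb hp
      have hp' := key _ b b' hb le_rfl (zero_le_one (α := ℤ)) hp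
      refine inj_of_ses a _ (fL' τ τ' z) (0, gu z) _ b b' hb (rWL' z b')
        (hSEQ τ τ' hT hT' u v hu hv b' 0 z).2.1 (i - 1) i (by omega) fun y => ?_
      refine liftR' hu hv hT hT' hSEC hSAT hSEQ hL a z (i - 1) (by omega) b' ?_ hp'.1 y
      rw [e1 _ b b' hb]
      show 2 ≤ (a - b).2.1 + 1
      linarith [hp.2]

theorem RF (hT : 0 < τ.im) (hT' : 0 < τ'.im) (hSEC : S_SEC) (hKUN : S_KUN) (hSAT : S_SAT)
    (hSEQ : S_SEQ) (hL : S_LOC.{w}) (a : Gam2) (i : ℤ) (hi : 0 ≤ i) (b : Gam2) :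
    Module.Finite ℂ (Hc a (fW τ τ') b i) := by
  rcases hi.lt_or_eq with h | h
  · have h1 : ∀ b : Gam2, 1 ≤ (a - b).2.1 → Module.Finite ℂ (Hc a (fW τ τ') b i) := by
      refine desc1 a (fun b => 1 ≤ (a - b).2.1 → Module.Finite ℂ (Hc a (fW τ τ') b i))
        (fun b hb hb' => ?_) (fun b hb hb' => ?_)
      · exact fin_of_zero _ _ _ _ fun x =>
          RZ hu hv hT hT' hSEC hSAT hSEQ hL a i (by omega) b hb hb' x
      · have e : (a - (b + (gu 0, 0))).2.1 = (a - b).2.1 := by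
          show a.2.1 - (b.2.1 + 0) = a.2.1 - b.2.1
          rw [add_zero]
        rw [e] at hb'
        exact fin_of_ses a _ (fL τ τ' 0) (gu 0, 0) (pr (u 0) 1) b (rWL 0 b)
          (W_pr (hu.mem 0) V_one)
          (hSEQ τ τ' hT hT' u v hu hv b 0 0).1 (i - 1) i (by omega)
          (LF hu hv hT hT' hSEC hSAT hSEQ hL a 0 (i - 1) (by omega) b) (hb hb')
    refine desc2 a (fun b => Module.Finite ℂ (Hc a (fW τ τ') b i)) h1 (fun b hb => ?_) b
    exact fin_of_ses a _ (fL' τ τ' 0) (0, gu 0) (pr 1 (v 0)) b (rWL' 0 b)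
      (W_pr V_one (hv.mem 0))
      (hSEQ τ τ' hT hT' u v hu hv b 0 0).2.1 (i - 1) i (by omega)
      (LF' hu hv hT hT' hSEC hSAT hSEQ hL a 0 (i - 1) (by omega) b) hb
  · subst h
    exact fin0 hSAT _ _ _ (hKUN τ τ' hT hT' u v hu hv (a - b)).1

end steps

end HF

/-- **HF** -/
theorem p_HF : S_TH → S_SEC → S_KUN → S_SAT → S_SEQ → S_LOC.{w} → S_HF.{w} := by
  intro hTH hSEC hKUN hSAT hSEQ hL τ τ' hT hT' _ a b i
  obtain ⟨u, hu⟩ := hTH τ hT
  obtain ⟨v, hv⟩ := hTH τ' hT'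
  by_cases hi : i < 0
  · exact HF.fin_of_zero a (fW τ τ') b i fun x => HF.neg a (fW τ τ') b i hi x
  · exact HF.RF hu hv hT hT' hSEC hKUN hSAT hSEQ hL a i (by omega) b

end Run7.h622
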