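import Pool.Agent.Run7.h354.BE.Stm2

/-!
# HF, the abstract part
-/

set_option autoImplicit false
set_option linter.unusedSectionVars false
set_option linter.unusedVariables false

open CategoryTheory CategoryTheory.Limits Pretriangulated Triangulated

namespace Run7.h622.HFa

universe w v u

section exact

variable {C : Type u} [Category.{v} C] [Preadditive C] [HasZeroObject C]
  [HasShift C ℤ] [∀ n : ℤ, (shiftFunctor C n).Additive] [Pretriangulated C]

theorem usmul_eq_zero {X Y : C} (e : ℤˣ) (f : X ⟶ Y) : e • f = 0 ↔ f = 0 := by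
  rcases Int.units_eq_one_or e with h | h
  · rw [h, one_smul]
  · rw [h, Units.neg_smul, one_smul, neg_eq_zero]

theorem usmul_comp {X Y Z : C} (e : ℤˣ) (f : X ⟶ Y) (g : Y ⟶ Z) : (e • f) ≫ g = e • (f ≫ g) :=
  Linear.units_smul_comp _ _ _

theorem comp_usmul {X Y Z : C} (e : ℤˣ) (f : X ⟶ Y) (g : Y ⟶ Z) : f ≫ (e • g) = e • (f ≫ g) :=
  Linear.comp_units_smul _ _ _

theorem map_usmul {X Y : C} (e : ℤˣ) (f : X ⟶ Y) (n : ℤ) : (e • f)⟦n⟧' = e • f⟦n⟧' :=
  Functor.map_units_smul _ _ _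

/-- the connecting map, shifted -/
theorem conn (T : Triangle C) (hT : T ∈ distTriang C) (n n' : ℤ) (h : n + 1 = n') :
    ∃ δ : T.obj₃⟦n⟧ ⟶ T.obj₁⟦n'⟧, T.mor₂⟦n⟧' ≫ δ = 0 ∧
      ∀ (A : C) (x : A ⟶ T.obj₁⟦n'⟧), x ≫ T.mor₁⟦n'⟧' = 0 → ∃ y : A ⟶ T.obj₃⟦n⟧, x = y ≫ δ := by
  subst h
  have hT' := Triangle.shift_distinguished T hT n
  let T' := (Triangle.shiftFunctor C n).obj T
  let m₃ : T.obj₃⟦n⟧ ⟶ T.obj₁⟦n⟧⟦(1 : ℤ)⟧ := T'.mor₃
  refine ⟨m₃ ≫ (shiftFunctorAdd C n 1).inv.app _, ?_, fun A x hx => ?_⟩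
  · have h1 : (n.negOnePow • T.mor₂⟦n⟧') ≫ m₃ = 0 := comp_distTriang_mor_zero₂₃ _ hT'
    rw [usmul_comp, usmul_eq_zero] at h1
    rw [reassoc_of% h1, zero_comp]
  · have e : x ≫ (shiftFunctorAdd C n 1).hom.app _ ≫ (T.mor₁⟦n⟧')⟦(1 : ℤ)⟧' = 0 := by
      have := (shiftFunctorAdd C n 1).hom.naturality T.mor₁
      dsimp at this
      rw [← this, reassoc_of% hx, zero_comp]
    have e' : (x ≫ (shiftFunctorAdd C n 1).hom.app _) ≫
        (n.negOnePow • T.mor₁⟦n⟧')⟦(1 : ℤ)⟧' = 0 := by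
      rw [map_usmul, comp_usmul, Category.assoc, e, smul_zero]
    obtain ⟨(y : A ⟶ T.obj₃⟦n⟧), hy⟩ :=
      Triangle.coyoneda_exact₁ T' hT' (x ≫ (shiftFunctorAdd C n 1).hom.app _) e'
    have hy' : x ≫ (shiftFunctorAdd C n 1).hom.app _ = y ≫ m₃ := hy
    refine ⟨y, ?_⟩
    rw [← Category.assoc, ← hy', Category.assoc, Iso.hom_inv_id_app]
    exact (Category.comp_id x).symm

end exact

section nat

variable {A : Type u} [Category.{v} A] [Abelian A] [HasDerivedCategory.{w} A]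
  (F : A ⥤ A) [F.Additive] [PreservesFiniteLimits F] [PreservesFiniteColimits F] (μ : 𝟭 A ⟶ F)

open DerivedCategory

/-- on complexes -/
noncomputable def μc (K : CochainComplex A ℤ) :
    K ⟶ (F.mapHomologicalComplex (ComplexShape.up ℤ)).obj K where
  f i := μ.app (K.X i)
  comm' := fun i j _ => (μ.naturality _).symm

theorem μc_nat {K L : CochainComplex A ℤ} (f : K ⟶ L) :
    f ≫ μc F μ L = μc F μ K ≫ (F.mapHomologicalComplex (ComplexShape.up ℤ)).map f := by
  ext i
  exact μ.naturality _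

noncomputable instance : Localization.Lifting Q (HomologicalComplex.quasiIso A (.up ℤ))
    (𝟭 (CochainComplex A ℤ) ⋙ Q) (𝟭 (DerivedCategory A)) :=
  ⟨NatIso.ofComponents (fun X => Iso.refl _)⟩

/-- on the derived category -/
noncomputable def ν : 𝟭 (DerivedCategory A) ⟶ F.mapDerivedCategory :=
  Localization.liftNatTrans Q (HomologicalComplex.quasiIso A (.up ℤ))
    (𝟭 (CochainComplex A ℤ) ⋙ Q) (F.mapHomologicalComplex _ ⋙ Q) _ _
    { app := fun K => Q.map (μc F μ K)
      naturality := fun K L f => by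
        show Q.map f ≫ Q.map (μc F μ L) = Q.map (μc F μ K) ≫ Q.map _
        rw [← Q.map_comp, μc_nat, Q.map_comp] }

/-- comparison -/
noncomputable def fc (K : CochainComplex A ℤ) : F.mapDerivedCategory.obj (Q.obj K) ≅
    Q.obj ((F.mapHomologicalComplex (ComplexShape.up ℤ)).obj K) :=
  F.mapDerivedCategoryFactors.app K

theorem fc_nat {K L : CochainComplex A ℤ} (f : K ⟶ L) :
    F.mapDerivedCategory.map (Q.map f) ≫ (fc F L).hom = (fc F K).hom ≫
      Q.map ((F.mapHomologicalComplex (ComplexShape.up ℤ)).map f) :=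
  F.mapDerivedCategoryFactors_hom_naturality f

theorem ν_app (K : CochainComplex A ℤ) :
    (ν F μ).app (Q.obj K) = Q.map (μc F μ K) ≫ (fc F K).inv := by
  have e : (ν F μ).app (Q.obj K) = 𝟙 (Q.obj K) ≫ Q.map (μc F μ K) ≫ (fc F K).inv :=
    Localization.liftNatTrans_app Q _ _ _ _ _ _ _
  rw [e]
  exact Category.id_comp _

/-- the commutation with the action, on complexes -/
theorem act {K₀ K₁ L : CochainComplex A ℤ} (k : K₁ ⟶ K₀)
    (e : K₀ ⟶ (F.mapHomologicalComplex (ComplexShape.up ℤ)).obj K₁)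
    (he : e ≫ (F.mapHomologicalComplex (ComplexShape.up ℤ)).map k = μc F μ K₀)
    (x : Q.obj K₀ ⟶ Q.obj L) (hx : Q.map k ≫ x = 0) : x ≫ Q.map (μc F μ L) = 0 := by
  have h1 : x ≫ (ν F μ).app (Q.obj L) = (ν F μ).app (Q.obj K₀) ≫ F.mapDerivedCategory.map x :=
    (ν F μ).naturality x
  have h2 : (ν F μ).app (Q.obj K₀) = Q.map e ≫ (fc F K₁).inv ≫
      F.mapDerivedCategory.map (Q.map k) := by
    rw [ν_app, ← he, Q.map_comp, Category.assoc]
    congr 1
    rw [Iso.eq_inv_comp, ← Category.assoc, Iso.comp_inv_eq]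
    exact (fc_nat F k).symm
  rw [h2, Category.assoc, Category.assoc, ← F.mapDerivedCategory.map_comp, hx,
    F.mapDerivedCategory.map_zero, comp_zero, comp_zero, ν_app, ← Category.assoc] at h1
  rw [← cancel_mono (fc F L).inv, h1, zero_comp]

/-- the comparison for single complexes -/
noncomputable def sc (M : A) : (F.mapHomologicalComplex (ComplexShape.up ℤ)).obj
      ((HomologicalComplex.single A (.up ℤ) 0).obj M) ≅
    (HomologicalComplex.single A (.up ℤ) 0).obj (F.obj M) :=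
  (HomologicalComplex.singleMapHomologicalComplex F (.up ℤ) 0).app M

theorem μc_single (M : A) : μc F μ ((HomologicalComplex.single A (.up ℤ) 0).obj M) ≫ (sc F M).hom =
    (HomologicalComplex.single A (.up ℤ) 0).map (μ.app M) := by
  refine HomologicalComplex.to_single_hom_ext ?_
  rw [HomologicalComplex.single_map_f_self]
  show μ.app _ ≫ ((HomologicalComplex.singleMapHomologicalComplex F (.up ℤ) 0).hom.app M).f 0 = _
  rw [HomologicalComplex.singleMapHomologicalComplex_hom_app_self, ← Category.assoc,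
    ← Category.assoc]
  congr 1
  exact (μ.naturality _).symm

theorem sc_nat {M N : A} (f : M ⟶ N) : (F.mapHomologicalComplex (ComplexShape.up ℤ)).map
      ((HomologicalComplex.single A (.up ℤ) 0).map f) ≫ (sc F N).hom = (sc F M).hom ≫
    (HomologicalComplex.single A (.up ℤ) 0).map (F.map f) :=
  (HomologicalComplex.singleMapHomologicalComplex F (.up ℤ) 0).hom.naturality f

/-- the comparison of shifts -/
noncomputable def shc (L : CochainComplex A ℤ) (i : ℤ) :
    (F.mapHomologicalComplex (ComplexShape.up ℤ)).obj (L⟦i⟧) ⟶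
      ((F.mapHomologicalComplex (ComplexShape.up ℤ)).obj L)⟦i⟧ :=
  ((F.mapHomologicalComplex (ComplexShape.up ℤ)).commShiftIso i).hom.app L

theorem μc_shift (L : CochainComplex A ℤ) (i : ℤ) :
    μc F μ (L⟦i⟧) ≫ shc F L i = (μc F μ L)⟦i⟧' := by
  ext n
  show μ.app _ ≫ (((F.mapHomologicalComplex (ComplexShape.up ℤ)).commShiftIso i).hom.app L).f n = _
  rw [Functor.mapHomologicalComplex_commShiftIso_hom_app_f]
  exact Category.comp_id _

/-- the comparison of shifts -/
noncomputable def κ (L : CochainComplex A ℤ) (i : ℤ) : Q.obj (L⟦i⟧) ≅ (Q.obj L)⟦i⟧ :=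
  (Q.commShiftIso i).app L

theorem κ_nat {L L' : CochainComplex A ℤ} (f : L ⟶ L') (i : ℤ) :
    Q.map (f⟦i⟧') ≫ (κ L' i).hom = (κ L i).hom ≫ (Q.map f)⟦i⟧' :=
  (Q.commShiftIso i).hom.naturality f

/-- the commutation with the action, on shifted complexes -/
theorem act_shift {K₀ K₁ L : CochainComplex A ℤ} (k : K₁ ⟶ K₀)
    (e : K₀ ⟶ (F.mapHomologicalComplex (ComplexShape.up ℤ)).obj K₁)
    (he : e ≫ (F.mapHomologicalComplex (ComplexShape.up ℤ)).map k = μc F μ K₀) (i : ℤ)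
    (x : Q.obj K₀ ⟶ (Q.obj L)⟦i⟧) (hx : Q.map k ≫ x = 0) : x ≫ (Q.map (μc F μ L))⟦i⟧' = 0 := by
  have h := act F μ k e he (x ≫ (κ L i).inv) (by rw [reassoc_of% hx, zero_comp])
  have h2 := congrArg (fun t => t ≫ Q.map (shc F L i)) h
  simp only [zero_comp, Category.assoc, ← Q.map_comp, μc_shift] at h2
  have h3 : (κ L i).inv ≫ Q.map ((μc F μ L)⟦i⟧') = (Q.map (μc F μ L))⟦i⟧' ≫ (κ _ i).inv := by
    rw [Iso.inv_comp_eq, ← Category.assoc, Iso.eq_comp_inv, κ_nat]
  rw [h3, ← Category.assoc] at h2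
  rw [← cancel_mono (κ _ i).inv, h2, zero_comp]

/-- A map killed by the action of a function on the source is killed by the action on the
target. -/
theorem act_single {M₀ M₁ N N' : A} (m : M₁ ⟶ M₀) (e : M₀ ⟶ F.obj M₁)
    (he : e ≫ F.map m = μ.app M₀) (m' : N ⟶ N') (e' : F.obj N ⟶ N')
    (he' : μ.app N ≫ e' = m') (i : ℤ)
    (x : (singleFunctor A 0).obj M₀ ⟶ ((singleFunctor A 0).obj N)⟦i⟧)
    (hx : (singleFunctor A 0).map m ≫ x = 0) : x ≫ ((singleFunctor A 0).map m')⟦i⟧' = 0 := by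
  have h := act_shift F μ (L := (HomologicalComplex.single A (.up ℤ) 0).obj N)
    ((HomologicalComplex.single A (.up ℤ) 0).map m)
    ((HomologicalComplex.single A (.up ℤ) 0).map e ≫ (sc F M₁).inv) (by
      rw [Category.assoc, ← cancel_mono (sc F M₀).hom, Category.assoc, Category.assoc, sc_nat,
        Iso.inv_hom_id_assoc, ← Functor.map_comp, he, μc_single]) i x hx
  have h1 : (singleFunctor A 0).map m' = Q.map (μc F μ
      ((HomologicalComplex.single A (.up ℤ) 0).obj N)) ≫ Q.map ((sc F N).hom ≫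
        (HomologicalComplex.single A (.up ℤ) 0).map e') := by
    rw [← Q.map_comp, ← Category.assoc, μc_single, ← Functor.map_comp, he']
    rfl
  have h4 : ((singleFunctor A 0).map m')⟦i⟧' = (Q.map (μc F μ
      ((HomologicalComplex.single A (.up ℤ) 0).obj N)))⟦i⟧' ≫ (Q.map ((sc F N).hom ≫
        (HomologicalComplex.single A (.up ℤ) 0).map e'))⟦i⟧' :=
    (congrArg (fun t => (shiftFunctor (DerivedCategory A) i).map t) h1).trans
      (Functor.map_comp _ _ _)
  exact (congrArg (fun t => x ≫ t) h4).trans ((Category.assoc _ _ _).symm.trans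
    ((congrArg (fun t => t ≫ _) h).trans zero_comp))

end nat

section ses

variable {A : Type u} [Category.{v} A] [Abelian A] [HasDerivedCategory.{w} A]

open DerivedCategory

/-- the connecting map of a short exact sequence -/
theorem conn_ses {S : ShortComplex A} (hS : S.ShortExact) (n n' : ℤ) (h : n + 1 = n') :
    ∃ δ : ((singleFunctor A 0).obj S.X₃)⟦n⟧ ⟶ ((singleFunctor A 0).obj S.X₁)⟦n'⟧,
      ((singleFunctor A 0).map S.g)⟦n⟧' ≫ δ = 0 ∧
      ∀ (B : DerivedCategory A) (x : B ⟶ ((singleFunctor A 0).obj S.X₁)⟦n'⟧),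
        x ≫ ((singleFunctor A 0).map S.f)⟦n'⟧' = 0 →
        ∃ y : B ⟶ ((singleFunctor A 0).obj S.X₃)⟦n⟧, x = y ≫ δ :=
  conn hS.singleTriangle hS.singleTriangle_distinguished n n' h

variable [Linear ℂ A]

theorem fin_ses {S : ShortComplex A} (hS : S.ShortExact) (n n' : ℤ) (h : n + 1 = n')
    (B : DerivedCategory A) (h3 : Module.Finite ℂ (B ⟶ ((singleFunctor A 0).obj S.X₃)⟦n⟧))
    (h2 : Module.Finite ℂ (B ⟶ ((singleFunctor A 0).obj S.X₂)⟦n'⟧)) :
    Module.Finite ℂ (B ⟶ ((singleFunctor A 0).obj S.X₁)⟦n'⟧) := by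
  obtain ⟨δ, _, h1⟩ := conn_ses hS n n' h
  let f := Linear.rightComp ℂ B δ
  let g := Linear.rightComp ℂ B (((singleFunctor A 0).map S.f)⟦n'⟧')
  have e : LinearMap.ker g ≤ LinearMap.range f := by
    intro x hx
    obtain ⟨y, hy⟩ := h1 B x hx
    exact ⟨y, hy.symm⟩
  have a1 : Module.Finite ℂ (LinearMap.range f) := inferInstance
  have a2 : Module.Finite ℂ (LinearMap.ker g) := Submodule.finiteDimensional_of_le e
  have a3 : Module.Finite ℂ (LinearMap.range g) := inferInstance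
  have a4 : Module.Finite ℂ ((B ⟶ ((singleFunctor A 0).obj S.X₁)⟦n'⟧) ⧸ LinearMap.ker g) :=
    Module.Finite.equiv g.quotKerEquivRange.symm
  exact Module.Finite.of_submodule_quotient (LinearMap.ker g)

end ses

end Run7.h622.HFa
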