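import Pool.Agent.Run7.h622.BE_HFa

/-!
# HF, the twists of graded modules and of sheaves
-/

set_option autoImplicit false
set_option linter.unusedSectionVars false
set_option linter.unusedVariables false

open CategoryTheory CategoryTheory.Limits Pretriangulated Triangulated
open Run7.h354.BE

namespace Run7.h622.HFb

universe w v u

variable {τ τ' : ℂ}

/-- translation of degrees -/
noncomputable def tc (c : Gam2) : Ob τ τ' false ⥤ Ob τ τ' false where
  obj a := ⟨a.deg + c⟩
  map {a b} φ := mul (φ : Mor a b).f (by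
    show _ ∈ W τ τ' (b.deg + c - (a.deg + c))
    rw [add_sub_add_right_eq_sub]
    exact f_mem φ)
  map_id _ := rfl
  map_comp {a b d} φ ψ := by
    refine Mor.ext rfl ?_
    show (φ ≫ ψ : Mor a d).f = (ψ : Mor b d).f * (φ : Mor a b).f
    exact comp_f' φ ψ

/-- The twist of a graded module. -/
noncomputable def tw (c : Gam2) : GM τ τ' false ⥤ GM τ τ' false :=
  ObjectProperty.lift _ ((lin τ τ' false).ι ⋙ (Functor.whiskeringLeft _ _ _).obj (tc c)) (by
    intro M a b e he r f g hf hg
    cases e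
    · have h : ∀ f : ℂ × ℂ → ℂ, f ∈ W τ τ' (b.deg - a.deg) →
          f ∈ W τ τ' (((tc c).obj b).deg - ((tc c).obj a).deg) := by
        intro f hf
        show _ ∈ W τ τ' (b.deg + c - (a.deg + c))
        rwa [add_sub_add_right_eq_sub]
      exact M.property ((tc c).obj a) ((tc c).obj b) false he r f g (h f hf) (h g hg)
    · exact absurd (he rfl) (by decide))

/-- the multiplication by `f` as a natural morphism -/
noncomputable def mf {c : Gam2} (f : ℂ × ℂ → ℂ) (hf : f ∈ W τ τ' c) (x : Ob τ τ' false) :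
    x ⟶ (tc c).obj x :=
  mul f (by
    show _ ∈ W τ τ' (x.deg + c - x.deg)
    rwa [add_sub_cancel_left])

theorem mf_nat {c : Gam2} (f : ℂ × ℂ → ℂ) (hf : f ∈ W τ τ' c) {x y : Ob τ τ' false} (φ : x ⟶ y) :
    φ ≫ mf f hf y = mf f hf x ≫ (tc c).map φ := by
  refine Mor.ext ?_ ?_
  · show xor false (φ : Mor x y).e = xor false false
    rw [e_false φ]
  · funext p
    show f p * (φ : Mor x y).f p = (φ : Mor x y).f p * f p
    rw [mul_comm]

/-- the action of `f` on graded modules -/
noncomputable def μm {c : Gam2} (f : ℂ × ℂ → ℂ) (hf : f ∈ W τ τ' c) : 𝟭 (GM τ τ' false) ⟶ tw c where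
  app M := (lin τ τ' false).homMk
    { app := fun x => M.obj.map (mf f hf x)
      naturality := fun x y φ => by
        show M.obj.map φ ≫ _ = _ ≫ M.obj.map ((tc c).map φ)
        rw [← M.obj.map_comp, ← M.obj.map_comp, mf_nat] }
  naturality {M N} g := by
    refine ObjectProperty.hom_ext _ ?_
    ext x y
    exact (nat_apply g.hom (mf f hf x) y).symm

theorem exact_tw (c : Gam2) : PreservesFiniteLimits (tw (τ := τ) (τ' := τ') c) ∧
    PreservesFiniteColimits (tw (τ := τ) (τ' := τ') c) := by
  have : (tw (τ := τ) (τ' := τ') c).Additive := ⟨by intro X Y f g; exact ObjectProperty.hom_ext _ rfl⟩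
  refine ((Functor.exact_tfae (tw c)).out 1 3).1 fun S hS => ?_
  rw [gm_exact_iff] at hS ⊢
  exact fun m x hx => hS ((tc c).obj m) x hx

instance (c : Gam2) : (tw (τ := τ) (τ' := τ') c).Additive :=
  ⟨by intro X Y f g; exact ObjectProperty.hom_ext _ rfl⟩
instance (c : Gam2) : PreservesFiniteLimits (tw (τ := τ) (τ' := τ') c) := (exact_tw c).1
instance (c : Gam2) : PreservesFiniteColimits (tw (τ := τ) (τ' := τ') c) := (exact_tw c).2

theorem tors_tw (c : Gam2) {M : GM τ τ' false} (hM : tors τ τ' false M) :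
    tors τ τ' false ((tw c).obj M) := by
  rw [tors_iff] at hM ⊢
  intro a x z w
  obtain ⟨γ', δ', g, h, hg, hh, h1, h2, h3⟩ := hM ((tc c).obj a) x z w
  refine ⟨γ', δ', g, h, hg, hh, h1, h2, ?_⟩
  have e : (tc c).map (mulP a hg hh) = mulP ((tc c).obj a) hg hh ≫
      mul (b := (tc c).obj ⟨a.deg + (γ', δ')⟩)
      (a := ⟨((tc c).obj a).deg + (γ', δ')⟩) 1 (by
        show 1 ∈ W τ τ' (a.deg + (γ', δ') + c - (a.deg + c + (γ', δ')))
        rw [show a.deg + (γ', δ') + c - (a.deg + c + (γ', δ')) = 0 by abel]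
        exact W_one) := by
    refine Mor.ext rfl ?_
    funext p
    show pr g h p = 1 * pr g h p
    rw [one_mul]
  show M.obj.map ((tc c).map (mulP a hg hh)) x = 0
  rw [e, M.obj.map_comp]
  show M.obj.map _ (M.obj.map _ x) = 0
  rw [h3, map_zero]

theorem inverts_tw (c : Gam2) :
    (tors τ τ' false).isoModSerre.IsInvertedBy (tw c ⋙ sh τ τ' false) := by
  have : PreservesFiniteLimits (tw c ⋙ sh τ τ' false) := comp_preservesFiniteLimits _ _
  have : PreservesFiniteColimits (tw c ⋙ sh τ τ' false) := comp_preservesFiniteColimits _ _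
  rw [ObjectProperty.isoModSerre_isInvertedBy_iff]
  intro M hM
  exact isZero_sh.2 (tors_tw c hM)

/-- The twist of a quasi-coherent sheaf. -/
noncomputable def twQ (c : Gam2) : QC τ τ' false ⥤ QC τ τ' false :=
  Localization.lift (tw c ⋙ sh τ τ' false) (inverts_tw c) (sh τ τ' false)

noncomputable instance (c : Gam2) : Localization.Lifting (sh τ τ' false)
    (tors τ τ' false).isoModSerre (tw c ⋙ sh τ τ' false) (twQ c) := ⟨Localization.fac _ _ _⟩

instance (c : Gam2) : PreservesFiniteLimits (twQ (τ := τ) (τ' := τ') c) := by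
  rw [← ObjectProperty.SerreClassLocalization.preservesFiniteLimits_comp_iff
    (sh τ τ' false) (tors τ τ' false)]
  have : PreservesFiniteLimits (tw c ⋙ sh τ τ' false) := comp_preservesFiniteLimits _ _
  exact preservesFiniteLimits_of_natIso (Localization.fac (tw c ⋙ sh τ τ' false) (inverts_tw c)
    (sh τ τ' false)).symm

instance (c : Gam2) : PreservesFiniteColimits (twQ (τ := τ) (τ' := τ') c) := by
  rw [← ObjectProperty.SerreClassLocalization.preservesFiniteColimits_comp_iff
    (sh τ τ' false) (tors τ τ' false)]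
  have : PreservesFiniteColimits (tw c ⋙ sh τ τ' false) := comp_preservesFiniteColimits _ _
  exact preservesFiniteColimits_of_natIso (Localization.fac (tw c ⋙ sh τ τ' false) (inverts_tw c)
    (sh τ τ' false)).symm

instance (c : Gam2) : (twQ (τ := τ) (τ' := τ') c).Additive :=
  (Localization.functor_additive_iff (sh τ τ' false) (tors τ τ' false).isoModSerre (twQ c)).2
    (Functor.additive_of_iso (Localization.fac (tw c ⋙ sh τ τ' false) (inverts_tw c)
    (sh τ τ' false)).symm)

/-- comparison -/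
noncomputable def tq (c : Gam2) (M : GM τ τ' false) : (twQ c).obj ((sh τ τ' false).obj M) ≅
    (sh τ τ' false).obj ((tw c).obj M) :=
  (Localization.fac (tw c ⋙ sh τ τ' false) (inverts_tw c) (sh τ τ' false)).app M

theorem tq_nat (c : Gam2) {M N : GM τ τ' false} (f : M ⟶ N) :
    (twQ c).map ((sh τ τ' false).map f) ≫ (tq c N).hom =
      (tq c M).hom ≫ (sh τ τ' false).map ((tw c).map f) :=
  (Localization.fac (tw c ⋙ sh τ τ' false) (inverts_tw c) (sh τ τ' false)).hom.naturality f

noncomputable instance : Localization.Lifting (sh τ τ' false) (tors τ τ' false).isoModSerre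
    (𝟭 (GM τ τ' false) ⋙ sh τ τ' false) (𝟭 (QC τ τ' false)) :=
  ⟨NatIso.ofComponents (fun X => Iso.refl _)⟩

/-- the action of `f` on sheaves -/
noncomputable def μq {c : Gam2} (f : ℂ × ℂ → ℂ) (hf : f ∈ W τ τ' c) : 𝟭 (QC τ τ' false) ⟶ twQ c :=
  Localization.liftNatTrans (sh τ τ' false) (tors τ τ' false).isoModSerre
    (𝟭 (GM τ τ' false) ⋙ sh τ τ' false) (tw c ⋙ sh τ τ' false) _ _
    (Functor.whiskerRight (μm f hf) (sh τ τ' false))

theorem μq_app {c : Gam2} (f : ℂ × ℂ → ℂ) (hf : f ∈ W τ τ' c) (M : GM τ τ' false) :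
    (μq f hf).app ((sh τ τ' false).obj M) = (sh τ τ' false).map ((μm f hf).app M) ≫
      (tq c M).inv := by
  have e : (μq f hf).app ((sh τ τ' false).obj M) = 𝟙 ((sh τ τ' false).obj M) ≫
      (sh τ τ' false).map ((μm f hf).app M) ≫ (tq c M).inv :=
    Localization.liftNatTrans_app (sh τ τ' false) (tors τ τ' false).isoModSerre
      (𝟭 (GM τ τ' false) ⋙ sh τ τ' false) (tw c ⋙ sh τ τ' false) _ _ _ M
  rw [e]
  exact Category.id_comp _

/-- the twist of a module of functions -/
noncomputable def ei (X : FM τ τ') {c a a' : Gam2} (h : a' - a = c) : fm X a ⟶ (tw c).obj (fm X a') :=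
  (lin τ τ' false).homMk
  { app := fun x => ModuleCat.ofHom
      { toFun := fun ψ => ⟨ψ.1, by
          have h1 := ψ.2
          have h2 : x.deg + c - a' = x.deg - a := by rw [← h]; abel
          show ψ.1 ∈ X.U (x.deg + c - a')
          rw [h2]
          exact h1⟩
        map_add' := fun f g => rfl
        map_smul' := fun c f => rfl }
    naturality := fun x y φ => by
      refine ModuleCat.hom_ext (LinearMap.ext fun ψ => Subtype.ext (funext fun t => ?_))
      rfl }

/-- the twist of a module of functions -/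
noncomputable def ej (X : FM τ τ') {c b b' : Gam2} (h : b - b' = c) : (tw c).obj (fm X b) ⟶ fm X b' :=
  (lin τ τ' false).homMk
  { app := fun x => ModuleCat.ofHom
      { toFun := fun (ψ : X.U (x.deg + c - b)) => ⟨ψ.1, by
          have h1 := ψ.2
          have h2 : x.deg + c - b = x.deg - b' := by rw [← h]; abel
          exact (congrArg (fun d => (ψ.1 : X.T → ℂ) ∈ X.U d) h2).mp h1⟩
        map_add' := fun f g => rfl
        map_smul' := fun c f => rfl }
    naturality := fun x y φ => by
      refine ModuleCat.hom_ext (LinearMap.ext fun ψ => Subtype.ext (funext fun t => ?_))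
      rfl }

theorem ei_comp (X : FM τ τ') {c a a' : Gam2} (h : a' - a = c) (f : ℂ × ℂ → ℂ) (hf : f ∈ W τ τ' c)
    (hf' : f ∈ W τ τ' (a' - a)) : ei X h ≫ (tw c).map (fmm X f hf') = (μm f hf).app (fm X a) := by
  refine ObjectProperty.hom_ext _ ?_
  ext x y
  rfl

theorem ej_comp (X : FM τ τ') {c b b' : Gam2} (h : b - b' = c) (f : ℂ × ℂ → ℂ) (hf : f ∈ W τ τ' c)
    (hf' : f ∈ W τ τ' (b - b')) : (μm f hf).app (fm X b) ≫ ej X h = fmm X f hf' := by
  refine ObjectProperty.hom_ext _ ?_
  ext x y
  rfl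

/-- the object of the derived category -/
noncomputable abbrev SS [HasDerivedCategory.{w} (QC τ τ' false)] (M : GM τ τ' false) :
    DerivedCategory (QC τ τ' false) :=
  (DerivedCategory.singleFunctor _ 0).obj ((sh τ τ' false).obj M)

/-- the morphism of the derived category -/
noncomputable abbrev Sm [HasDerivedCategory.{w} (QC τ τ' false)] {M N : GM τ τ' false}
    (f : M ⟶ N) : SS M ⟶ SS N :=
  (DerivedCategory.singleFunctor _ 0).map ((sh τ τ' false).map f)

/-- A class killed by `f` on the source is killed by `f` on the target. -/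
theorem act_fm [HasDerivedCategory.{w} (QC τ τ' false)] (X : FM τ τ') {a a' b b' : Gam2}
    (h : a' - a = b - b') (f : ℂ × ℂ → ℂ) (hf : f ∈ W τ τ' (a' - a)) (hf' : f ∈ W τ τ' (b - b'))
    (i : ℤ) (x : SS (fm (fW τ τ') a) ⟶ (SS (fm X b))⟦i⟧) (hx : Sm (fmm (fW τ τ') f hf) ≫ x = 0) :
    x ≫ (Sm (fmm X f hf'))⟦i⟧' = 0 := by
  refine HFa.act_single (twQ (a' - a)) (μq f hf) ((sh τ τ' false).map (fmm (fW τ τ') f hf))
    ((sh τ τ' false).map (ei (fW τ τ') rfl) ≫ (tq (a' - a) (fm (fW τ τ') a')).inv) ?_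
    ((sh τ τ' false).map (fmm X f hf')) ((tq (a' - a) (fm X b)).hom ≫
      (sh τ τ' false).map (ej X h.symm)) ?_ i x hx
  · rw [μq_app, ← ei_comp (fW τ τ') rfl f hf hf, Functor.map_comp, Category.assoc, Category.assoc]
    congr 1
    rw [Iso.inv_comp_eq, ← Category.assoc, Iso.eq_comp_inv, tq_nat]
  · rw [μq_app, Category.assoc, Iso.inv_hom_id_assoc, ← Functor.map_comp, ej_comp X h.symm f hf hf']

end Run7.h622.HFb
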