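import Pool.Agent.Run7.h354.BE.Stm

/-!
# Invariance of stability conditions under the twists of degree zero: theta functions
-/

set_option autoImplicit false
set_option linter.unusedSectionVars false
set_option linter.unusedVariables false

open CategoryTheory CategoryTheory.Limits Pretriangulated Triangulated Complex ZeroObject
open Pool.Agent.Helper445_GMF
open Run7.h354.BE

namespace Run7.h622.BE

theorem gu_fst (a : ℂ) : (gu a).1 = 1 := rfl

theorem gu_c (a : ℂ) : (gu a).c = -exp (2 * Real.pi * I * a) := by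
  show ((Additive.toMul (gu a).2 : ℂˣ) : ℂ) = _
  simp [gu]

theorem g0_fst (c : ℂˣ) : (g0 c).1 = 0 := rfl

theorem g0_c (c : ℂˣ) : (g0 c).c = c := rfl

theorem gu_add {a b c d : ℂ} (h : a + b = c + d) : gu a + gu b = gu c + gu d := by
  refine Gam.ext' rfl ?_
  rw [Gam.c_add, Gam.c_add, gu_c, gu_c, gu_c, gu_c, neg_mul_neg, neg_mul_neg, ← exp_add, ← exp_add,
    ← mul_add, ← mul_add, h]

theorem gu_sub (a b : ℂ) (c : ℂˣ) (h : (c : ℂ) = exp (2 * Real.pi * I * (a - b))) :
    gu a - gu b = g0 c := by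
  refine Gam.ext' rfl ?_
  rw [Gam.c_sub, gu_c, gu_c, g0_c, h, neg_div_neg_eq, ← exp_sub, ← mul_sub]

theorem g0_add (c d : ℂˣ) : g0 c + g0 d = g0 (c * d) := by
  refine Gam.ext' rfl ?_
  rw [Gam.c_add, g0_c, g0_c, g0_c, Units.val_mul]

theorem g0_one : g0 1 = 0 := by
  refine Gam.ext' rfl ?_
  rw [g0_c, Gam.c_zero, Units.val_one]

section cg

variable {τ : ℂ} (hτ : 0 < τ.im)

theorem Cg_refl (a : ℂ) : Cg τ a a := ⟨0, 0, by simp⟩

theorem Cg_symm {a b : ℂ} (h : Cg τ a b) : Cg τ b a := by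
  obtain ⟨m, n, h⟩ := h
  exact ⟨-m, -n, by push_cast; linear_combination -h⟩

theorem Cg_trans {a b c : ℂ} (h : Cg τ a b) (h' : Cg τ b c) : Cg τ a c := by
  obtain ⟨m, n, h⟩ := h
  obtain ⟨m', n', h'⟩ := h'
  exact ⟨m + m', n + n', by push_cast; linear_combination h + h'⟩

theorem Cg_count (a : ℂ) : {z | Cg τ z a}.Countable := by
  have : {z | Cg τ z a} = Set.range fun p : ℤ × ℤ => a + p.1 + p.2 * τ := by
    ext z
    constructor
    · rintro ⟨m, n, h⟩
      exact ⟨(m, n), by simp only; linear_combination -h⟩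
    · rintro ⟨⟨m, n⟩, rfl⟩
      exact ⟨m, n, by ring⟩
  rw [this]
  exact Set.countable_range _

include hτ in
/-- a real number which is a period is an integer -/
theorem Cg_real {a b : ℂ} (h : Cg τ a b) {r : ℝ} (e : a - b = r) : ∃ m : ℤ, r = m := by
  obtain ⟨m, n, h⟩ := h
  rw [h] at e
  have h1 := congrArg Complex.im e
  simp only [add_im, intCast_im, mul_im, intCast_re, zero_mul, add_zero, zero_add, ofReal_im] at h1
  have hn : (n : ℝ) = 0 := by
    rcases mul_eq_zero.1 h1 with h1 | h1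
    · exact h1
    · exact absurd h1 hτ.ne'
  have h2 := congrArg Complex.re e
  simp only [add_re, intCast_re, mul_re, intCast_im, hn, zero_mul, sub_zero, add_zero,
    ofReal_re] at h2
  exact ⟨m, h2.symm⟩

include hτ in
theorem not_Cg_half (a b : ℂ) (k : ℤ) (h : a - b = k / 4) (hk : ¬ (4 : ℤ) ∣ k) : ¬ Cg τ a b := by
  intro hc
  obtain ⟨m, hm⟩ := Cg_real hτ hc (r := (k : ℝ) / 4) (by rw [h]; push_cast; rfl)
  apply hk
  refine ⟨m, ?_⟩
  have : (k : ℝ) = 4 * m := by linarith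
  exact_mod_cast this

end cg

section th

variable {τ : ℂ} (hτ : 0 < τ.im) {u : ℂ → ℂ → ℂ} (hu : TH τ u)

include hu in
theorem u_ne {a z : ℂ} (h : ¬ Cg τ z a) : u a z ≠ 0 := fun h' => h ((hu.zero a z).1 h')

include hu in
theorem u_self (a : ℂ) : u a a = 0 := (hu.zero a a).2 (Cg_refl a)

include hu in
theorem u_fun_ne (a : ℂ) : u a ≠ 0 := by
  intro h
  have h1 : ∀ z, Cg τ z a := fun z => (hu.zero a z).1 (congrFun h z)
  have h2 : (Set.univ : Set ℂ).Countable := by
    refine (Cg_count (τ := τ) a).mono fun z _ => h1 z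
  exact _root_.not_countable_complex h2

include hτ hu in
/-- the theta functions of degree one -/
theorem deg_one {a : ℂ} {f : ℂ → ℂ} (hf : f ∈ V τ (gu a)) : ∃ r : ℂ, f = r • u a := by
  by_cases hf0 : f = 0
  · exact ⟨0, by rw [hf0, zero_smul]⟩
  obtain ⟨b, hb⟩ := hu.pos _ f hf (by rw [gu_fst]; exact one_pos)
  obtain ⟨g, hg, e⟩ := hu.div b _ f hf hb
  have hg0 : g ≠ 0 := by rintro rfl; exact hf0 (by rw [e, mul_zero])
  obtain ⟨k, r, hr, h⟩ := hu.deg0 _ g hg (by simp [gu_fst]) hg0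
  have h1 := hg.2.2 0
  rw [h, h, Gam.c_sub, gu_c, gu_c] at h1
  simp only [zero_add, mul_zero, neg_zero, exp_zero, mul_one, Prod.fst_sub, gu_fst, sub_self,
    neg_div_neg_eq, ← exp_sub, ← mul_sub] at h1
  rw [mul_comm] at h1
  have h2 := mul_right_cancel₀ hr h1
  obtain ⟨n, hn⟩ := exp_eq_exp_iff_exists_int.1 h2
  have hab : Cg τ a b := by
    refine ⟨-n, k, ?_⟩
    have hpi : (2 * Real.pi * I : ℂ) ≠ 0 := by simp [Real.pi_ne_zero, I_ne_zero]
    apply mul_left_cancel₀ hpi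
    push_cast
    linear_combination -hn
  have ha : f a = 0 := by
    rw [e, Pi.mul_apply, (hu.zero b a).2 hab, zero_mul]
  obtain ⟨g', hg', e'⟩ := hu.div a _ f hf ha
  have hg0' : g' ≠ 0 := by rintro rfl; exact hf0 (by rw [e', mul_zero])
  rw [sub_self] at hg'
  obtain ⟨k', r', hr', h'⟩ := hu.deg0 _ g' hg' rfl hg0'
  have h1' := hg'.2.2 0
  rw [h', h', Gam.c_zero] at h1'
  simp only [zero_add, mul_zero, neg_zero, exp_zero, mul_one, one_mul] at h1'
  have h2' : exp (2 * Real.pi * I * k' * τ) = 1 := by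
    apply mul_left_cancel₀ hr'
    rw [h1', mul_one]
  obtain ⟨n', hn'⟩ := exp_eq_one_iff.1 h2'
  have hk' : k' = 0 := by
    have hpi : (2 * Real.pi * I : ℂ) ≠ 0 := by simp [Real.pi_ne_zero, I_ne_zero]
    have h3 : (k' : ℂ) * τ = n' := by
      apply mul_left_cancel₀ hpi
      linear_combination hn'
    have h4 := congrArg Complex.im h3
    simp only [mul_im, intCast_re, intCast_im, zero_mul, add_zero] at h4
    rcases mul_eq_zero.1 h4 with h4 | h4
    · exact_mod_cast h4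
    · exact absurd h4 hτ.ne'
  refine ⟨r', ?_⟩
  rw [e']
  funext z
  rw [Pi.mul_apply, h', hk']
  simp [mul_comm]

include hτ hu in
/-- the theta functions of degree two with a given zero -/
theorem deg_two {p q : ℂ} {γ : Gam} (hγ : γ = gu p + gu q) {f : ℂ → ℂ} (hf : f ∈ V τ γ)
    (hp : f p = 0) : ∃ r : ℂ, f = r • (u p * u q) := by
  subst hγ
  obtain ⟨g, hg, e⟩ := hu.div p _ f hf hp
  rw [add_sub_cancel_left] at hg
  obtain ⟨r, hr⟩ := deg_one hτ hu hg
  exact ⟨r, by rw [e, hr, mul_smul_comm]⟩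

end th

end Run7.h622.BE
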