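import Pool.Agent.Run7.h622.BE_INVa
import Pool.Agent.R707.Sum

/-!
# Invariance of stability conditions under the twists of degree zero: the action
-/

set_option autoImplicit false
set_option linter.unusedSectionVars false
set_option linter.unusedVariables false
set_option linter.unusedSimpArgs false

open CategoryTheory CategoryTheory.Limits Pretriangulated Triangulated Complex ZeroObject
open Pool.Agent.Helper445_GMF
open Run7.h354.BE

namespace Run7.h622.BE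

universe v u

variable {C : Type u} [Category.{v} C] [Preadditive C] [Linear ℂ C] [HasZeroObject C]
  [HasShift C ℤ] [∀ n : ℤ, (shiftFunctor C n).Additive] [Pretriangulated C] [IsTriangulated C]
  {τ : ℂ} (E : EA τ C)

theorem act_comp {a b c : Gam} {f g : ℂ → ℂ} (hf : f ∈ V τ (b - a)) (hg : g ∈ V τ (c - b))
    (h : g * f ∈ V τ (c - a)) (G : C) :
    E.act f hf G ≫ E.act g hg G = E.act (g * f) h G := by
  show (E.Φ.map (gm f hf)).app G ≫ (E.Φ.map (gm g hg)).app G = _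
  rw [← NatTrans.comp_app, ← E.Φ.map_comp]
  rfl

theorem act_add {a b : Gam} (r : ℂ) {f g : ℂ → ℂ} (hf : f ∈ V τ (b - a)) (hg : g ∈ V τ (b - a))
    (h : r • f + g ∈ V τ (b - a)) (G : C) :
    E.act (r • f + g) h G = r • E.act f hf G + E.act g hg G := by
  have h1 := E.lin r (gm f hf) (gm g hg)
  have h2 := congrArg (fun t : E.Φ.obj ⟨a⟩ ⟶ E.Φ.obj ⟨b⟩ => t.app G) h1
  exact h2

theorem act_sub {a b : Gam} (r : ℂ) {f g : ℂ → ℂ} (hf : f ∈ V τ (b - a)) (hg : g ∈ V τ (b - a))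
    {k : ℂ → ℂ} (h : k ∈ V τ (b - a)) (e : k = f - r • g) (G : C) :
    E.act k h G = E.act f hf G - r • E.act g hg G := by
  subst e
  have h1 := act_add E (-r) hg hf (Submodule.add_mem _ (Submodule.smul_mem _ _ hg) hf) G
  rw [eq_sub_iff_add_eq']
  have h2 : E.act (f - r • g) h G = E.act (-r • g + f)
      (Submodule.add_mem _ (Submodule.smul_mem _ _ hg) hf) G := by
    congr 1
    rw [neg_smul]; abel
  rw [h2, h1, neg_smul]
  abel

/-- the Koszul triangles -/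
theorem kt (G : C) (x y y' z γ δ : Gam) (hy : y = x + γ) (hy' : y' = x + δ) (hz : z = x + γ + δ)
    (f g : ℂ → ℂ) (hf : f ∈ V τ γ) (hg : g ∈ V τ δ) (h0 : ∀ z, f z ≠ 0 ∨ g z ≠ 0)
    (hf1 : f ∈ V τ (y - x)) (hg1 : g ∈ V τ (y' - x)) (hf2 : f ∈ V τ (z - y'))
    (hg2 : g ∈ V τ (z - y)) :
    ∃ h, Triangle.mk (biprod.lift (E.act f hf1 G) (E.act g hg1 G))
      (biprod.desc (E.act g hg2 G) (-(E.act f hf2 G))) h ∈ distTriang C := by
  subst hy hy' hz
  exact E.kt G x γ δ f g hf hg h0 hf1 hg1 hf2 hg2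

/-- the Hilbert-Burch triangles -/
theorem hb (G : C) (x y y' z w : Gam) (γ₁ γ₂ δ : Gam) (hy : y = x - γ₁) (hy' : y' = x - γ₂)
    (hz : z = x + δ - γ₁ - γ₂) (hw : w = x + δ)
    (u₁ u₂ w₁ w₂ g₁ g₂ f₀ : ℂ → ℂ)
    (hu₁ : u₁ ∈ V τ γ₁) (hu₂ : u₂ ∈ V τ γ₂) (hw₁ : w₁ ∈ V τ (δ - γ₂)) (hw₂ : w₂ ∈ V τ (δ - γ₁))
    (h0 : ∀ z, u₁ z * u₂ z ≠ 0 ∨ u₁ z * w₂ z ≠ 0 ∨ u₂ z * w₁ z ≠ 0)
    (e1 : u₂ * w₁ = g₁) (e2 : u₁ * w₂ = g₂) (e3 : u₁ * u₂ = f₀)
    (h1 : g₁ ∈ V τ (w - x)) (h2 : g₂ ∈ V τ (w - x))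
    (h3 : f₀ ∈ V τ (w - z)) :
    ∃ (f : E.tw y G ⊞ E.tw y' G ⟶ (E.tw x G ⊞ E.tw x G) ⊞ E.tw z G) (h : _),
      Triangle.mk f (biprod.desc (biprod.desc (E.act g₁ h1 G) (E.act g₂ h2 G))
        (E.act f₀ h3 G)) h ∈ distTriang C := by
  subst hy hy' hz hw e1 e2 e3
  exact E.hb G x γ₁ γ₂ δ u₁ u₂ w₁ w₂ hu₁ hu₂ hw₁ hw₂ h0 h1 h2 h3

theorem zero_tw {G : C} {φ : ℝ} (σ : PreStab C) (h : σ.P φ G) {γ : Gam} (hγ : γ = 0) :
    σ.P φ (E.tw γ G) := by
  subst hγ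
  exact σ.iso (E.zero.app G).symm h

theorem Z_zero_tw {G : C} (σ : PreStab C) {γ : Gam} (hγ : γ = 0) :
    σ.Z (E.tw γ G) = σ.Z G := by
  subst hγ
  exact σ.Z_iso (E.zero.app G)

/-- the composition of twists -/
theorem tw_tw (G : C) {a b c : Gam} (h : c = a + b) : Nonempty (E.tw b (E.tw a G) ≅ E.tw c G) := by
  subst h
  exact ⟨(E.comp a b).app G⟩

theorem tw_faithful {a : Gam} {A B : C} (f : A ⟶ B) (h : (E.Φ.obj ⟨a⟩).map f = 0) : f = 0 := by
  have e : E.Φ.obj ⟨a⟩ ⋙ E.Φ.obj ⟨-a⟩ ≅ 𝟭 C :=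
    E.comp a (-a) ≪≫ eqToIso (by rw [add_neg_cancel]) ≪≫ E.zero
  have h1 := e.hom.naturality f
  have h2 : (E.Φ.obj ⟨a⟩ ⋙ E.Φ.obj ⟨-a⟩).map f = 0 := by
    have := E.add ⟨-a⟩
    rw [Functor.comp_map, h, Functor.map_zero]
  rw [h2, zero_comp] at h1
  have h3 : e.hom.app A ≫ f = 0 := h1.symm
  have h4 : f = e.inv.app A ≫ e.hom.app A ≫ f := by
    rw [← Category.assoc, Iso.inv_hom_id_app]
    exact (Category.id_comp f).symm
  rw [h4, h3, comp_zero]

/-- the sum of a triangle and an identity -/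
theorem sum_id {X Y Z' : C} {f : X ⟶ Y} {g : Y ⟶ Z'} {h : Z' ⟶ X⟦(1 : ℤ)⟧}
    (hT : Triangle.mk f g h ∈ distTriang C) (W' : C) :
    ∃ (g' : Y ⊞ W' ⟶ Z' ⊞ 0) (h' : Z' ⊞ 0 ⟶ (X ⊞ W')⟦(1 : ℤ)⟧),
      Triangle.mk (biprod.map f (𝟙 W')) g' h' ∈ distTriang C :=
  ⟨_, _, Pool.Agent.R707.sumTriangle_distinguished (Triangle.mk f g h) (contractibleTriangle W') hT
    (contractible_distinguished W')⟩

theorem cone_iso {X Y Y' Z' K : C} {f : X ⟶ Y} {m' : Y ⟶ Z'} {h' : Z' ⟶ X⟦(1 : ℤ)⟧}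
    (h1 : Triangle.mk f m' h' ∈ distTriang C) {m : Y' ⟶ Z'} {g : Z' ⟶ K} {h : K ⟶ Y'⟦(1 : ℤ)⟧}
    (h2 : Triangle.mk m g h ∈ distTriang C) (e : Y ≅ Y') (comm : m' = e.hom ≫ m) :
    Nonempty (K ≅ X⟦(1 : ℤ)⟧) := by
  have i := isoTriangleOfIso₁₂ (Triangle.mk f m' h').rotate (Triangle.mk m g h)
    (rot_of_distTriang _ h1) h2 e (Iso.refl _) (by
      show m' ≫ 𝟙 _ = e.hom ≫ m
      rw [Category.comp_id, comm])
  exact ⟨(Triangle.π₃.mapIso i).symm⟩

/-- an invertible two by two matrix -/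
noncomputable def mat (A : C) (μ₁ μ₂ : ℂ) (h : μ₁ ≠ μ₂) : A ⊞ A ≅ A ⊞ A where
  hom := biprod.desc (biprod.lift (𝟙 A) (-(μ₁ • 𝟙 A))) (biprod.lift (𝟙 A) (-(μ₂ • 𝟙 A)))
  inv := biprod.desc (biprod.lift ((-μ₂ / (μ₁ - μ₂)) • 𝟙 A) ((μ₁ / (μ₁ - μ₂)) • 𝟙 A))
    (biprod.lift ((-1 / (μ₁ - μ₂)) • 𝟙 A) ((1 / (μ₁ - μ₂)) • 𝟙 A))
  hom_inv_id := by
    have h' : μ₁ - μ₂ ≠ 0 := sub_ne_zero.2 h
    apply biprod.hom_ext'
    · apply biprod.hom_ext
      · simp only [biprod.inl_desc_assoc, biprod.lift_desc, Preadditive.add_comp, Category.assoc,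
          biprod.lift_fst, Category.id_comp, Preadditive.neg_comp, Linear.smul_comp,
          Category.comp_id, smul_smul, BinaryBicone.inl_fst, biprod.inl_fst]
        rw [← sub_eq_add_neg, ← sub_smul]
        rw [show -μ₂ / (μ₁ - μ₂) - μ₁ * (-1 / (μ₁ - μ₂)) = 1 by field_simp; ring, one_smul]
      · simp only [biprod.inl_desc_assoc, biprod.lift_desc, Preadditive.add_comp, Category.assoc,
          biprod.lift_snd, Category.id_comp, Preadditive.neg_comp, Linear.smul_comp,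
          Category.comp_id, smul_smul, BinaryBicone.inl_snd, biprod.inl_snd]
        rw [← sub_eq_add_neg, ← sub_smul]
        rw [show μ₁ / (μ₁ - μ₂) - μ₁ * (1 / (μ₁ - μ₂)) = 0 by field_simp; ring, zero_smul]
    · apply biprod.hom_ext
      · simp only [biprod.inr_desc_assoc, biprod.lift_desc, Preadditive.add_comp, Category.assoc,
          biprod.lift_fst, Category.id_comp, Preadditive.neg_comp, Linear.smul_comp,
          Category.comp_id, smul_smul, BinaryBicone.inr_fst, biprod.inr_fst]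
        rw [← sub_eq_add_neg, ← sub_smul]
        rw [show -μ₂ / (μ₁ - μ₂) - μ₂ * (-1 / (μ₁ - μ₂)) = 0 by field_simp; ring, zero_smul]
      · simp only [biprod.inr_desc_assoc, biprod.lift_desc, Preadditive.add_comp, Category.assoc,
          biprod.lift_snd, Category.id_comp, Preadditive.neg_comp, Linear.smul_comp,
          Category.comp_id, smul_smul, BinaryBicone.inr_snd, biprod.inr_snd]
        rw [← sub_eq_add_neg, ← sub_smul]
        rw [show μ₁ / (μ₁ - μ₂) - μ₂ * (1 / (μ₁ - μ₂)) = 1 by field_simp, one_smul]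
  inv_hom_id := by
    have h' : μ₁ - μ₂ ≠ 0 := sub_ne_zero.2 h
    apply biprod.hom_ext'
    · apply biprod.hom_ext
      · simp only [biprod.inl_desc_assoc, biprod.lift_desc, Preadditive.add_comp, Category.assoc,
          biprod.lift_fst, Category.id_comp, Linear.smul_comp,
          Category.comp_id, BinaryBicone.inl_fst, biprod.inl_fst]
        rw [← add_smul]
        rw [show -μ₂ / (μ₁ - μ₂) + μ₁ / (μ₁ - μ₂) = 1 by field_simp; ring, one_smul]
      · simp only [biprod.inl_desc_assoc, biprod.lift_desc, Preadditive.add_comp, Category.assoc,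
          biprod.lift_snd, Category.id_comp, Linear.smul_comp,
          Category.comp_id, BinaryBicone.inl_snd, biprod.inl_snd, smul_neg, smul_smul]
        rw [← neg_add, ← add_smul]
        rw [show -μ₂ / (μ₁ - μ₂) * μ₁ + μ₁ / (μ₁ - μ₂) * μ₂ = 0 by field_simp; ring, zero_smul,
          neg_zero]
    · apply biprod.hom_ext
      · simp only [biprod.inr_desc_assoc, biprod.lift_desc, Preadditive.add_comp, Category.assoc,
          biprod.lift_fst, Category.id_comp, Linear.smul_comp,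
          Category.comp_id, BinaryBicone.inr_fst, biprod.inr_fst]
        rw [← add_smul]
        rw [show -1 / (μ₁ - μ₂) + 1 / (μ₁ - μ₂) = 0 by field_simp; ring, zero_smul]
      · simp only [biprod.inr_desc_assoc, biprod.lift_desc, Preadditive.add_comp, Category.assoc,
          biprod.lift_snd, Category.id_comp, Linear.smul_comp,
          Category.comp_id, BinaryBicone.inr_snd, biprod.inr_snd, smul_neg, smul_smul]
        rw [← neg_add, ← add_smul, ← neg_smul]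
        rw [show -(-1 / (μ₁ - μ₂) * μ₁ + 1 / (μ₁ - μ₂) * μ₂) = 1 by field_simp; ring, one_smul]

theorem mat_desc (A B : C) (μ₁ μ₂ : ℂ) (h : μ₁ ≠ μ₂) (g₁ g₂ : A ⟶ B) :
    (mat A μ₁ μ₂ h).hom ≫ biprod.desc g₁ g₂ = biprod.desc (g₁ - μ₁ • g₂) (g₁ - μ₂ • g₂) := by
  apply biprod.hom_ext'
  · simp [mat, sub_eq_add_neg]
  · simp [mat, sub_eq_add_neg]

end Run7.h622.BE
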