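import Pool.Agent.Run7.h622.BE_INVb

/-!
# Invariance of stability conditions under the twists of degree zero: the pencil
-/

set_option autoImplicit false
set_option linter.unusedSectionVars false
set_option linter.unusedVariables false
set_option linter.unusedSimpArgs false

open CategoryTheory CategoryTheory.Limits Pretriangulated Triangulated Complex ZeroObject
open Pool.Agent.Helper445_GMF
open Run7.h354.BE

namespace Run7.h622.BE

universe v u

theorem gu_half : gu (1 / 2) + gu (1 / 2) = gu 0 + gu 0 := by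
  refine Gam.ext' rfl ?_
  rw [Gam.c_add, Gam.c_add, gu_c, gu_c, neg_mul_neg, neg_mul_neg, ← exp_add, ← exp_add,
    show (2 * Real.pi * I * (1 / 2) + 2 * Real.pi * I * (1 / 2) : ℂ) = 2 * Real.pi * I by ring,
    exp_two_pi_mul_I]
  simp

section generic

variable {τ : ℂ} (hτ : 0 < τ.im) {u : ℂ → ℂ → ℂ} (hu : TH τ u)

/-- The points which are excluded. -/
def Bad (τ : ℂ) (p : ℂ) : Prop :=
  Cg τ p (1 / 2) ∨ Cg τ p (1 / 4) ∨ Cg τ (-p) (1 / 4) ∨ Cg τ p (-p)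

theorem Bad_count : {p | Bad τ p}.Countable := by
  have h1 : {p | Bad τ p} ⊆ {p | Cg τ p (1 / 2)} ∪ ({p | Cg τ p (1 / 4)} ∪
      ({p | Cg τ p (-(1 / 4))} ∪ Set.range fun x : ℤ × ℤ => ((x.1 : ℂ) + x.2 * τ) / 2)) := by
    rintro p (h | h | h | h)
    · exact Or.inl h
    · exact Or.inr (Or.inl h)
    · refine Or.inr (Or.inr (Or.inl ?_))
      obtain ⟨m, n, h⟩ := h
      exact ⟨-m, -n, by push_cast; linear_combination -h⟩
    · refine Or.inr (Or.inr (Or.inr ?_))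
      obtain ⟨m, n, h⟩ := h
      exact ⟨(m, n), by simp only; linear_combination -(1 / 2 : ℂ) * h⟩
  exact ((Cg_count _).union ((Cg_count _).union ((Cg_count _).union
    (Set.countable_range _)))).mono h1

/-- the parameter of the member of the pencil through `p` -/
noncomputable def par (u : ℂ → ℂ → ℂ) (p : ℂ) : ℂ := (u 0 p * u 0 p) / (u (1 / 2) p * u (1 / 2) p)

include hτ in
theorem nh : ¬ Cg τ (1 / 2) 0 := not_Cg_half hτ _ _ 2 (by norm_num) (by decide)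

include hτ hu in
theorem par_spec {p : ℂ} (hp : ¬ Bad τ p) : ∃ r : ℂ, r ≠ 0 ∧
    u 0 * u 0 - par u p • (u (1 / 2) * u (1 / 2)) = r • (u p * u (-p)) := by
  have h1 : u (1 / 2) p ≠ 0 := u_ne hu fun h => hp (Or.inl h)
  obtain ⟨r, hr⟩ := deg_two hτ hu (p := p) (q := -p) (γ := gu 0 + gu 0)
    (gu_add (by ring)) (f := u 0 * u 0 - par u p • (u (1 / 2) * u (1 / 2)))
    (Submodule.sub_mem _ (V_mul (hu.mem 0) (hu.mem 0)) (Submodule.smul_mem _ _ (by
      rw [← gu_half]; exact V_mul (hu.mem _) (hu.mem _)))) (by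
      simp only [Pi.sub_apply, Pi.mul_apply, Pi.smul_apply, smul_eq_mul, par]
      field_simp
      ring)
  refine ⟨r, ?_, hr⟩
  rintro rfl
  have h2 := congrFun hr (1 / 2)
  simp only [Pi.sub_apply, Pi.mul_apply, Pi.smul_apply, smul_eq_mul, u_self hu, mul_zero,
    sub_zero, zero_mul] at h2
  have h3 : u 0 (1 / 2) ≠ 0 := u_ne hu (nh hτ)
  exact mul_ne_zero h3 h3 h2

include hτ hu in
theorem par_count (l : ℂ) : {p | ¬ Bad τ p ∧ par u p = l}.Countable := by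
  rcases Set.eq_empty_or_nonempty {p | ¬ Bad τ p ∧ par u p = l} with h | ⟨p₀, hp₀, h0⟩
  · rw [h]; exact Set.countable_empty
  obtain ⟨r, hr, e⟩ := par_spec hτ hu hp₀
  refine ((Cg_count (τ := τ) p₀).union (Cg_count (τ := τ) (-p₀))).mono ?_
  rintro p ⟨hp, h⟩
  obtain ⟨r', hr', e'⟩ := par_spec hτ hu hp
  rw [h, ← h0, e] at e'
  have h1 := congrFun e' p
  simp only [Pi.mul_apply, Pi.smul_apply, smul_eq_mul, u_self hu, mul_zero, zero_mul] at h1
  rcases mul_eq_zero.1 ((mul_eq_zero.1 h1).resolve_left hr) with h2 | h2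
  · exact Or.inl ((hu.zero _ _).1 h2)
  · exact Or.inr ((hu.zero _ _).1 h2)

include hτ hu in
/-- the second pencil -/
theorem sec_spec {p : ℂ} (hp : ¬ Cg τ p (1 / 4)) : ∃ μ r : ℂ, r ≠ 0 ∧
    u 0 * u (1 / 2) - μ • (u (1 / 4) * u (1 / 4)) = r • (u p * u (1 / 2 - p)) := by
  have h1 : u (1 / 4) p ≠ 0 := u_ne hu hp
  obtain ⟨r, hr⟩ := deg_two hτ hu (p := p) (q := 1 / 2 - p) (γ := gu 0 + gu (1 / 2))
    (gu_add (by ring)) (f := u 0 * u (1 / 2) - ((u 0 p * u (1 / 2) p) /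
      (u (1 / 4) p * u (1 / 4) p)) • (u (1 / 4) * u (1 / 4)))
    (Submodule.sub_mem _ (V_mul (hu.mem 0) (hu.mem _)) (Submodule.smul_mem _ _ (by
      rw [gu_add (show (0 : ℂ) + 1 / 2 = 1 / 4 + 1 / 4 by norm_num)]
      exact V_mul (hu.mem _) (hu.mem _)))) (by
      simp only [Pi.sub_apply, Pi.mul_apply, Pi.smul_apply, smul_eq_mul]
      field_simp
      ring)
  refine ⟨_, r, ?_, hr⟩
  rintro rfl
  have h2 := congrFun hr (1 / 4)
  simp only [Pi.sub_apply, Pi.mul_apply, Pi.smul_apply, smul_eq_mul, u_self hu, mul_zero,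
    sub_zero, zero_mul] at h2
  have h3 : u 0 (1 / 4) ≠ 0 := u_ne hu (not_Cg_half hτ _ _ 1 (by norm_num) (by decide))
  have h4 : u (1 / 2) (1 / 4) ≠ 0 := u_ne hu (not_Cg_half hτ _ _ (-1) (by norm_num) (by decide))
  exact mul_ne_zero h3 h4 h2

end generic

section pencil

variable {C : Type u} [Category.{v} C] [Preadditive C] [Linear ℂ C] [HasZeroObject C]
  [HasShift C ℤ] [∀ n : ℤ, (shiftFunctor C n).Additive] [Pretriangulated C] [IsTriangulated C]
  {τ : ℂ} (hτ : 0 < τ.im) {u : ℂ → ℂ → ℂ} (hu : TH τ u) (E : EA τ C)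

/-- the target of the pencil -/
noncomputable def tg : Gam := gu 0 + (gu 0 + gu (1 / 2))

theorem tg1 : tg - gu 0 = gu 0 + gu (1 / 2) := by rw [tg]; abel
theorem tg2 : tg - gu (1 / 2) = gu 0 + gu 0 := by rw [tg]; abel

include hu in
theorem m1 : u 0 * u (1 / 2) ∈ V τ (tg - gu 0) := by
  rw [tg1]; exact V_mul (hu.mem _) (hu.mem _)

include hu in
theorem m2 : u (1 / 4) * u (1 / 4) ∈ V τ (tg - gu 0) := by
  rw [tg1, gu_add (show (0 : ℂ) + 1 / 2 = 1 / 4 + 1 / 4 by norm_num)]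
  exact V_mul (hu.mem _) (hu.mem _)

include hu in
theorem m3 : u 0 * u 0 ∈ V τ (tg - gu (1 / 2)) := by
  rw [tg2]; exact V_mul (hu.mem _) (hu.mem _)

include hu in
theorem m4 : u (1 / 2) * u (1 / 2) ∈ V τ (tg - gu (1 / 2)) := by
  rw [tg2, ← gu_half]; exact V_mul (hu.mem _) (hu.mem _)

/-- the pencil -/
noncomputable def al (G : C) : (E.tw (gu 0) G ⊞ E.tw (gu 0) G) ⊞ E.tw (gu (1 / 2)) G ⟶ E.tw tg G :=
  biprod.desc (biprod.desc (E.act _ (m1 hu) G) (E.act _ (m2 hu) G)) (E.act _ (m3 hu) G)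

/-- the pencil -/
noncomputable def be (G : C) : (E.tw (gu 0) G ⊞ E.tw (gu 0) G) ⊞ E.tw (gu (1 / 2)) G ⟶ E.tw tg G :=
  biprod.desc 0 (E.act _ (m4 hu) G)

include hu in
theorem m5 (l : ℂ) : u 0 * u 0 - l • (u (1 / 2) * u (1 / 2)) ∈ V τ (tg - gu (1 / 2)) :=
  Submodule.sub_mem _ (m3 hu) (Submodule.smul_mem _ _ (m4 hu))

theorem pen_eq (G : C) (l : ℂ) : al hu E G - l • be hu E G =
    biprod.desc (biprod.desc (E.act _ (m1 hu) G) (E.act _ (m2 hu) G)) (E.act _ (m5 hu l) G) := by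
  rw [act_sub E l (m3 hu) (m4 hu) (m5 hu l) rfl]
  apply biprod.hom_ext'
  · simp [al, be]
  · simp [al, be]

include hτ in
/-- the generic member -/
theorem pen_gen (G : C) {p : ℂ} (hp : ¬ Bad τ p) {K : C} {g : E.tw tg G ⟶ K}
    {h : K ⟶ ((E.tw (gu 0) G ⊞ E.tw (gu 0) G) ⊞ E.tw (gu (1 / 2)) G)⟦(1 : ℤ)⟧}
    (hT : Triangle.mk (al hu E G - par u p • be hu E G) g h ∈ distTriang C) :
    Nonempty (K ≅ (E.tw (gu 0 - gu p) G ⊞ E.tw (gu 0 - gu (-p)) G)⟦(1 : ℤ)⟧) := by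
  obtain ⟨r, hr, e⟩ := par_spec hτ hu hp
  obtain ⟨μ₂, r₂, hr₂, e₂⟩ := sec_spec hτ hu (p := p) fun h => hp (Or.inr (Or.inl h))
  obtain ⟨μ₁, r₁, hr₁, e₁⟩ := sec_spec hτ hu (p := -p) fun h => hp (Or.inr (Or.inr (Or.inl h)))
  have n1 : ¬ Cg τ p (-p) := fun h => hp (Or.inr (Or.inr (Or.inr h)))
  have n2 : ¬ Cg τ p (1 / 2 + p) := not_Cg_half hτ _ _ (-2) (by push_cast; ring) (by decide)
  have n3 : ¬ Cg τ (-p) (1 / 2 - p) := not_Cg_half hτ _ _ (-2) (by push_cast; ring) (by decide)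
  rw [sub_neg_eq_add] at e₁
  have hμ : μ₁ ≠ μ₂ := by
    rintro rfl
    rw [e₁] at e₂
    have h1 := congrFun e₂ p
    simp only [Pi.mul_apply, Pi.smul_apply, smul_eq_mul, u_self hu, mul_zero, zero_mul] at h1
    exact mul_ne_zero hr₁ (mul_ne_zero (u_ne hu n1) (u_ne hu n2)) h1
  have hg : gu 0 + (gu 0 + gu (1 / 2)) - gu p - gu (-p) = gu (1 / 2) := by
    have : gu p + gu (-p) = gu 0 + gu 0 := gu_add (by ring)
    rw [sub_sub, this]
    abel
  obtain ⟨f, h', hT'⟩ := hb E G (gu 0) (gu 0 - gu p) (gu 0 - gu (-p)) (gu (1 / 2)) tg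
    (gu p) (gu (-p)) (gu 0 + gu (1 / 2)) rfl rfl hg.symm rfl (u p) (r • u (-p))
    ((r₁ / r) • u (1 / 2 + p)) (r₂ • u (1 / 2 - p))
    (u 0 * u (1 / 2) - μ₁ • (u (1 / 4) * u (1 / 4)))
    (u 0 * u (1 / 2) - μ₂ • (u (1 / 4) * u (1 / 4)))
    (u 0 * u 0 - par u p • (u (1 / 2) * u (1 / 2)))
    (hu.mem _) (Submodule.smul_mem _ _ (hu.mem _))
    (Submodule.smul_mem _ _ (by
      rw [gu_add (show (0 : ℂ) + 1 / 2 = (1 / 2 + p) + (-p) by ring), add_sub_cancel_right]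
      exact hu.mem _))
    (Submodule.smul_mem _ _ (by
      rw [gu_add (show (0 : ℂ) + 1 / 2 = (1 / 2 - p) + p by ring), add_sub_cancel_right]
      exact hu.mem _))
    (by
      intro z
      by_contra hc
      push Not at hc
      obtain ⟨c1, c2, c3⟩ := hc
      simp only [Pi.smul_apply, smul_eq_mul] at c1 c2 c3
      by_cases hz : u p z = 0
      · have hz' := (hu.zero _ _).1 hz
        have hz2 : u (-p) z ≠ 0 := u_ne hu fun h => n1 (Cg_trans (Cg_symm hz') h)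
        have hz3 : u (1 / 2 + p) z ≠ 0 := u_ne hu fun h => n2 (Cg_trans (Cg_symm hz') h)
        exact mul_ne_zero (mul_ne_zero hr hz2) (mul_ne_zero (div_ne_zero hr₁ hr) hz3) c3
      · have hz1 : u (-p) z = 0 := by
          have := (mul_eq_zero.1 c1).resolve_left hz
          exact (mul_eq_zero.1 this).resolve_left hr
        have hz' := (hu.zero _ _).1 hz1
        have hz3 : u (1 / 2 - p) z ≠ 0 := u_ne hu fun h => n3 (Cg_trans (Cg_symm hz') h)
        exact mul_ne_zero hz (mul_ne_zero hr₂ hz3) c2)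
    (by
      rw [e₁, smul_mul_smul_comm, mul_div_cancel₀ _ hr])
    (by rw [e₂, mul_smul_comm])
    (by rw [e, mul_smul_comm])
    (Submodule.sub_mem _ (m1 hu) (Submodule.smul_mem _ _ (m2 hu)))
    (Submodule.sub_mem _ (m1 hu) (Submodule.smul_mem _ _ (m2 hu)))
    (m5 hu _)
  refine cone_iso hT' hT (biprod.mapIso (mat _ μ₁ μ₂ hμ) (Iso.refl _)) ?_
  rw [pen_eq, act_sub E μ₁ (m1 hu) (m2 hu) _ rfl, act_sub E μ₂ (m1 hu) (m2 hu) _ rfl]
  apply biprod.hom_ext'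
  · rw [biprod.inl_desc, biprod.mapIso_hom, biprod.inl_map_assoc, biprod.inl_desc, mat_desc]
  · simp

theorem cone_iso' {Y Y' Z' K K' : C} {m' : Y ⟶ Z'} {g' : Z' ⟶ K'} {h' : K' ⟶ Y⟦(1 : ℤ)⟧}
    (h1 : Triangle.mk m' g' h' ∈ distTriang C) {m : Y' ⟶ Z'} {g : Z' ⟶ K} {h : K ⟶ Y'⟦(1 : ℤ)⟧}
    (h2 : Triangle.mk m g h ∈ distTriang C) (e : Y ≅ Y') (comm : m' = e.hom ≫ m) :
    Nonempty (K' ≅ K) := by
  have i := isoTriangleOfIso₁₂ (Triangle.mk m' g' h') (Triangle.mk m g h)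
    h1 h2 e (Iso.refl _) (by
      show m' ≫ 𝟙 _ = e.hom ≫ m
      rw [Category.comp_id, comm])
  exact ⟨Triangle.π₃.mapIso i⟩

/-- a permutation of the summands, with signs -/
noncomputable def perm (A B : C) : (A ⊞ A) ⊞ B ≅ (A ⊞ B) ⊞ A where
  hom := biprod.desc (biprod.desc (biprod.inl ≫ biprod.inl) (-biprod.inr))
    (-(biprod.inr ≫ biprod.inl))
  inv := biprod.desc (biprod.desc (biprod.inl ≫ biprod.inl) (-biprod.inr))
    (-(biprod.inr ≫ biprod.inl))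
  hom_inv_id := by
    apply biprod.hom_ext'
    · apply biprod.hom_ext'
      · simp
      · simp
    · simp
  inv_hom_id := by
    apply biprod.hom_ext'
    · apply biprod.hom_ext'
      · simp
      · simp
    · simp

include hτ in
/-- the special member -/
theorem pen_zero (σ : PreStab C) {φ : ℝ} (G : C) (hG : σ.P φ G)
    (hsum : ∀ T ∈ distTriang C, σ.P (φ + 1) T.obj₁ → σ.P (φ + 1) T.obj₃ → σ.P (φ + 1) T.obj₂)
    {K : C} {g : E.tw tg G ⟶ K}
    {h : K ⟶ ((E.tw (gu 0) G ⊞ E.tw (gu 0) G) ⊞ E.tw (gu (1 / 2)) G)⟦(1 : ℤ)⟧}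
    (hT : Triangle.mk (al hu E G) g h ∈ distTriang C) : σ.P (φ + 1) K := by
  -- the two Koszul triangles
  have a1 : u (1 / 2) ∈ V τ (gu 0 + gu (1 / 2) - gu 0) := by
    rw [add_sub_cancel_left]; exact hu.mem _
  have a2 : u 0 ∈ V τ (gu 0 + gu (1 / 2) - gu (1 / 2)) := by
    rw [add_sub_cancel_right]; exact hu.mem _
  have a3 : u 0 ∈ V τ (tg - (gu 0 + gu (1 / 2))) := by
    rw [tg, add_sub_cancel_right]; exact hu.mem _
  obtain ⟨h1, hk1⟩ := kt E G 0 (gu 0) (gu (1 / 2)) (gu 0 + gu (1 / 2)) (gu 0) (gu (1 / 2))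
    (by simp) (by simp) (by simp) (u 0) (u (1 / 2)) (hu.mem _) (hu.mem _)
    (by
      intro z
      by_contra hc
      push Not at hc
      exact nh hτ (Cg_trans (Cg_symm ((hu.zero _ _).1 hc.2)) ((hu.zero _ _).1 hc.1)))
    (by rw [sub_zero]; exact hu.mem _) (by rw [sub_zero]; exact hu.mem _) a2 a1
  have hm2 : u (1 / 4) * u (1 / 4) ∈ V τ (gu 0 + gu (1 / 2)) := by
    have := m2 hu
    rwa [tg1] at this
  obtain ⟨h2, hk2⟩ := kt E G 0 (gu 0 + gu (1 / 2)) (gu 0) tg (gu 0 + gu (1 / 2)) (gu 0)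
    (by simp) (by simp) (by rw [tg]; abel) (u (1 / 4) * u (1 / 4)) (u 0) hm2 (hu.mem _)
    (by
      intro z
      by_contra hc
      push Not at hc
      have h1 : u (1 / 4) z = 0 := by
        have := hc.1
        rw [Pi.mul_apply] at this
        exact mul_self_eq_zero.1 this
      exact not_Cg_half hτ (1 / 4) 0 1 (by norm_num) (by decide)
        (Cg_trans (Cg_symm ((hu.zero _ _).1 h1)) ((hu.zero _ _).1 hc.2)))
    (by rw [sub_zero]; exact hm2) (by rw [sub_zero]; exact hu.mem _)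
    (m2 hu) a3
  have hO : σ.P (φ + 1) ((E.tw 0 G)⟦(1 : ℤ)⟧) := (σ.shift _ _).2 (zero_tw E σ hG rfl)
  obtain ⟨g', h', hS⟩ := sum_id (rot_of_distTriang _ hk1) (E.tw (gu 0) G)
  obtain ⟨K', g'', h'', hK'⟩ := distinguished_cocone_triangle
    (biprod.map (biprod.desc (E.act _ a1 G) (-(E.act _ a2 G))) (𝟙 (E.tw (gu 0) G)) ≫
      biprod.desc (E.act _ a3 G) (-(E.act _ (m2 hu) G)))
  have o := someOctahedron rfl hS (rot_of_distTriang _ hk2) hK'
  have hPK' : σ.P (φ + 1) K' := by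
    refine hsum _ o.mem ?_ hO
    exact σ.iso (isoBiprodZero (isZero_zero C)) hO
  obtain ⟨i⟩ := cone_iso' hT hK' (perm _ _) (by
    apply biprod.hom_ext'
    · apply biprod.hom_ext'
      · simp only [al, perm, biprod.inl_desc_assoc, biprod.inl_desc, Category.assoc,
          biprod.inl_map_assoc]
        exact (act_comp E _ _ _ G).symm
      · simp [al, perm]
    · simp only [al, perm, biprod.inr_desc_assoc, biprod.inr_desc, Category.assoc,
          biprod.inl_map_assoc, Preadditive.neg_comp, biprod.inl_desc, Preadditive.comp_neg, neg_neg]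
      exact (act_comp E _ _ _ G).symm)
  exact σ.iso i.symm hPK'

end pencil

end Run7.h622.BE
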