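import Pool.Agent.Run7.h622.HoleTables

/-! The spectrum of the design of the affine planes of `AG(3,2)` is `{6, 8}`. -/

namespace Run7.h622.Hole

open Finset

lemma ok_perm {R : List ℕ} {p : ℕ × ℕ} (h : ok R p = true) :
    ∃ σ : Equiv.Perm (Fin 8), (∀ b ∈ Dset, b.image σ ∈ Dset) ∧
      ∀ b ∈ R, p.2.testBit (Dl.idxOf (imask p.1 b)) = true ∧ (blk b).image σ = blk (imask p.1 b) := by
  simp only [ok, Bool.and_eq_true, List.all_eq_true, List.any_eq_true, List.mem_finRange, true_and,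
    forall_const, beq_iff_eq, List.contains_iff_mem] at h
  obtain ⟨⟨h1, h2⟩, h3⟩ := h
  have hsurj : Function.Surjective (sg p.1) := fun j => h1 j
  have hbij : Function.Bijective (sg p.1) := ⟨Finite.injective_iff_surjective.2 hsurj, hsurj⟩
  refine ⟨Equiv.ofBijective (sg p.1) hbij, ?_, ?_⟩
  · intro b hb
    simp only [Dset, List.mem_toFinset, List.mem_map] at hb ⊢
    obtain ⟨m, hm, rfl⟩ := hb
    exact ⟨imask p.1 m, h2 m hm, by rw [blk_imask]; rfl⟩
  · intro b hb
    exact ⟨h3 b hb, by rw [blk_imask]; rfl⟩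

/-- the mask of a set of blocks -/
noncomputable def smask (S : Finset (Finset (Fin 8))) : ℕ :=
  Nat.ofBits fun k : Fin 14 => decide (blk (Dl.getD k 0) ∈ S)

lemma smask_lt (S : Finset (Finset (Fin 8))) : smask S < 2 ^ 14 := Nat.ofBits_lt_two_pow _

lemma Dl_len : Dl.length = 14 := rfl

lemma smask_testBit (S : Finset (Finset (Fin 8))) {b : ℕ} (hb : b ∈ Dl) :
    (smask S).testBit (Dl.idxOf b) = decide (blk b ∈ S) := by
  have h1 : Dl.idxOf b < 14 := by rw [← Dl_len]; exact List.idxOf_lt_length_iff.2 hb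
  rw [smask, Nat.testBit_ofBits_lt _ _ h1]
  have h2 : Dl.getD (Dl.idxOf b) 0 = b := by
    rw [List.getD_eq_getElem _ _ (by rw [Dl_len]; exact h1)]
    exact List.getElem_idxOf _
  simp only [h2]

lemma imask_mem {R : List ℕ} {p : ℕ × ℕ} (h : ok R p = true) (hR : ∀ b ∈ R, b ∈ Dl) {b : ℕ}
    (hb : b ∈ R) : imask p.1 b ∈ Dl := by
  simp only [ok, Bool.and_eq_true, List.all_eq_true, List.any_eq_true, List.mem_finRange, true_and,
    forall_const, beq_iff_eq, List.contains_iff_mem] at h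
  exact h.1.2 b (hR b hb)

lemma Tl_sub : ∀ b ∈ Tl, b ∈ Dl := by decide +kernel

lemma not_def_mask {S : Finset (Finset (Fin 8))} (hS : S ⊆ Dset) {p : ℕ × ℕ} (hp : p ∈ OT)
    (h : ∀ b ∈ Dl, p.2.testBit (Dl.idxOf b) = true → blk b ∉ S) :
    ¬ IsDefiningSet 2 4 3 Dset S := by
  have hok := List.all_eq_true.1 okT p hp
  obtain ⟨σ, hσ, hσT⟩ := ok_perm hok
  apply not_def σ hσ hS
  intro b hb
  simp only [Tset, List.mem_toFinset, List.mem_map] at hb
  obtain ⟨m, hm, rfl⟩ := hb
  obtain ⟨h1, h2⟩ := hσT m hm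
  rw [h2]
  exact h _ (imask_mem hok Tl_sub hm) h1

lemma contains_mask {S : Finset (Finset (Fin 8))} {R : List ℕ}
    (hR : ∀ b ∈ R, b ∈ Dl) (hdef : IsDefiningSet 2 4 3 Dset (R.map blk).toFinset)
    (hS : IsMinimalDefiningSet 2 4 3 Dset S) {p : ℕ × ℕ} (hok : ok R p = true)
    (h : ∀ b ∈ Dl, p.2.testBit (Dl.idxOf b) = true → blk b ∈ S) :
    S.card = (R.map blk).toFinset.card := by
  obtain ⟨σ, hσ, hσT⟩ := ok_perm hok
  set M := (R.map blk).toFinset.image (fun b => b.image σ) with hM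
  have hMS : M ⊆ S := by
    intro c hc
    obtain ⟨b, hb, rfl⟩ := Finset.mem_image.1 hc
    simp only [List.mem_toFinset, List.mem_map] at hb
    obtain ⟨m, hm, rfl⟩ := hb
    obtain ⟨h1, h2⟩ := hσT m hm
    show (blk m).image σ ∈ S
    rw [h2]
    exact h _ (imask_mem hok hR hm) h1
  have hMdef : IsDefiningSet 2 4 3 Dset M :=
    def_perm σ hσ hdef (hMS.trans hS.1.1) (fun b hb => Finset.mem_image_of_mem _ hb)
  have hEq : M = S := by
    by_contra hne
    exact hS.2 M (hMS.ssubset_of_ne hne) hMdef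
  rw [← hEq, hM, Finset.card_image_of_injective _ (Finset.image_injective σ.injective)]

lemma R6_card : (R6.map blk).toFinset.card = 6 := by decide +kernel
lemma R8_card : (R8.map blk).toFinset.card = 8 := by decide +kernel

lemma card_of_minimal {S : Finset (Finset (Fin 8))} (hS : IsMinimalDefiningSet 2 4 3 Dset S) :
    S.card = 6 ∨ S.card = 8 := by
  have hall := List.all_eq_true.1 allD (smask S) (List.mem_range.2 (smask_lt S))
  simp only [Bool.or_eq_true, List.any_eq_true] at hall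
  rcases hall with ⟨p, hp, h⟩ | ⟨p, hp, h⟩ | ⟨p, hp, h⟩
  · exfalso
    refine not_def_mask hS.1.1 hp ?_ hS.1
    intro b hb hbit hbS
    have h1 : smask S &&& p.2 = 0 := Nat.eq_of_beq_eq_true h
    have h2 := smask_testBit S hb
    rw [decide_eq_true hbS] at h2
    have h3 : (smask S &&& p.2).testBit (Dl.idxOf b) = true := by
      rw [Nat.testBit_and, h2, hbit]; rfl
    rw [h1] at h3
    simp at h3
  · left
    refine (contains_mask R6_sub def6 hS (List.all_eq_true.1 ok6 p hp) ?_).trans R6_card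
    intro b hb hbit
    have h1 : smask S &&& p.2 = p.2 := Nat.eq_of_beq_eq_true h
    have h3 : (smask S &&& p.2).testBit (Dl.idxOf b) = true := by rw [h1]; exact hbit
    rw [Nat.testBit_and, smask_testBit S hb, Bool.and_eq_true] at h3
    exact of_decide_eq_true h3.1
  · right
    refine (contains_mask R8_sub def8 hS (List.all_eq_true.1 ok8 p hp) ?_).trans R8_card
    intro b hb hbit
    have h1 : smask S &&& p.2 = p.2 := Nat.eq_of_beq_eq_true h
    have h3 : (smask S &&& p.2).testBit (Dl.idxOf b) = true := by rw [h1]; exact hbit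
    rw [Nat.testBit_and, smask_testBit S hb, Bool.and_eq_true] at h3
    exact of_decide_eq_true h3.1

lemma minimal_of {R : List ℕ} {n : ℕ} (hlen : R.length = n) (hR : ∀ b ∈ R, b ∈ Dl)
    (hdef : IsDefiningSet 2 4 3 Dset (R.map blk).toFinset)
    (hsub : (List.range n).all (fun i =>
      OT.any fun p => (R.eraseIdx i).all fun b => !p.2.testBit (Dl.idxOf b)) = true) :
    IsMinimalDefiningSet 2 4 3 Dset (R.map blk).toFinset := by
  refine ⟨hdef, ?_⟩
  intro S' hS'
  obtain ⟨c, hc, hcS⟩ := Finset.exists_of_ssubset hS'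
  simp only [List.mem_toFinset, List.mem_map] at hc
  obtain ⟨m, hm, rfl⟩ := hc
  obtain ⟨i, hi, rfl⟩ := List.mem_iff_getElem.1 hm
  have h1 := List.all_eq_true.1 hsub i (List.mem_range.2 (by omega))
  simp only [List.any_eq_true, List.all_eq_true, Bool.not_eq_true'] at h1
  obtain ⟨p, hp, h⟩ := h1
  apply not_def_mask (hS'.1.trans hdef.1) hp
  intro b hb hbit hbS
  have h2 := hS'.1 hbS
  simp only [List.mem_toFinset, List.mem_map] at h2
  obtain ⟨m', hm', he⟩ := h2
  have h3 : m' = b := blk_inj (L70_lt _ (Dl_sub _ (hR _ hm'))) (L70_lt _ (Dl_sub _ hb)) he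
  subst h3
  obtain ⟨j, hj, rfl⟩ := List.mem_iff_getElem.1 hm'
  have hij : j ≠ i := by
    rintro rfl
    exact hcS hbS
  have h4 : R[j] ∈ R.eraseIdx i := by
    rw [List.mem_eraseIdx_iff_getElem]
    exact ⟨j, hj, hij, rfl⟩
  rw [h _ h4] at hbit
  exact Bool.false_ne_true hbit

theorem spec_eq : Spec 2 4 3 Dset = {6, 8} := by
  ext n
  simp only [Spec, Set.mem_ofPred_eq, Set.mem_insert_iff, Set.mem_singleton_iff]
  constructor
  · rintro ⟨S, hS, rfl⟩
    exact card_of_minimal hS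
  · rintro (rfl | rfl)
    · exact ⟨_, minimal_of rfl R6_sub def6 sub6, R6_card⟩
    · exact ⟨_, minimal_of rfl R8_sub def8 sub8, R8_card⟩

end Run7.h622.Hole
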