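import Pool.Agent.Run7.h622.HoleUniq

/-! The spectrum of the design of the affine planes of `AG(3,2)` is `{6, 8}`. -/

namespace Run7.h622.Hole

open Finset

/-! ### permutations -/

/-- the map with base 8 digits `c` -/
def sg (c : ℕ) (i : Fin 8) : Fin 8 := ⟨(c / 8 ^ (i : ℕ)) % 8, Nat.mod_lt _ (by norm_num)⟩

/-- the image of a mask -/
def imask (c b : ℕ) : ℕ :=
  (List.finRange 8).foldl (fun a (i : Fin 8) => cond (b.testBit i) (a ||| 2 ^ (sg c i : ℕ)) a) 0

lemma foldl_testBit (c b : ℕ) (j : ℕ) : ∀ (l : List (Fin 8)) (a : ℕ),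
    (l.foldl (fun a (i : Fin 8) => cond (b.testBit i) (a ||| 2 ^ (sg c i : ℕ)) a) a).testBit j = true ↔
      a.testBit j = true ∨ ∃ i ∈ l, b.testBit i = true ∧ (sg c i : ℕ) = j
  | [], a => by simp
  | i :: l, a => by
    rw [List.foldl_cons, foldl_testBit c b j l]
    cases hb : b.testBit i with
    | true =>
      simp only [cond_true, Nat.testBit_or, Bool.or_eq_true, Nat.testBit_two_pow,
        decide_eq_true_eq, List.mem_cons, exists_eq_or_imp, hb, true_and]
      tauto
    | false =>
      simp only [cond_false, List.mem_cons, exists_eq_or_imp, hb, Bool.false_eq_true, false_and,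
        false_or]

lemma blk_imask (c b : ℕ) : blk (imask c b) = (blk b).image (sg c) := by
  ext j
  rw [mem_blk, imask, foldl_testBit]
  simp only [Nat.zero_testBit, Bool.false_eq_true, false_or, List.mem_finRange, true_and,
    Finset.mem_image, mem_blk]
  constructor
  · rintro ⟨i, h1, h2⟩; exact ⟨i, h1, Fin.ext h2⟩
  · rintro ⟨i, h1, h2⟩; exact ⟨i, h1, congrArg Fin.val h2⟩

lemma design_perm (σ : Equiv.Perm (Fin 8)) {E : Finset (Finset (Fin 8))} (hE : IsDesign 2 4 3 E) :
    IsDesign 2 4 3 (univ.filter fun b : Finset (Fin 8) => b.image σ ∈ E) := by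
  constructor
  · intro b hb
    rw [← hE.1 _ (Finset.mem_filter.1 hb).2, Finset.card_image_of_injective _ σ.injective]
  · intro T hT
    rw [← hE.2 (T.image σ) (by rw [Finset.card_image_of_injective _ σ.injective, hT])]
    apply Finset.card_bij (fun b _ => b.image σ)
    · intro b hb
      simp only [Finset.mem_filter, Finset.mem_univ, true_and] at hb
      rw [Finset.mem_filter]
      exact ⟨hb.1, Finset.image_subset_image hb.2⟩
    · intro b _ b' _ h
      exact Finset.image_injective σ.injective h
    · intro c hc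
      rw [Finset.mem_filter] at hc
      have e : (c.image σ.symm).image σ = c := by
        rw [Finset.image_image]; simp
      refine ⟨c.image σ.symm, ?_, e⟩
      simp only [Finset.mem_filter, Finset.mem_univ, true_and]
      refine ⟨by rw [e]; exact hc.1, ?_⟩
      have := Finset.image_subset_image (f := σ.symm) hc.2
      rw [Finset.image_image] at this
      simpa using this

lemma D_image (σ : Equiv.Perm (Fin 8)) (h : ∀ b ∈ Dset, b.image σ ∈ Dset) :
    Dset.image (fun b => b.image σ) = Dset := by
  apply Finset.eq_of_subset_of_card_le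
  · intro c hc
    obtain ⟨b, hb, rfl⟩ := Finset.mem_image.1 hc
    exact h b hb
  · rw [Finset.card_image_of_injective _ (Finset.image_injective σ.injective)]

lemma def_perm (σ : Equiv.Perm (Fin 8)) (h : ∀ b ∈ Dset, b.image σ ∈ Dset)
    {R M : Finset (Finset (Fin 8))} (hR : IsDefiningSet 2 4 3 Dset R) (hM : M ⊆ Dset)
    (hRM : ∀ b ∈ R, b.image σ ∈ M) : IsDefiningSet 2 4 3 Dset M := by
  refine ⟨hM, ?_⟩
  intro D' hD' hMD
  have h1 := hR.2 _ (design_perm σ hD') (by
    intro b hb
    simp only [Finset.mem_filter, Finset.mem_univ, true_and]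
    exact hMD (hRM b hb))
  have h2 : D' = Dset.image (fun b => b.image σ) := by
    ext c
    have e : (c.image σ.symm).image σ = c := by
      rw [Finset.image_image]; simp
    constructor
    · intro hc
      rw [Finset.mem_image]
      refine ⟨c.image σ.symm, ?_, e⟩
      rw [← h1]
      simp only [Finset.mem_filter, Finset.mem_univ, true_and]
      rw [e]; exact hc
    · intro hc
      obtain ⟨b, hb, rfl⟩ := Finset.mem_image.1 hc
      rw [← h1] at hb
      simpa using hb
  rw [h2, D_image σ h]

def Tset : Finset (Finset (Fin 8)) := (Tl.map blk).toFinset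

lemma T_D : ∀ b ∈ Tset, b ∈ Dset := by decide +kernel
lemma T_E : ∀ b ∈ Tset, b ∉ Eset := by decide +kernel
lemma D_E : ∀ b ∈ Dset, b ∉ Tset → b ∈ Eset := by decide +kernel
lemma T_ne : Tset.Nonempty := by decide +kernel

lemma not_def (σ : Equiv.Perm (Fin 8)) (h : ∀ b ∈ Dset, b.image σ ∈ Dset)
    {S : Finset (Finset (Fin 8))} (hS : S ⊆ Dset) (hT : ∀ b ∈ Tset, b.image σ ∉ S) :
    ¬ IsDefiningSet 2 4 3 Dset S := by
  intro hdef
  have h1 := hdef.2 _ (design_perm σ.symm design_E) (by
    intro c hc
    simp only [Finset.mem_filter, Finset.mem_univ, true_and]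
    have hcD := hS hc
    rw [← D_image σ h] at hcD
    obtain ⟨b, hb, rfl⟩ := Finset.mem_image.1 hcD
    have e : (b.image σ).image σ.symm = b := by
      rw [Finset.image_image]; simp
    rw [e]
    apply D_E b hb
    intro hbT
    exact hT b hbT hc)
  obtain ⟨b, hb⟩ := T_ne
  have h2 := h b (T_D b hb)
  rw [← h1] at h2
  simp only [Finset.mem_filter, Finset.mem_univ, true_and] at h2
  have e : (b.image σ).image σ.symm = b := by
    rw [Finset.image_image]; simp
  rw [e] at h2
  exact T_E b hb h2

/-! ### tables -/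

/-- the checks for a table entry `(c, m)` with source list `R` -/
def ok (R : List ℕ) (p : ℕ × ℕ) : Bool :=
  (List.finRange 8).all (fun j => (List.finRange 8).any fun i => sg p.1 i == j) &&
    Dl.all (fun b => Dl.contains (imask p.1 b)) &&
    R.all (fun b => p.2.testBit (Dl.idxOf (imask p.1 b)))

end Run7.h622.Hole
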