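import Pool.Agent.Run7.h622.HoleData

/-! A verified search for the designs which contain a given set of blocks. -/

namespace Run7.h622.Hole

open Finset

/-- the search: `l` is the list of the remaining weights with the expected values -/
def run (tgt : ℕ) : List (ℕ × Bool) → ℕ → ℕ → Bool → Bool
  | [], _, c, dev => !dev || !(Nat.beq c tgt)
  | (w, e) :: l, R, c, dev =>
    cond (Nat.blt tgt c) true (cond (Nat.blt (c + R) tgt) true
      (run tgt l (R - w) (c + w) (dev || !e) && run tgt l (R - w) c (dev || e)))

/-- total weight of a selection -/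
def tot : List (ℕ × Bool) → List Bool → ℕ
  | (w, _) :: l, x :: xs => (if x then w else 0) + tot l xs
  | _, _ => 0

lemma tot_le : ∀ (l : List (ℕ × Bool)) (xs : List Bool), tot l xs ≤ (l.map Prod.fst).sum
  | [], xs => by simp [tot]
  | (w, e) :: l, [] => by simp [tot]
  | (w, e) :: l, x :: xs => by
    have := tot_le l xs
    simp only [tot, List.map_cons, List.sum_cons]
    split_ifs <;> omega

lemma run_sound (tgt : ℕ) : ∀ (l : List (ℕ × Bool)) (R c : ℕ) (dev : Bool),
    R = (l.map Prod.fst).sum → run tgt l R c dev = true →
    ∀ xs : List Bool, xs.length = l.length → c + tot l xs = tgt →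
      dev = false ∧ xs = l.map Prod.snd := by
  intro l
  induction l with
  | nil =>
    intro R c dev hR h xs hlen hs
    have hx : xs = [] := List.length_eq_zero_iff.1 hlen
    subst hx
    simp only [tot, add_zero] at hs
    subst hs
    simp only [run, Bool.or_eq_true, Bool.not_eq_true'] at h
    rcases h with h | h
    · exact ⟨h, rfl⟩
    · exfalso
      have : Nat.beq c c = true := Nat.beq_refl c
      rw [h] at this
      exact Bool.false_ne_true this
  | cons p l ih =>
    obtain ⟨w, e⟩ := p
    intro R c dev hR h xs hlen hs
    match xs, hlen with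
    | x :: xs, hlen =>
      simp only [List.length_cons, add_left_inj] at hlen
      have htot := tot_le l xs
      simp only [List.map_cons, List.sum_cons] at hR
      simp only [tot] at hs
      rw [run] at h
      by_cases h1 : Nat.blt tgt c = true
      · exfalso
        have : tgt < c := by simpa using h1
        omega
      by_cases h2 : Nat.blt (c + R) tgt = true
      · exfalso
        have : c + R < tgt := by simpa using h2
        split_ifs at hs <;> omega
      rw [Bool.not_eq_true] at h1 h2
      rw [h1, h2, cond_false, cond_false, Bool.and_eq_true] at h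
      obtain ⟨ha, hb⟩ := h
      cases x with
      | true =>
        simp only [if_true] at hs
        obtain ⟨hd, hx⟩ := ih (R - w) (c + w) (dev || !e) (by omega) ha xs hlen (by omega)
        simp only [Bool.or_eq_false_iff, Bool.not_eq_false'] at hd
        refine ⟨hd.1, ?_⟩
        rw [hx, List.map_cons, hd.2]
      | false =>
        simp only [Bool.false_eq_true, if_false] at hs
        obtain ⟨hd, hx⟩ := ih (R - w) c (dev || e) (by omega) hb xs hlen (by omega)
        simp only [Bool.or_eq_false_iff] at hd
        refine ⟨hd.1, ?_⟩
        rw [hx, List.map_cons, hd.2]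

/-- the weight of a block -/
def W (b : Finset (Fin 8)) : ℕ :=
  ∑ i : Fin 8, ∑ j : Fin 8, if i < j ∧ i ∈ b ∧ j ∈ b then 16 ^ (63 - 8 * (i : ℕ) - (j : ℕ)) else 0

/-- the target weight -/
def target : ℕ :=
  ∑ i : Fin 8, ∑ j : Fin 8, if i < j then 3 * 16 ^ (63 - 8 * (i : ℕ) - (j : ℕ)) else 0

lemma sum_W {D' : Finset (Finset (Fin 8))} (h : IsDesign 2 4 3 D') : ∑ b ∈ D', W b = target := by
  unfold W target
  rw [Finset.sum_comm]
  refine Finset.sum_congr rfl fun i _ => ?_
  rw [Finset.sum_comm]
  refine Finset.sum_congr rfl fun j _ => ?_
  by_cases hij : i < j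
  · simp only [hij, true_and, if_true]
    rw [← Finset.sum_filter, Finset.sum_const, smul_eq_mul]
    congr 1
    have := h.2 {i, j} (Finset.card_pair hij.ne)
    rw [← this]
    congr 1
    ext b
    simp [Finset.insert_subset_iff]
  · simp [hij]

/-- weights of masks, computed fast -/
def wt (m : ℕ) : ℕ :=
  (List.finRange 8).foldl (fun a i => (List.finRange 8).foldl (fun a j =>
    cond (Nat.blt i j && m.testBit i && m.testBit j)
      (a + 16 ^ (63 - 8 * (i : ℕ) - (j : ℕ))) a) a) 0

end Run7.h622.Hole
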