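import Pool.Agent.Run7.h622.HoleMain

/-! Kernel evaluation of the tables. -/

namespace Run7.h622.Hole

lemma okT : OT.all (ok Tl) = true := by decide +kernel
lemma ok6 : O6.all (ok R6) = true := by decide +kernel
lemma ok8 : O8.all (ok R8) = true := by decide +kernel

lemma allD : (List.range (2 ^ 14)).all (fun s =>
    OT.any (fun p => Nat.beq (Nat.land s p.2) 0) ||
      (O6.any (fun p => Nat.beq (Nat.land s p.2) p.2) ||
        O8.any (fun p => Nat.beq (Nat.land s p.2) p.2))) = true := by decide +kernel

lemma sub6 : (List.range 6).all (fun i =>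
    OT.any fun p => (R6.eraseIdx i).all fun b => !p.2.testBit (Dl.idxOf b)) = true := by
  decide +kernel

lemma sub8 : (List.range 8).all (fun i =>
    OT.any fun p => (R8.eraseIdx i).all fun b => !p.2.testBit (Dl.idxOf b)) = true := by
  decide +kernel

end Run7.h622.Hole
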