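import Pool.Agent.Run7.h622.HoleRun

/-! The spectrum of the design of the affine planes of `AG(3,2)` is `{6, 8}`. -/

namespace Run7.h622.Hole

open Finset

def Dset : Finset (Finset (Fin 8)) := (Dl.map blk).toFinset
def Eset : Finset (Finset (Fin 8)) := (El.map blk).toFinset

lemma mem_blk {m : ℕ} {i : Fin 8} : i ∈ blk m ↔ m.testBit i = true := by simp [blk]

lemma blk_inj {m n : ℕ} (hm : m < 256) (hn : n < 256) (h : blk m = blk n) : m = n := by
  apply Nat.eq_of_testBit_eq
  intro i
  by_cases hi : i < 8
  · have h1 : (⟨i, hi⟩ : Fin 8) ∈ blk m ↔ (⟨i, hi⟩ : Fin 8) ∈ blk n := by rw [h]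
    rw [mem_blk, mem_blk] at h1
    rw [Bool.eq_iff_iff]; exact h1
  · have h2 : 256 ≤ 2 ^ i := by
      calc 256 = 2 ^ 8 := by norm_num
        _ ≤ 2 ^ i := Nat.pow_le_pow_right (by norm_num) (by omega)
    rw [Nat.testBit_lt_two_pow (by omega), Nat.testBit_lt_two_pow (by omega)]

lemma design_D : IsDesign 2 4 3 Dset := by
  constructor
  · decide +kernel
  · decide +kernel

lemma design_E : IsDesign 2 4 3 Eset := by
  constructor
  · decide +kernel
  · decide +kernel

lemma L70_all : ∀ b : Finset (Fin 8), b.card = 4 → ∃ m ∈ L70, blk m = b := by decide +kernel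

lemma L70_card : ∀ m ∈ L70, (blk m).card = 4 := by decide +kernel

lemma L70_nodup : L70.Nodup := by decide +kernel

lemma L70_lt : ∀ m ∈ L70, m < 256 := by decide +kernel

lemma Dl_sub : ∀ m ∈ Dl, m ∈ L70 := by decide +kernel

lemma L70_blk_nodup : (L70.map blk).Nodup := by
  apply List.Nodup.map_on _ L70_nodup
  intro x hx y hy h
  exact blk_inj (L70_lt x hx) (L70_lt y hy) h

lemma mem_Dset {m : ℕ} (hm : m ∈ L70) : blk m ∈ Dset ↔ m ∈ Dl := by
  simp only [Dset, List.mem_toFinset, List.mem_map]
  constructor
  · rintro ⟨n, hn, h⟩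
    rw [← blk_inj (L70_lt n (Dl_sub n hn)) (L70_lt m hm) h]; exact hn
  · intro h; exact ⟨m, h, rfl⟩

/-- the masks outside a list -/
def rest (R : List ℕ) : List ℕ := L70.filter fun m => !R.contains m

lemma items6_eq : items6 = (rest R6).map fun m => (W (blk m), Dl.contains m) := by decide +kernel

lemma items8_eq : items8 = (rest R8).map fun m => (W (blk m), Dl.contains m) := by decide +kernel

lemma target_eq : target = 1447401110095525566443106942753320593917999258808322711712467226200012488704 := by decide +kernel

lemma c6_eq : ((L70.filter fun m => R6.contains m).map fun m => W (blk m)).sum = 512399910611556695733085839036569517624559135072641555130207270917894045696 := by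
  decide +kernel

lemma c8_eq : ((L70.filter fun m => R8.contains m).map fun m => W (blk m)).sum = 993313623022480891139895081590698951849952273703986888867650909949141188608 := by
  decide +kernel

lemma s6_eq : 6724605639866071136482448874730033451965437158968972003432128860082168397824 = (items6.map Prod.fst).sum := by decide +kernel

lemma s8_eq : 6243691927455146941075639632175904017740044020337626669694685221050921254912 = (items8.map Prod.fst).sum := by decide +kernel

lemma tot_map (D' : Finset (Finset (Fin 8))) : ∀ l : List ℕ,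
    tot (l.map fun m => (W (blk m), Dl.contains m)) (l.map fun m => decide (blk m ∈ D')) =
      (l.map fun m => if blk m ∈ D' then W (blk m) else 0).sum
  | [] => rfl
  | m :: l => by
    simp only [List.map_cons, tot, List.sum_cons, tot_map D' l, decide_eq_true_eq]

theorem uniq {R : List ℕ} {items : List (ℕ × Bool)} {s c : ℕ}
    (hit : items = (rest R).map fun m => (W (blk m), Dl.contains m))
    (hs : s = (items.map Prod.fst).sum)
    (hc : ((L70.filter fun m => R.contains m).map fun m => W (blk m)).sum = c)
    (hrun : run 1447401110095525566443106942753320593917999258808322711712467226200012488704 items s c false = true) (hR : ∀ m ∈ R, m ∈ Dl)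
    {D' : Finset (Finset (Fin 8))} (hD' : IsDesign 2 4 3 D') (hS : ∀ m ∈ R, blk m ∈ D') :
    D' = Dset := by
  have h1 := sum_W hD'
  have h2 : ∑ b ∈ D', W b = ∑ b ∈ (L70.map blk).toFinset, if b ∈ D' then W b else 0 := by
    rw [← Finset.sum_filter]
    congr 1
    ext b
    simp only [Finset.mem_filter, List.mem_toFinset, List.mem_map]
    constructor
    · intro hb; exact ⟨L70_all b (hD'.1 b hb), hb⟩
    · intro hb; exact hb.2
  rw [h2, List.sum_toFinset _ L70_blk_nodup, List.map_map] at h1
  have hperm := List.filter_append_perm (fun m => R.contains m) L70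
  have h3 := (hperm.map ((fun b => if b ∈ D' then W b else 0) ∘ blk)).sum_eq
  rw [List.map_append, List.sum_append] at h3
  rw [← h3] at h1
  have h4 : ((L70.filter fun m => R.contains m).map
      ((fun b => if b ∈ D' then W b else 0) ∘ blk)).sum = c := by
    rw [← hc]
    congr 1
    apply List.map_congr_left
    intro m hm
    have : m ∈ R := by
      have := (List.mem_filter.1 hm).2
      simpa using this
    simp [hS m this]
  have h5 : ((L70.filter fun m => !R.contains m).map
      ((fun b => if b ∈ D' then W b else 0) ∘ blk)).sum =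
      tot items ((rest R).map fun m => decide (blk m ∈ D')) := by
    rw [hit, tot_map]
    rfl
  rw [h4, h5, target_eq] at h1
  obtain ⟨-, hx⟩ := run_sound _ items s c false hs hrun _ (by rw [hit]; simp) h1
  rw [hit, List.map_map] at hx
  have hx' : ∀ m ∈ rest R, decide (blk m ∈ D') = Dl.contains m := by
    intro m hm
    have := List.map_inj_left.1 hx m hm
    simpa using this
  have key : ∀ m ∈ L70, blk m ∈ D' ↔ m ∈ Dl := by
    intro m hm
    by_cases hmR : m ∈ R
    · exact ⟨fun _ => hR m hmR, fun _ => hS m hmR⟩
    · have := hx' m (List.mem_filter.2 ⟨hm, by simpa using hmR⟩)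
      rw [Bool.eq_iff_iff] at this
      simpa using this
  ext b
  by_cases hb : b.card = 4
  · obtain ⟨m, hm, rfl⟩ := L70_all b hb
    rw [key m hm, mem_Dset hm]
  · exact ⟨fun h => absurd (hD'.1 b h) hb, fun h => absurd (design_D.1 b h) hb⟩

lemma R6_sub : ∀ m ∈ R6, m ∈ Dl := by decide +kernel
lemma R8_sub : ∀ m ∈ R8, m ∈ Dl := by decide +kernel

def R6set : Finset (Finset (Fin 8)) := (R6.map blk).toFinset
def R8set : Finset (Finset (Fin 8)) := (R8.map blk).toFinset

lemma def6 : IsDefiningSet 2 4 3 Dset R6set := by
  refine ⟨by decide +kernel, ?_⟩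
  intro D' hD' hS
  apply uniq items6_eq s6_eq c6_eq run6 R6_sub hD'
  intro m hm
  exact hS (by simp only [R6set, List.mem_toFinset, List.mem_map]; exact ⟨m, hm, rfl⟩)

lemma def8 : IsDefiningSet 2 4 3 Dset R8set := by
  refine ⟨by decide +kernel, ?_⟩
  intro D' hD' hS
  apply uniq items8_eq s8_eq c8_eq run8 R8_sub hD'
  intro m hm
  exact hS (by simp only [R8set, List.mem_toFinset, List.mem_map]; exact ⟨m, hm, rfl⟩)

end Run7.h622.Hole
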