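import Pool.Agent.Run7.h622.SubGen

/-! The classification for all abelian groups. -/

namespace Run7.h622.SubAll

open Run7.h622.SubStruct Run7.h622.SubFG Run7.h622.SubGen

universe u v w

/-- choice of the field -/
lemma exists_field (A : Type*) [AddCommGroup A]
    (hA : ∀ m : ℕ, 1 < m → ¬ m.Prime → ¬ ∃ a : Fin 3 → A, WIndep3 m a) :
    ∃ (K : Type) (_ : Field K), Infinite K ∧
      ∀ q : ℕ, q.Prime → (CharP K q ∨ ¬ ∃ a : Fin 3 → A, WIndep3 q a) := by
  by_cases h : ∃ p : ℕ, p.Prime ∧ ∃ a : Fin 3 → A, WIndep3 p a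
  · obtain ⟨p, hp, a, ha⟩ := h
    have : Fact p.Prime := ⟨hp⟩
    have hinf : Infinite (RatFunc (ZMod p)) :=
      Infinite.of_injective (algebraMap (Polynomial (ZMod p)) (RatFunc (ZMod p)))
        (RatFunc.algebraMap_injective _)
    refine ⟨RatFunc (ZMod p), inferInstance, hinf, ?_⟩
    intro q hq
    by_cases hpq : p = q
    · left
      subst hpq
      have := charP_of_injective_algebraMap (algebraMap (ZMod p) (RatFunc (ZMod p))).injective p
      exact this
    · right
      rintro ⟨b, hb⟩
      refine hA (p * q) ?_ ?_ (windep3_mul hp hq hpq ha hb)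
      · nlinarith [hp.two_le, hq.two_le]
      · exact Nat.not_prime_mul hp.ne_one hq.ne_one
  · refine ⟨ℚ, inferInstance, inferInstance, ?_⟩
    intro q hq
    right
    intro h'
    exact h ⟨q, hq, h'⟩

theorem no_embed_section {A D V : Type*} [AddCommGroup A] [DivisionRing D] [AddCommGroup V]
    [Module D V] {m : ℕ} (hm1 : 1 < m) (hm : ¬ m.Prime) (B : AddSubgroup A)
    (g : B →+ (Fin 3 → ZMod m)) (hg : Function.Surjective g)
    (f : LatticeHom (AddSubgroup A) (Submodule D V)) (hf : Function.Injective f) : False := by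
  refine Run7.h622.SubNec.no_embed (F := fun H => f ((H.comap g).map B.subtype)) ?_ ?_ hm1 hm ?_
  · intro x y
    rw [← AddSubgroup.comap_sup_eq g x y hg, AddSubgroup.map_sup, SupHomClass.map_sup]
  · intro x y
    rw [AddSubgroup.comap_inf, AddSubgroup.map_inf _ _ _ B.subtype_injective, InfHomClass.map_inf]
  · intro x y h
    exact AddSubgroup.comap_injective hg (AddSubgroup.map_injective B.subtype_injective (hf h))

theorem classification (A : Type w) [AddCommGroup A] :
    (∃ (D : Type u) (_ : DivisionRing D) (V : Type (max v w)) (_ : AddCommGroup V)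
      (_ : Module D V) (f : LatticeHom (AddSubgroup A) (Submodule D V)), Function.Injective f) ↔
    ∀ m : ℕ, 1 < m → ¬ m.Prime →
      ¬ ∃ (B : AddSubgroup A) (g : B →+ (Fin 3 → ZMod m)), Function.Surjective g := by
  constructor
  · rintro ⟨D, _, V, _, _, f, hf⟩ m hm1 hm ⟨B, g, hg⟩
    exact no_embed_section hm1 hm B g hg f hf
  · intro h
    have hW : ∀ m : ℕ, 1 < m → ¬ m.Prime → ¬ ∃ a : Fin 3 → A, WIndep3 m a := by
      rintro m hm1 hm ⟨a, ha⟩
      exact h m hm1 hm (section_of_windep3 ha)
    obtain ⟨K, hK, hinf, hchar⟩ := exists_field A hW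
    have hsq : ∀ q : ℕ, q.Prime → ¬ ∃ a : Fin 3 → A, WIndep3 (q ^ 2) a := by
      intro q hq
      apply hW
      · have := hq.two_le
        nlinarith
      · exact Nat.Prime.not_prime_pow le_rfl
    obtain ⟨V, hV1, hV2, f, hf⟩ := embed_all A K hchar hsq
    refine ⟨ULift.{u} K, inferInstance, ULift.{v} (∀ s, V s), inferInstance, inferInstance,
      Run7.h622.SubLift.upHom.{u, v, w}.comp f, ?_⟩
    exact Run7.h622.SubLift.upHom_injective.comp hf

end Run7.h622.SubAll
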