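import Mathlib

/-! Normal form data for submodules of `R × R × E`. -/

namespace Run7.h622.SubData

variable {R k E : Type*} [CommRing R] [IsDomain R] [Field k] [AddCommGroup E] [Module k E]

structure Data (R k E : Type*) [CommRing R] [Field k] [AddCommGroup E] [Module k E] where
  i : ℕ
  j : ℕ
  y : R
  e1 : E
  e2 : E
  Y : Submodule k E

def Mem (π : R) (res : R →+* k) (d : Data R k E) (v : R × R × E) : Prop :=
  ∃ a b : R, v.1 = a * π ^ d.i ∧ v.2.1 = a * d.y + b * π ^ d.j ∧
    v.2.2 - res a • d.e1 - res b • d.e2 ∈ d.Y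

def Cond (π : R) (res : R →+* k) (d d' : Data R k E) : Prop :=
  ∃ (m n : ℕ) (t : R), d.i = d'.i + m ∧ d.j = d'.j + n ∧ d.Y ≤ d'.Y ∧
    d.y = π ^ m * d'.y + t * π ^ d'.j ∧
    d.e1 - res (π ^ m) • d'.e1 - res t • d'.e2 ∈ d'.Y ∧
    d.e2 - res (π ^ n) • d'.e2 ∈ d'.Y

theorem mem_iff_cond {π : R} (h0 : π ≠ 0) (hu : ¬ IsUnit π) (res : R →+* k)
    (d d' : Data R k E) :
    (∀ v, Mem π res d v → Mem π res d' v) ↔ Cond π res d d' := by
  constructor
  · intro h
    obtain ⟨a, t, h1, h2, h3⟩ := h (π ^ d.i, d.y, d.e1) ⟨1, 0, by simp, by simp, by simp⟩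
    obtain ⟨a', b', g1, g2, g3⟩ := h (0, π ^ d.j, d.e2) ⟨0, 1, by simp, by simp, by simp⟩
    simp only at h1 h2 h3 g1 g2 g3
    have ha' : a' = 0 := by
      rcases mul_eq_zero.1 g1.symm with h | h
      · exact h
      · exact absurd h (pow_ne_zero _ h0)
    subst ha'
    have hi : d'.i ≤ d.i := by
      rw [← pow_dvd_pow_iff h0 hu]; exact ⟨a, by rw [h1]; ring⟩
    have hj : d'.j ≤ d.j := by
      rw [← pow_dvd_pow_iff h0 hu]; exact ⟨b', by rw [g2]; ring⟩
    obtain ⟨m, hm⟩ := Nat.exists_eq_add_of_le hi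
    obtain ⟨n, hn⟩ := Nat.exists_eq_add_of_le hj
    have hm' : a = π ^ m := by
      rw [hm, pow_add, mul_comm] at h1
      exact (mul_right_cancel₀ (pow_ne_zero _ h0) h1).symm
    have hn' : b' = π ^ n := by
      rw [hn, pow_add, mul_comm, zero_mul, zero_add] at g2
      exact (mul_right_cancel₀ (pow_ne_zero _ h0) g2).symm
    subst hm' hn'
    refine ⟨m, n, t, hm, hn, ?_, h2, h3, ?_⟩
    · intro z hz
      obtain ⟨a, b, k1, k2, k3⟩ := h (0, 0, z) ⟨0, 0, by simp, by simp, by simpa using hz⟩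
      simp only at k1 k2 k3
      have ha : a = 0 := by
        rcases mul_eq_zero.1 k1.symm with h | h
        · exact h
        · exact absurd h (pow_ne_zero _ h0)
      subst ha
      have hb : b = 0 := by
        rw [zero_mul, zero_add] at k2
        rcases mul_eq_zero.1 k2.symm with h | h
        · exact h
        · exact absurd h (pow_ne_zero _ h0)
      subst hb
      simpa using k3
    · simpa using g3
  · rintro ⟨m, n, t, hi, hj, hY, hy, he1, he2⟩ v ⟨a, b, h1, h2, h3⟩
    refine ⟨a * π ^ m, a * t + b * π ^ n, ?_, ?_, ?_⟩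
    · rw [h1, hi]; ring
    · rw [h2, hy, hj]; ring
    · have e : v.2.2 - res (a * π ^ m) • d'.e1 - res (a * t + b * π ^ n) • d'.e2 =
        (v.2.2 - res a • d.e1 - res b • d.e2) +
          res a • (d.e1 - res (π ^ m) • d'.e1 - res t • d'.e2) +
          res b • (d.e2 - res (π ^ n) • d'.e2) := by
        simp only [map_mul, map_add, smul_sub, add_smul, mul_smul]
        abel
      rw [e]
      exact add_mem (add_mem (hY h3) (Submodule.smul_mem _ _ he1)) (Submodule.smul_mem _ _ he2)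

end Run7.h622.SubData
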