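import Pool.Agent.Run7.h622.SubData

/-! Digit transfer between `ℤ` and power series. -/

namespace Run7.h622.SubDigits

open PowerSeries Run7.h622.SubData

variable {p : ℕ} [hp : Fact p.Prime] {K : Type*} [Field K] (c : ZMod p → K)

/-- the digit series of an integer -/
noncomputable def sharp (y : ℤ) : PowerSeries K :=
  PowerSeries.mk (fun l => c (((y / (p : ℤ) ^ l : ℤ)) : ZMod p))

lemma coeff_sharp (y : ℤ) (l : ℕ) : coeff l (sharp c y) = c (((y / (p : ℤ) ^ l : ℤ)) : ZMod p) := by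
  simp [sharp]

lemma sharp_shift (hc0 : c 0 = 0) (m : ℕ) (y : ℤ) :
    sharp c ((p : ℤ) ^ m * y) = X ^ m * sharp c y := by
  have hp0 : (0 : ℤ) < p := by exact_mod_cast hp.out.pos
  ext l
  rw [coeff_X_pow_mul', coeff_sharp]
  split_ifs with h
  · obtain ⟨r, rfl⟩ := Nat.exists_eq_add_of_le h
    rw [coeff_sharp, pow_add, Int.mul_ediv_mul_of_pos _ _ (pow_pos hp0 m), Nat.add_sub_cancel_left]
  · obtain ⟨r, rfl⟩ := Nat.exists_eq_add_of_lt (not_le.1 h)
    have : ((p : ℤ) ^ (l + r + 1) * y) / (p : ℤ) ^ l = (p : ℤ) * ((p : ℤ) ^ r * y) := by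
      rw [show (p : ℤ) ^ (l + r + 1) * y = (p : ℤ) ^ l * ((p : ℤ) * ((p : ℤ) ^ r * y)) by ring]
      exact Int.mul_ediv_cancel_left _ (pow_pos hp0 l).ne'
    rw [this]
    push_cast
    simp [hc0]

lemma digit_diff {y y2 t : ℤ} {j : ℕ} (h : y = y2 + t * (p : ℤ) ^ j) :
    (((y / (p : ℤ) ^ j : ℤ)) : ZMod p) = (((y2 / (p : ℤ) ^ j : ℤ)) : ZMod p) + (t : ZMod p) := by
  have hp0 : (0 : ℤ) < p := by exact_mod_cast hp.out.pos
  rw [h, Int.add_mul_ediv_right _ _ (pow_pos hp0 j).ne']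
  push_cast
  rfl

lemma digit_eq_of_lt {y y2 : ℤ} {j l : ℕ} (hl : l < j) (h : (p : ℤ) ^ j ∣ y - y2) :
    (((y / (p : ℤ) ^ l : ℤ)) : ZMod p) = (((y2 / (p : ℤ) ^ l : ℤ)) : ZMod p) := by
  obtain ⟨t, ht⟩ := h
  obtain ⟨r, rfl⟩ := Nat.exists_eq_add_of_lt hl
  have h1 : y = y2 + ((p : ℤ) * ((p : ℤ) ^ r * t)) * (p : ℤ) ^ l := by
    have : y = y2 + (y - y2) := by ring
    rw [this, ht]; ring
  rw [digit_diff h1]
  push_cast
  simp

lemma dvd_of_digit_eq {y y2 : ℤ} {j : ℕ} (h : ∀ l < j,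
    (((y / (p : ℤ) ^ l : ℤ)) : ZMod p) = (((y2 / (p : ℤ) ^ l : ℤ)) : ZMod p)) :
    (p : ℤ) ^ j ∣ y - y2 := by
  induction j with
  | zero => simp
  | succ j ih =>
    obtain ⟨t, ht⟩ := ih (fun l hl => h l (by omega))
    have h1 : y = y2 + t * (p : ℤ) ^ j := by
      have : y = y2 + (y - y2) := by ring
      rw [this, ht]; ring
    have h2 := digit_diff h1
    rw [h j (by omega)] at h2
    have h3 : (t : ZMod p) = 0 := by
      have := congrArg (fun z => z - (((y2 / (p : ℤ) ^ j : ℤ)) : ZMod p)) h2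
      simpa using this.symm
    obtain ⟨s, hs⟩ := (ZMod.intCast_zmod_eq_zero_iff_dvd t p).1 h3
    exact ⟨s, by rw [ht, hs]; ring⟩

lemma X_pow_dvd_sharp (hci : Function.Injective c) {y y2 : ℤ} {j : ℕ} :
    (X : PowerSeries K) ^ j ∣ sharp c y - sharp c y2 ↔ (p : ℤ) ^ j ∣ y - y2 := by
  rw [X_pow_dvd_iff]
  constructor
  · intro h
    apply dvd_of_digit_eq
    intro l hl
    have := h l hl
    rw [map_sub, coeff_sharp, coeff_sharp, sub_eq_zero] at this
    exact hci this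
  · intro h l hl
    rw [map_sub, coeff_sharp, coeff_sharp, digit_eq_of_lt hl h, sub_self]

section
variable {ι : Type*} [Finite ι]

/-- the transferred data -/
noncomputable def shData (d : Data ℤ (ZMod p) (ι → ZMod p)) : Data (PowerSeries K) K (ι → K) where
  i := d.i
  j := d.j
  y := sharp c d.y
  e1 := c ∘ d.e1
  e2 := c ∘ d.e2
  Y := Submodule.span K ((fun e => c ∘ e) '' (d.Y : Set (ι → ZMod p)))

lemma bar_mem (hι : IsEmpty ι ∨ ∃ φ : ZMod p →+* K, ∀ x, c x = φ x)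
    (Y : Submodule (ZMod p) (ι → ZMod p)) (e : ι → ZMod p) :
    c ∘ e ∈ Submodule.span K ((fun e => c ∘ e) '' (Y : Set (ι → ZMod p))) ↔ e ∈ Y := by
  constructor
  · intro h
    rcases hι with hι | ⟨φ, hφ⟩
    · have : e = 0 := Subsingleton.elim _ _
      rw [this]; exact zero_mem _
    by_contra hne
    obtain ⟨f, hf, hY⟩ := Submodule.exists_le_ker_of_notMem hne
    cases nonempty_fintype ι
    classical
    let g : (ι → K) →ₗ[K] K := ∑ i, φ (f (fun j => if i = j then 1 else 0)) • LinearMap.proj i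
    have hg : ∀ v : ι → ZMod p, g (c ∘ v) = φ (f v) := by
      intro v
      have h1 := LinearMap.pi_apply_eq_sum_univ f v
      rw [h1, map_sum]
      simp only [g, LinearMap.sum_apply, LinearMap.smul_apply, LinearMap.proj_apply,
        Function.comp_apply, smul_eq_mul, map_mul, hφ]
      exact Finset.sum_congr rfl fun i _ => mul_comm _ _
    have hle : Submodule.span K ((fun e => c ∘ e) '' (Y : Set (ι → ZMod p))) ≤
        LinearMap.ker g := by
      rw [Submodule.span_le]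
      rintro _ ⟨v, hv, rfl⟩
      rw [SetLike.mem_coe, LinearMap.mem_ker, hg, LinearMap.mem_ker.1 (hY hv), map_zero]
    have := hle h
    rw [LinearMap.mem_ker, hg] at this
    exact hf ((map_eq_zero φ).1 this)
  · intro h
    exact Submodule.subset_span ⟨e, h, rfl⟩

lemma span_le_iff (hι : IsEmpty ι ∨ ∃ φ : ZMod p →+* K, ∀ x, c x = φ x)
    (Y Y' : Submodule (ZMod p) (ι → ZMod p)) :
    Submodule.span K ((fun e => c ∘ e) '' (Y : Set (ι → ZMod p))) ≤
      Submodule.span K ((fun e => c ∘ e) '' (Y' : Set (ι → ZMod p))) ↔ Y ≤ Y' := by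
  constructor
  · intro h v hv
    rw [← bar_mem c hι]
    exact h ((bar_mem c hι _ _).2 hv)
  · intro h
    rw [Submodule.span_le]
    rintro _ ⟨v, hv, rfl⟩
    exact (bar_mem c hι _ _).2 (h hv)

lemma comb_mem (hι : IsEmpty ι ∨ ∃ φ : ZMod p →+* K, ∀ x, c x = φ x)
    (Y : Submodule (ZMod p) (ι → ZMod p)) (e e1 e2 : ι → ZMod p) (r t : ZMod p) (r' t' : K)
    (hr : Nonempty ι → r' = c r) (ht : Nonempty ι → t' = c t) :
    c ∘ e - r' • (c ∘ e1) - t' • (c ∘ e2) ∈
      Submodule.span K ((fun e => c ∘ e) '' (Y : Set (ι → ZMod p))) ↔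
      e - r • e1 - t • e2 ∈ Y := by
  rw [← bar_mem c hι]
  rcases hι with hι | ⟨φ, hφ⟩
  · rw [Subsingleton.elim (c ∘ e - r' • (c ∘ e1) - t' • (c ∘ e2)) (c ∘ (e - r • e1 - t • e2))]
  · rcases isEmpty_or_nonempty ι with hι | hι
    · rw [Subsingleton.elim (c ∘ e - r' • (c ∘ e1) - t' • (c ∘ e2)) (c ∘ (e - r • e1 - t • e2))]
    have : c ∘ e - r' • (c ∘ e1) - t' • (c ∘ e2) = c ∘ (e - r • e1 - t • e2) := by
      rw [hr hι, ht hι]
      funext i
      simp [hφ]
    rw [this]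

theorem cond_iff (hc0 : c 0 = 0) (hci : Function.Injective c)
    (hι : IsEmpty ι ∨ ∃ φ : ZMod p →+* K, ∀ x, c x = φ x)
    (d d' : Data ℤ (ZMod p) (ι → ZMod p)) :
    Cond (X : PowerSeries K) (constantCoeff (R := K)) (shData c d) (shData c d') ↔
      Cond (p : ℤ) (Int.castRingHom (ZMod p)) d d' := by
  have hX : ∀ m : ℕ, Nonempty ι →
      constantCoeff ((X : PowerSeries K) ^ m) = c (Int.castRingHom (ZMod p) ((p : ℤ) ^ m)) := by
    intro m hne
    rcases hι with hι | ⟨φ, hφ⟩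
    · exact absurd hne (not_nonempty_iff.2 hι)
    rw [hφ]
    simp
  constructor
  · rintro ⟨m, n, q, hi, hj, hY, hy, he1, he2⟩
    simp only [shData] at hi hj hY hy he1 he2
    rw [← sharp_shift c hc0] at hy
    have hdvd : (p : ℤ) ^ d'.j ∣ d.y - (p : ℤ) ^ m * d'.y := by
      rw [← X_pow_dvd_sharp c hci]
      exact ⟨q, by rw [hy]; ring⟩
    obtain ⟨t, ht⟩ := hdvd
    have ht' : d.y = (p : ℤ) ^ m * d'.y + t * (p : ℤ) ^ d'.j := by linear_combination ht
    have hq : Nonempty ι → constantCoeff q = c (Int.castRingHom (ZMod p) t) := by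
      intro hne
      rcases hι with hι | ⟨φ, hφ⟩
      · exact absurd hne (not_nonempty_iff.2 hι)
      have h1 := congrArg (coeff d'.j) hy
      rw [map_add, coeff_mul_X_pow', coeff_sharp, coeff_sharp, digit_diff ht'] at h1
      simp only [le_refl, if_true, Nat.sub_self, coeff_zero_eq_constantCoeff, hφ, map_add] at h1
      rw [hφ]
      simpa using (add_left_cancel h1).symm
    refine ⟨m, n, t, hi, hj, (span_le_iff c hι _ _).1 hY, ht', ?_, ?_⟩
    · exact (comb_mem c hι d'.Y d.e1 d'.e1 d'.e2 _ _ _ _ (hX m) hq).1 he1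
    · have := (comb_mem c hι d'.Y d.e2 d'.e2 0 _ 0 _ 0 (hX n) (fun _ => hc0.symm)).1
        (by simpa using he2)
      simpa using this
  · rintro ⟨m, n, t, hi, hj, hY, hy, he1, he2⟩
    have hdvd : (X : PowerSeries K) ^ d'.j ∣ sharp c d.y - sharp c ((p : ℤ) ^ m * d'.y) := by
      rw [X_pow_dvd_sharp c hci]
      exact ⟨t, by rw [hy]; ring⟩
    obtain ⟨q, hq⟩ := hdvd
    have hq' : sharp c d.y = sharp c ((p : ℤ) ^ m * d'.y) + q * X ^ d'.j := by
      linear_combination hq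
    have hqc : Nonempty ι → constantCoeff q = c (Int.castRingHom (ZMod p) t) := by
      intro hne
      rcases hι with hι | ⟨φ, hφ⟩
      · exact absurd hne (not_nonempty_iff.2 hι)
      have h1 := congrArg (coeff d'.j) hq'
      rw [map_add, coeff_mul_X_pow', coeff_sharp, coeff_sharp, digit_diff hy] at h1
      simp only [le_refl, if_true, Nat.sub_self, coeff_zero_eq_constantCoeff, hφ, map_add] at h1
      rw [hφ]
      simpa using (add_left_cancel h1).symm
    refine ⟨m, n, q, hi, hj, (span_le_iff c hι _ _).2 hY, ?_, ?_, ?_⟩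
    · simp only [shData]
      rw [← sharp_shift c hc0]; exact hq'
    · exact (comb_mem c hι d'.Y d.e1 d'.e1 d'.e2 _ _ _ _ (hX m) hqc).2 he1
    · have := (comb_mem c hι d'.Y d.e2 d'.e2 0 _ 0 _ 0 (hX n) (fun _ => hc0.symm)).2
        (by simpa using he2)
      simpa [shData] using this

end

end Run7.h622.SubDigits
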