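import Mathlib

/-! Two gluing constructions of lattice homs into subspace lattices. -/

namespace Run7.h622.SubGlue

section inverse

/-! Gluing along a decreasing sequence `N n` -/

variable {L : Type*} [Lattice L] {K : Type*} [Field K] {V : ℕ → Type*}
  [∀ n, AddCommGroup (V n)] [∀ n, Module K (V n)] (N : ℕ → L) (hN : Antitone N)
  (F : ∀ n, L → Submodule K (V n)) (hFm : ∀ n, Monotone (F n))
  (hFs : ∀ n x y, F n (x ⊔ y) = F n x ⊔ F n y)
  (hFi : ∀ n x y, N n ≤ x → N n ≤ y → F n (x ⊓ y) = F n x ⊓ F n y)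
  (hFc : ∀ n x y, N n ≤ y → F n x ≤ F n y → x ≤ y)

include hFm in
/-- the glued map -/
def theta (x : L) : Submodule K (∀ n, V n) where
  carrier := {v | ∀ j, ∃ n0, ∀ n, n0 ≤ n → v n ∈ F n (x ⊔ N j)}
  zero_mem' := fun j => ⟨0, fun n _ => zero_mem _⟩
  add_mem' := by
    intro a b ha hb j
    obtain ⟨n1, h1⟩ := ha j
    obtain ⟨n2, h2⟩ := hb j
    exact ⟨max n1 n2, fun n hn => add_mem (h1 n (le_of_max_le_left hn))
      (h2 n (le_of_max_le_right hn))⟩
  smul_mem' := by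
    intro c a ha j
    obtain ⟨n1, h1⟩ := ha j
    exact ⟨n1, fun n hn => Submodule.smul_mem _ _ (h1 n hn)⟩

lemma mem_theta {x : L} {v : ∀ n, V n} :
    v ∈ theta N F x ↔ ∀ j, ∃ n0, ∀ n, n0 ≤ n → v n ∈ F n (x ⊔ N j) := Iff.rfl

include hFm in
lemma theta_mono {x y : L} (h : x ≤ y) : theta N F x ≤ theta N F y := by
  intro v hv j
  obtain ⟨n0, h0⟩ := hv j
  exact ⟨n0, fun n hn => hFm n (sup_le_sup_right h _) (h0 n hn)⟩

include hN hFm hFs in
lemma theta_sup (x y : L) : theta N F (x ⊔ y) = theta N F x ⊔ theta N F y := by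
  classical
  apply le_antisymm
  · intro v hv
    rw [mem_theta] at hv
    choose n0 h0 using hv
    let J : ℕ → ℕ := fun n => Nat.findGreatest (fun j => v n ∈ F n (x ⊔ y ⊔ N j)) n
    have hJ : ∀ n, v n ∈ F n (x ⊔ y ⊔ N 0) → v n ∈ F n (x ⊔ y ⊔ N (J n)) := by
      intro n hn
      exact Nat.findGreatest_spec (P := fun j => v n ∈ F n (x ⊔ y ⊔ N j)) (Nat.zero_le n) hn
    have hdec : ∀ n, ∃ a b, a + b = v n ∧ (v n ∈ F n (x ⊔ y ⊔ N 0) →
        a ∈ F n (x ⊔ N (J n)) ∧ b ∈ F n (y ⊔ N (J n))) := by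
      intro n
      by_cases h : v n ∈ F n (x ⊔ y ⊔ N 0)
      · have h1 := hJ n h
        have h2 : x ⊔ y ⊔ N (J n) = (x ⊔ N (J n)) ⊔ (y ⊔ N (J n)) := by
          rw [← sup_sup_distrib_right]
        rw [h2, hFs] at h1
        obtain ⟨a, ha, b, hb, hab⟩ := Submodule.mem_sup.1 h1
        exact ⟨a, b, hab, fun _ => ⟨ha, hb⟩⟩
      · exact ⟨v n, 0, add_zero _, fun h' => absurd h' h⟩
    choose a b hab hm using hdec
    have hlarge : ∀ j n, n0 j ≤ n → n0 0 ≤ n → j ≤ n →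
        a n ∈ F n (x ⊔ N j) ∧ b n ∈ F n (y ⊔ N j) := by
      intro j n h1 h2 h3
      have h4 := hm n (h0 0 n h2)
      have h5 : j ≤ J n := Nat.le_findGreatest h3 (h0 j n h1)
      exact ⟨hFm n (sup_le_sup_left (hN h5) _) h4.1, hFm n (sup_le_sup_left (hN h5) _) h4.2⟩
    rw [Submodule.mem_sup]
    refine ⟨a, ?_, b, ?_, funext hab⟩
    · intro j
      exact ⟨max (n0 j) (max (n0 0) j), fun n hn => (hlarge j n (le_of_max_le_left hn)
        (le_of_max_le_left (le_of_max_le_right hn))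
        (le_of_max_le_right (le_of_max_le_right hn))).1⟩
    · intro j
      exact ⟨max (n0 j) (max (n0 0) j), fun n hn => (hlarge j n (le_of_max_le_left hn)
        (le_of_max_le_left (le_of_max_le_right hn))
        (le_of_max_le_right (le_of_max_le_right hn))).2⟩
  · exact sup_le (theta_mono N F hFm le_sup_left) (theta_mono N F hFm le_sup_right)

include hN hFm hFi in
lemma theta_inf (hAR : ∀ x y j, ∃ i, (x ⊔ N i) ⊓ (y ⊔ N i) ≤ (x ⊓ y) ⊔ N j) (x y : L) :
    theta N F (x ⊓ y) = theta N F x ⊓ theta N F y := by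
  apply le_antisymm
  · exact le_inf (theta_mono N F hFm inf_le_left) (theta_mono N F hFm inf_le_right)
  · rintro v ⟨hx, hy⟩ j
    obtain ⟨i, hi⟩ := hAR x y j
    obtain ⟨n1, h1⟩ := hx i
    obtain ⟨n2, h2⟩ := hy i
    refine ⟨max (max n1 n2) i, fun n hn => ?_⟩
    have hin : i ≤ n := le_of_max_le_right hn
    have h3 := h1 n (le_of_max_le_left (le_of_max_le_left hn))
    have h4 := h2 n (le_of_max_le_right (le_of_max_le_left hn))
    have h5 : v n ∈ F n ((x ⊔ N i) ⊓ (y ⊔ N i)) := by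
      rw [hFi n _ _ ((hN hin).trans le_sup_right) ((hN hin).trans le_sup_right)]
      exact ⟨h3, h4⟩
    exact hFm n hi h5

include hN hFm hFc in
lemma theta_inj (hSEP : ∀ x y, (∀ j, x ≤ y ⊔ N j) → x ≤ y) {x y : L}
    (h : theta N F x ≤ theta N F y) : x ≤ y := by
  classical
  by_contra hxy
  have : ∃ j, ¬ x ≤ y ⊔ N j := by
    by_contra hcon
    push Not at hcon
    exact hxy (hSEP x y hcon)
  obtain ⟨j, hj⟩ := this
  have hv : ∀ n, ∃ v : V n, v ∈ F n x ∧ (j ≤ n → v ∉ F n (y ⊔ N j)) := by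
    intro n
    by_cases hn : j ≤ n
    · have h1 : ¬ F n x ≤ F n (y ⊔ N j) := by
        intro h1
        exact hj (hFc n _ _ ((hN hn).trans le_sup_right) h1)
      obtain ⟨v, hv1, hv2⟩ := SetLike.not_le_iff_exists.1 h1
      exact ⟨v, hv1, fun _ => hv2⟩
    · exact ⟨0, zero_mem _, fun h => absurd h hn⟩
  choose v hv1 hv2 using hv
  have h1 : v ∈ theta N F x := fun i => ⟨0, fun n _ => hFm n le_sup_left (hv1 n)⟩
  obtain ⟨n0, h0⟩ := h h1 j
  exact hv2 (max n0 j) (le_max_right _ _) (h0 _ (le_max_left _ _))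

end inverse

section direct

/-! Gluing along finite subsets -/

variable {A : Type*} [AddCommGroup A] {K : Type*} [Field K] {V : Finset A → Type*}
  [∀ s, AddCommGroup (V s)] [∀ s, Module K (V s)]
  (G : ∀ s, AddSubgroup A → Submodule K (V s)) (hGi : ∀ s x y, G s (x ⊓ y) = G s x ⊓ G s y)
  (hGs : ∀ (s : Finset A) (x y : AddSubgroup A), x ≤ AddSubgroup.closure s →
    y ≤ AddSubgroup.closure s → G s (x ⊔ y) = G s x ⊔ G s y)
  (hGc : ∀ (s : Finset A) (x y : AddSubgroup A), x ≤ AddSubgroup.closure s → G s x ≤ G s y → x ≤ y)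

include hGi in
lemma G_mono (s : Finset A) {x y : AddSubgroup A} (h : x ≤ y) : G s x ≤ G s y := by
  have := hGi s x y
  rw [inf_eq_left.2 h] at this
  rw [this]; exact inf_le_right

/-- the glued map -/
def psi (hGi : ∀ s x y, G s (x ⊓ y) = G s x ⊓ G s y) (H : AddSubgroup A) :
    Submodule K (∀ s, V s) where
  carrier := {v | ∃ X : AddSubgroup A, X ≤ H ∧ X.FG ∧ ∃ s0 : Finset A, ∀ s, s0 ⊆ s → v s ∈ G s X}
  zero_mem' := ⟨⊥, bot_le, AddSubgroup.FG.bot, ∅, fun s _ => zero_mem _⟩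
  add_mem' := by
    classical
    rintro a b ⟨X, hX, hXf, s1, h1⟩ ⟨Y, hY, hYf, s2, h2⟩
    refine ⟨X ⊔ Y, sup_le hX hY, hXf.sup hYf, s1 ∪ s2, fun s hs => ?_⟩
    exact add_mem (G_mono G hGi s le_sup_left (h1 s (Finset.union_subset_left hs)))
      (G_mono G hGi s le_sup_right (h2 s (Finset.union_subset_right hs)))
  smul_mem' := by
    rintro c a ⟨X, hX, hXf, s1, h1⟩
    exact ⟨X, hX, hXf, s1, fun s hs => Submodule.smul_mem _ _ (h1 s hs)⟩

lemma mem_psi {H : AddSubgroup A} {v : ∀ s, V s} : v ∈ psi G hGi H ↔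
    ∃ X : AddSubgroup A, X ≤ H ∧ X.FG ∧ ∃ s0 : Finset A, ∀ s, s0 ⊆ s → v s ∈ G s X := Iff.rfl

lemma psi_mono {H H' : AddSubgroup A} (h : H ≤ H') : psi G hGi H ≤ psi G hGi H' := by
  rintro v ⟨X, hX, hX'⟩
  exact ⟨X, hX.trans h, hX'⟩

omit [AddCommGroup A] in
lemma fg_decomp [AddCommGroup A] {X H H' : AddSubgroup A} (hX : X.FG) (h : X ≤ H ⊔ H') :
    ∃ X1 X2 : AddSubgroup A, X1.FG ∧ X2.FG ∧ X1 ≤ H ∧ X2 ≤ H' ∧ X ≤ X1 ⊔ X2 := by
  classical
  obtain ⟨t, ht⟩ := hX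
  have : ∀ x : t, ∃ a ∈ H, ∃ b ∈ H', a + b = (x : A) := by
    intro x
    have : (x : A) ∈ H ⊔ H' := h (by rw [← ht]; exact AddSubgroup.subset_closure x.2)
    exact AddSubgroup.mem_sup.1 this
  choose a ha b hb hab using this
  refine ⟨AddSubgroup.closure (Finset.univ.image a), AddSubgroup.closure (Finset.univ.image b),
    ⟨_, rfl⟩, ⟨_, rfl⟩, ?_, ?_, ?_⟩
  · rw [AddSubgroup.closure_le]
    intro x hx
    simp only [Finset.coe_image, Finset.coe_univ, Set.image_univ, Set.mem_range] at hx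
    obtain ⟨y, rfl⟩ := hx
    exact ha y
  · rw [AddSubgroup.closure_le]
    intro x hx
    simp only [Finset.coe_image, Finset.coe_univ, Set.image_univ, Set.mem_range] at hx
    obtain ⟨y, rfl⟩ := hx
    exact hb y
  · rw [← ht, AddSubgroup.closure_le]
    intro x hx
    have hx' : x ∈ t := hx
    rw [SetLike.mem_coe, AddSubgroup.mem_sup]
    refine ⟨a ⟨x, hx'⟩, AddSubgroup.subset_closure ?_, b ⟨x, hx'⟩, AddSubgroup.subset_closure ?_,
      hab ⟨x, hx'⟩⟩
    · simp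
    · simp

include hGs in
lemma psi_sup (H H' : AddSubgroup A) : psi G hGi (H ⊔ H') = psi G hGi H ⊔ psi G hGi H' := by
  classical
  apply le_antisymm
  · rintro v ⟨X, hX, hXf, s0, h0⟩
    obtain ⟨X1, X2, ⟨t1, ht1⟩, ⟨t2, ht2⟩, hX1, hX2, hle⟩ := fg_decomp hXf hX
    have hdec : ∀ s : Finset A, ∃ a b, a + b = v s ∧ (s0 ∪ (t1 ∪ t2) ⊆ s →
        a ∈ G s X1 ∧ b ∈ G s X2) := by
      intro s
      by_cases hs : s0 ∪ (t1 ∪ t2) ⊆ s
      · have h1 : t1 ⊆ s := Finset.union_subset_left (Finset.union_subset_right hs)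
        have h2 : t2 ⊆ s := Finset.union_subset_right (Finset.union_subset_right hs)
        have h3 := G_mono G hGi s hle (h0 s (Finset.union_subset_left hs))
        rw [hGs s X1 X2 (by rw [← ht1]; exact AddSubgroup.closure_mono (by exact_mod_cast h1))
          (by rw [← ht2]; exact AddSubgroup.closure_mono (by exact_mod_cast h2))] at h3
        obtain ⟨a, ha, b, hb, hab⟩ := Submodule.mem_sup.1 h3
        exact ⟨a, b, hab, fun _ => ⟨ha, hb⟩⟩
      · exact ⟨v s, 0, add_zero _, fun h => absurd h hs⟩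
    choose a b hab hm using hdec
    rw [Submodule.mem_sup]
    refine ⟨a, ⟨X1, hX1, ⟨t1, ht1⟩, s0 ∪ (t1 ∪ t2), fun s hs => (hm s hs).1⟩,
      b, ⟨X2, hX2, ⟨t2, ht2⟩, s0 ∪ (t1 ∪ t2), fun s hs => (hm s hs).2⟩, funext hab⟩
  · exact sup_le (psi_mono G hGi le_sup_left) (psi_mono G hGi le_sup_right)

lemma psi_inf (hfg : ∀ X Y : AddSubgroup A, X.FG → (X ⊓ Y).FG) (H H' : AddSubgroup A) :
    psi G hGi (H ⊓ H') = psi G hGi H ⊓ psi G hGi H' := by
  classical
  apply le_antisymm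
  · exact le_inf (psi_mono G hGi inf_le_left) (psi_mono G hGi inf_le_right)
  · rintro v ⟨⟨X, hX, hXf, s1, h1⟩, ⟨Y, hY, hYf, s2, h2⟩⟩
    refine ⟨X ⊓ Y, inf_le_inf hX hY, hfg X Y hXf, s1 ∪ s2, fun s hs => ?_⟩
    rw [hGi]
    exact ⟨h1 s (Finset.union_subset_left hs), h2 s (Finset.union_subset_right hs)⟩

include hGc in
lemma psi_inj {H H' : AddSubgroup A} (h : psi G hGi H ≤ psi G hGi H') : H ≤ H' := by
  classical
  intro x hx
  by_contra hxH
  set X := AddSubgroup.closure ({x} : Set A) with hX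
  have hxX : x ∈ X := AddSubgroup.subset_closure rfl
  have hv : ∀ s : Finset A, ∃ v : V s, v ∈ G s X ∧ (x ∈ s → v ∉ G s (X ⊓ H')) := by
    intro s
    by_cases hs : x ∈ s
    · have h1 : ¬ G s X ≤ G s (X ⊓ H') := by
        intro h1
        have h2 := hGc s X (X ⊓ H') (by
          rw [hX, AddSubgroup.closure_le]
          rintro y rfl
          exact AddSubgroup.subset_closure hs) h1
        exact hxH (h2 hxX).2
      obtain ⟨v, hv1, hv2⟩ := SetLike.not_le_iff_exists.1 h1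
      exact ⟨v, hv1, fun _ => hv2⟩
    · exact ⟨0, zero_mem _, fun h => absurd h hs⟩
  choose v hv1 hv2 using hv
  have h1 : v ∈ psi G hGi H := by
    refine ⟨X, ?_, ⟨{x}, by simp [hX]⟩, ∅, fun s _ => hv1 s⟩
    rw [hX, AddSubgroup.closure_le]
    rintro y rfl
    exact hx
  obtain ⟨Z, hZ, -, s0, h0⟩ := h h1
  have h2 := h0 (insert x s0) (Finset.subset_insert _ _)
  apply hv2 (insert x s0) (Finset.mem_insert_self _ _)
  have h3 : v (insert x s0) ∈ G (insert x s0) (X ⊓ Z) := by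
    rw [hGi]; exact ⟨hv1 _, h2⟩
  exact G_mono G hGi _ (inf_le_inf_left X hZ) h3

end direct

end Run7.h622.SubGlue
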