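import Pool.Agent.Run7.h622.SubFinal
import Pool.Agent.Run7.h622.SubGlue

/-! Finitely generated abelian groups. -/

namespace Run7.h622.SubFG

open Run7.h622.SubStruct

/-- weak independence: relations are divisible by `m` -/
def WIndep3 {A : Type*} [AddCommGroup A] (m : ℕ) (a : Fin 3 → A) : Prop :=
  ∀ k : Fin 3 → ℤ, ∑ t, k t • a t = 0 → ∀ t, (m : ℤ) ∣ k t

lemma windep3_of_map {A B : Type*} [AddCommGroup A] [AddCommGroup B] (f : A →+ B) {m : ℕ}
    {a : Fin 3 → A} (h : WIndep3 m (fun t => f (a t))) : WIndep3 m a := by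
  intro k hk
  apply h k
  have := congrArg f hk
  rw [map_sum, map_zero] at this
  rw [← this]
  exact Finset.sum_congr rfl fun t _ => (map_zsmul f _ _).symm

lemma windep3_map {A B : Type*} [AddCommGroup A] [AddCommGroup B] (f : A →+ B)
    (hf : Function.Injective f) {m : ℕ}
    {a : Fin 3 → A} (h : WIndep3 m a) : WIndep3 m (fun t => f (a t)) := by
  intro k hk
  apply h k
  apply hf
  rw [map_sum, map_zero, ← hk]
  exact Finset.sum_congr rfl fun t _ => map_zsmul f _ _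

section tors

variable {A : Type*} [AddCommGroup A] [hA : Module.Finite ℤ A]

include hA in
lemma exists_exponent (H : AddSubgroup A) :
    ∃ t : ℕ, 0 < t ∧ ∀ (x : A) (n : ℤ), n ≠ 0 → n • x ∈ H → (t : ℤ) • x ∈ H := by
  have h1 : Module.Finite ℤ (A ⧸ H) :=
    Module.Finite.of_surjective (QuotientAddGroup.mk' H).toIntLinearMap
      (QuotientAddGroup.mk'_surjective H)
  have h2 : Module.IsTorsion ℤ (Submodule.torsion ℤ (A ⧸ H)) := Submodule.torsion_isTorsion
  have h3 : Finite (Submodule.torsion ℤ (A ⧸ H)) := Module.finite_of_fg_torsion _ h2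
  refine ⟨Nat.card (Submodule.torsion ℤ (A ⧸ H)), Nat.card_pos, ?_⟩
  intro x n hn hx
  have hmem : (QuotientAddGroup.mk x : A ⧸ H) ∈ Submodule.torsion ℤ (A ⧸ H) := by
    rw [Submodule.mem_torsion_iff]
    refine ⟨⟨n, mem_nonZeroDivisors_of_ne_zero hn⟩, ?_⟩
    show n • (QuotientAddGroup.mk x : A ⧸ H) = 0
    rw [← QuotientAddGroup.mk_zsmul, QuotientAddGroup.eq_zero_iff]
    exact hx
  have h4 : Nat.card (Submodule.torsion ℤ (A ⧸ H)) •
      (⟨_, hmem⟩ : Submodule.torsion ℤ (A ⧸ H)) = 0 := card_nsmul_eq_zero'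
  have h5 := congrArg (Subtype.val) h4
  rw [← QuotientAddGroup.eq_zero_iff, QuotientAddGroup.mk_zsmul, natCast_zsmul]
  simpa using h5

/-- the subgroup `n! A` -/
def NN (A : Type*) [AddCommGroup A] (n : ℕ) : AddSubgroup A :=
  (nsmulAddMonoidHom (α := A) n.factorial).range

omit hA in
lemma mem_NN {n : ℕ} {x : A} : x ∈ NN A n ↔ ∃ y : A, n.factorial • y = x := by
  simp [NN]

omit hA in
lemma NN_antitone : Antitone (NN A) := by
  intro i j hij x hx
  rw [mem_NN] at hx ⊢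
  obtain ⟨y, rfl⟩ := hx
  obtain ⟨r, hr⟩ := Nat.factorial_dvd_factorial hij
  exact ⟨r • y, by rw [hr, mul_nsmul']⟩

include hA in
lemma AR (H H' : AddSubgroup A) (j : ℕ) :
    ∃ i, (H ⊔ NN A i) ⊓ (H' ⊔ NN A i) ≤ (H ⊓ H') ⊔ NN A j := by
  obtain ⟨t, ht0, ht⟩ := exists_exponent (H ⊔ H')
  have hpos : 0 < t * j.factorial := Nat.mul_pos ht0 (Nat.factorial_pos j)
  refine ⟨t * j.factorial, ?_⟩
  set i := t * j.factorial with hi
  obtain ⟨r, hr⟩ : i ∣ i.factorial := Nat.dvd_factorial hpos le_rfl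
  rintro x ⟨hx1, hx2⟩
  obtain ⟨h, hh, n1, hn1, hs1⟩ := AddSubgroup.mem_sup.1 hx1
  obtain ⟨h', hh', n2, hn2, hs2⟩ := AddSubgroup.mem_sup.1 hx2
  obtain ⟨a, rfl⟩ := mem_NN.1 hn1
  obtain ⟨a', rfl⟩ := mem_NN.1 hn2
  have e1 : h - h' = (i.factorial : ℤ) • (a' - a) := by
    rw [natCast_zsmul, nsmul_sub]
    have : h + i.factorial • a = h' + i.factorial • a' := hs1.trans hs2.symm
    rw [sub_eq_sub_iff_add_eq_add]
    rw [this]; abel
  have h2 : (t : ℤ) • (a' - a) ∈ H ⊔ H' := by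
    apply ht (a' - a) (i.factorial : ℤ) (by exact_mod_cast (Nat.factorial_pos i).ne')
    rw [← e1]
    exact sub_mem (AddSubgroup.mem_sup_left hh) (AddSubgroup.mem_sup_right hh')
  obtain ⟨u, hu, u', hu', huu⟩ := AddSubgroup.mem_sup.1 h2
  have e2 : h - h' = ((j.factorial * r : ℕ) : ℤ) • (u + u') := by
    rw [e1, huu, ← mul_smul, hr, hi]
    congr 1
    push_cast
    ring
  have e3 : h - ((j.factorial * r : ℕ) : ℤ) • u = h' + ((j.factorial * r : ℕ) : ℤ) • u' := by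
    rw [smul_add] at e2
    rw [sub_eq_iff_eq_add]
    rw [sub_eq_iff_eq_add] at e2
    rw [e2]; abel
  rw [AddSubgroup.mem_sup]
  refine ⟨h - ((j.factorial * r : ℕ) : ℤ) • u,
    AddSubgroup.mem_inf.2 ⟨sub_mem hh (zsmul_mem hu _), ?_⟩,
    ((j.factorial * r : ℕ) : ℤ) • u + i.factorial • a, ?_, ?_⟩
  · rw [e3]; exact add_mem hh' (zsmul_mem hu' _)
  · rw [mem_NN]
    refine ⟨r • u + (r * t) • a, ?_⟩
    rw [nsmul_add, ← mul_nsmul', ← mul_nsmul', natCast_zsmul, hr, hi]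
    congr 2
    ring
  · rw [← hs1]; abel

include hA in
lemma SEP (H H' : AddSubgroup A) (h : ∀ j, H ≤ H' ⊔ NN A j) : H ≤ H' := by
  intro x hx
  obtain ⟨t, ht0, ht⟩ := exists_exponent (H' ⊔ AddSubgroup.zmultiples x)
  set g := addOrderOf (QuotientAddGroup.mk x : A ⧸ H') with hg
  have hmem : ∀ k : ℤ, k • x ∈ H' ↔ (g : ℤ) ∣ k := by
    intro k
    rw [hg, addOrderOf_dvd_iff_zsmul_eq_zero, ← QuotientAddGroup.eq_zero_iff,
      QuotientAddGroup.mk_zsmul]
  by_contra hxH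
  have hg1 : g ≠ 1 := by
    intro h1
    have := (hmem 1).2 (by rw [h1]; simp)
    rw [one_smul] at this
    exact hxH this
  -- choose o
  obtain ⟨o, ho0, ho⟩ : ∃ o : ℕ, 0 < o ∧ ∀ r l : ℤ, ¬ (g : ℤ) ∣ 1 - o * r * l := by
    rcases Nat.eq_zero_or_pos g with h0 | h0
    · refine ⟨2, by norm_num, ?_⟩
      intro r l hd
      rw [h0] at hd
      have := Int.zero_dvd.1 (by exact_mod_cast hd)
      rw [mul_assoc] at this
      omega
    · refine ⟨g, h0, ?_⟩
      intro r l hd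
      have : (g : ℤ) ∣ 1 := by
        have h1 : (g : ℤ) ∣ g * r * l := ⟨r * l, by ring⟩
        have := dvd_add hd h1
        simpa using this
      have := Int.eq_one_of_dvd_one (by positivity) this
      exact hg1 (by exact_mod_cast this)
  have hpos : 0 < t * o := Nat.mul_pos ht0 ho0
  obtain ⟨r, hr⟩ : t * o ∣ (t * o).factorial := Nat.dvd_factorial hpos le_rfl
  obtain ⟨h1, hh1, n1, hn1, hs⟩ := AddSubgroup.mem_sup.1 (h (t * o) hx)
  obtain ⟨y, rfl⟩ := mem_NN.1 hn1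
  have h2 : (t : ℤ) • y ∈ H' ⊔ AddSubgroup.zmultiples x := by
    apply ht y ((t * o).factorial : ℤ) (by exact_mod_cast (Nat.factorial_pos _).ne')
    rw [natCast_zsmul]
    have : (t * o).factorial • y = -h1 + x := by rw [← hs]; abel
    rw [this]
    exact add_mem (AddSubgroup.mem_sup_left (neg_mem hh1))
      (AddSubgroup.mem_sup_right (AddSubgroup.mem_zmultiples x))
  obtain ⟨u, hu, w, hw, huw⟩ := AddSubgroup.mem_sup.1 h2
  obtain ⟨l, rfl⟩ := AddSubgroup.mem_zmultiples_iff.1 hw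
  apply ho r l
  rw [← hmem]
  have e1 : (t * o).factorial • y = ((o : ℤ) * r) • (u + l • x) := by
    rw [huw, smul_smul, ← natCast_zsmul, hr]
    congr 1
    push_cast
    ring
  have e2 : ((1 : ℤ) - o * r * l) • x = h1 + ((o : ℤ) * r) • u := by
    rw [sub_smul, one_smul, mul_smul]
    rw [e1, smul_add] at hs
    rw [sub_eq_iff_eq_add, add_assoc]
    exact hs.symm
  rw [e2]
  exact add_mem hh1 (zsmul_mem hu _)

end tors

end Run7.h622.SubFG
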