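import Mathlib

/-! Non-embeddability of `Sub((ℤ/m)³)`, `m` composite, into subspace lattices over division rings. -/

namespace Run7.h622.SubNec

open AddSubgroup

section

variable {m : ℕ} {D : Type*} {V : Type*} [DivisionRing D] [AddCommGroup V] [Module D V]

/-- the cyclic subgroup generated by `(x,y,z)` -/
def Z (x y z : ZMod m) : AddSubgroup (Fin 3 → ZMod m) := zmultiples ![x, y, z]

lemma mem_Z {x y z : ZMod m} {v : Fin 3 → ZMod m} :
    v ∈ Z x y z ↔ ∃ s : ZMod m, v 0 = s * x ∧ v 1 = s * y ∧ v 2 = s * z := by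
  unfold Z
  rw [mem_zmultiples_iff]
  constructor
  · rintro ⟨k, rfl⟩
    refine ⟨(k : ZMod m), ?_, ?_, ?_⟩ <;> simp
  · rintro ⟨s, h0, h1, h2⟩
    obtain ⟨k, rfl⟩ := ZMod.intCast_surjective s
    refine ⟨k, ?_⟩
    funext i
    fin_cases i
    · simp [h0]
    · simp [h1]
    · simp [h2]

lemma mem_sup_Z {x y z x' y' z' : ZMod m} {v : Fin 3 → ZMod m} :
    v ∈ Z x y z ⊔ Z x' y' z' ↔ ∃ s t : ZMod m, v 0 = s * x + t * x' ∧ v 1 = s * y + t * y' ∧
      v 2 = s * z + t * z' := by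
  rw [AddSubgroup.mem_sup]
  constructor
  · rintro ⟨a, ha, b, hb, rfl⟩
    obtain ⟨s, h0, h1, h2⟩ := mem_Z.1 ha
    obtain ⟨t, k0, k1, k2⟩ := mem_Z.1 hb
    exact ⟨s, t, by simp [h0, k0], by simp [h1, k1], by simp [h2, k2]⟩
  · rintro ⟨s, t, h0, h1, h2⟩
    refine ⟨![s * x, s * y, s * z], mem_Z.2 ⟨s, by simp, by simp, by simp⟩,
      ![t * x', t * y', t * z'], mem_Z.2 ⟨t, by simp, by simp, by simp⟩, ?_⟩
    funext i
    fin_cases i
    · simp [h0]
    · simp [h1]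
    · simp [h2]

variable (F : AddSubgroup (Fin 3 → ZMod m) → Submodule D V)
  (hs : ∀ x y, F (x ⊔ y) = F x ⊔ F y) (hi : ∀ x y, F (x ⊓ y) = F x ⊓ F y)

include hs in
lemma mono {x y : AddSubgroup (Fin 3 → ZMod m)} (h : x ≤ y) : F x ≤ F y := by
  have : F y = F x ⊔ F y := by rw [← hs, sup_eq_right.2 h]
  rw [this]; exact le_sup_left

include hs in
lemma add_mem_sup {x y : AddSubgroup (Fin 3 → ZMod m)} {u v : V} (hu : u ∈ F x) (hv : v ∈ F y) :
    u + v ∈ F (x ⊔ y) := by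
  rw [hs]; exact Submodule.add_mem_sup hu hv

include hs hi in
lemma key {a : V} (ha : a ∈ F (Z 1 0 0)) :
    ∃ b ∈ F (Z 0 1 0), ∀ k : ℕ, a + (k : ℕ) • b ∈ F (Z 1 (k : ZMod m) 0) := by
  have h1 : a ∈ F (Z 0 1 0 ⊔ Z 1 1 0) := by
    refine mono F hs ?_ ha
    intro v hv
    obtain ⟨s, h0, h1, h2⟩ := mem_Z.1 hv
    exact mem_sup_Z.2 ⟨-s, s, by simp [h0], by simp [h1], by simp [h2]⟩
  have h2 : a ∈ F (Z 0 0 1 ⊔ Z 1 0 1) := by
    refine mono F hs ?_ ha
    intro v hv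
    obtain ⟨s, h0, h1, h2⟩ := mem_Z.1 hv
    exact mem_sup_Z.2 ⟨-s, s, by simp [h0], by simp [h1], by simp [h2]⟩
  rw [hs] at h1 h2
  obtain ⟨b', hb', ab, hab, h1⟩ := Submodule.mem_sup.1 h1
  obtain ⟨c', hc', ac, hac, h2⟩ := Submodule.mem_sup.1 h2
  have hb : -b' ∈ F (Z 0 1 0) := neg_mem hb'
  have hc : -c' ∈ F (Z 0 0 1) := neg_mem hc'
  set b := -b' with hbdef
  set c := -c' with hcdef
  have hab' : a + b ∈ F (Z 1 1 0) := by
    have : a + b = ab := by rw [← h1, hbdef]; abel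
    rw [this]; exact hab
  have hac' : a + c ∈ F (Z 1 0 1) := by
    have : a + c = ac := by rw [← h2, hcdef]; abel
    rw [this]; exact hac
  have hbc : b - c ∈ F (Z 0 1 (-1)) := by
    have e1 : b - c ∈ F (Z 1 1 0 ⊔ Z 1 0 1) := by
      have : b - c = (a + b) + -(a + c) := by abel
      rw [this]; exact add_mem_sup F hs hab' (neg_mem hac')
    have e2 : b - c ∈ F (Z 0 1 0 ⊔ Z 0 0 1) := by
      rw [sub_eq_add_neg]; exact add_mem_sup F hs hb (neg_mem hc)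
    have e3 : b - c ∈ F ((Z 1 1 0 ⊔ Z 1 0 1) ⊓ (Z 0 1 0 ⊔ Z 0 0 1)) := by
      rw [hi]; exact ⟨e1, e2⟩
    refine mono F hs ?_ e3
    intro v hv
    obtain ⟨hv1, hv2⟩ := AddSubgroup.mem_inf.1 hv
    obtain ⟨s, t, a0, a1, a2⟩ := mem_sup_Z.1 hv1
    obtain ⟨s', t', b0, b1, b2⟩ := mem_sup_Z.1 hv2
    simp only [mul_one, mul_zero, add_zero, zero_add] at a0 a1 a2 b0 b1 b2
    refine mem_Z.2 ⟨s, by rw [b0, mul_zero], by rw [a1, mul_one], ?_⟩
    have : s + t = 0 := by rw [← a0, b0]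
    rw [a2]; linear_combination this
  refine ⟨b, hb, ?_⟩
  intro k
  induction k with
  | zero => simpa using ha
  | succ k ih =>
    have hT : a + (k : ℕ) • b + c ∈ F (Z 1 (k : ZMod m) 1) := by
      have e1 : a + (k : ℕ) • b + c ∈ F (Z 1 (k : ZMod m) 0 ⊔ Z 0 0 1) := add_mem_sup F hs ih hc
      have e2 : a + (k : ℕ) • b + c ∈ F (Z 0 1 0 ⊔ Z 1 0 1) := by
        have : a + (k : ℕ) • b + c = (k : ℕ) • b + (a + c) := by abel
        rw [this]; exact add_mem_sup F hs (Submodule.smul_of_tower_mem _ k hb) hac'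
      have e3 : a + (k : ℕ) • b + c ∈ F ((Z 1 (k : ZMod m) 0 ⊔ Z 0 0 1) ⊓ (Z 0 1 0 ⊔ Z 1 0 1)) := by
        rw [hi]; exact ⟨e1, e2⟩
      refine mono F hs ?_ e3
      intro v hv
      obtain ⟨hv1, hv2⟩ := AddSubgroup.mem_inf.1 hv
      obtain ⟨s, t, a0, a1, a2⟩ := mem_sup_Z.1 hv1
      obtain ⟨s', t', b0, b1, b2⟩ := mem_sup_Z.1 hv2
      simp only [mul_one, mul_zero, add_zero, zero_add] at a0 a1 a2 b0 b1 b2
      refine mem_Z.2 ⟨s, by rw [a0, mul_one], a1, ?_⟩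
      rw [b2, ← b0, a0, mul_one]
    have e1 : a + (k + 1 : ℕ) • b ∈ F (Z 1 (k : ZMod m) 1 ⊔ Z 0 1 (-1)) := by
      have : a + (k + 1 : ℕ) • b = (a + (k : ℕ) • b + c) + (b - c) := by rw [succ_nsmul]; abel
      rw [this]; exact add_mem_sup F hs hT hbc
    have e2 : a + (k + 1 : ℕ) • b ∈ F (Z 1 0 0 ⊔ Z 0 1 0) :=
      add_mem_sup F hs ha (Submodule.smul_of_tower_mem _ (k + 1) hb)
    have e3 : a + (k + 1 : ℕ) • b ∈ F ((Z 1 (k : ZMod m) 1 ⊔ Z 0 1 (-1)) ⊓ (Z 1 0 0 ⊔ Z 0 1 0)) := by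
      rw [hi]; exact ⟨e1, e2⟩
    refine mono F hs ?_ e3
    intro v hv
    obtain ⟨hv1, hv2⟩ := AddSubgroup.mem_inf.1 hv
    obtain ⟨s, t, a0, a1, a2⟩ := mem_sup_Z.1 hv1
    obtain ⟨s', t', b0, b1, b2⟩ := mem_sup_Z.1 hv2
    simp only [mul_one, mul_zero, add_zero, zero_add] at a0 a1 a2 b0 b1 b2
    have hst : s + t * (-1) = 0 := by rw [← a2, b2]
    have hst' : s = t := by linear_combination hst
    refine mem_Z.2 ⟨s, by rw [a0, mul_one], ?_, by rw [b2, mul_zero]⟩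
    rw [a1, ← hst']; push_cast; ring

include hs hi in
theorem no_embed (hm1 : 1 < m) (hm : ¬ m.Prime) (hinj : Function.Injective F) : False := by
  have hm0 : m ≠ 0 := by omega
  have : NeZero m := ⟨hm0⟩
  have : Fact (1 < m) := ⟨hm1⟩
  -- an element `a`
  have hne : ¬ F (Z 1 0 0) ≤ F ⊥ := by
    intro h
    have h2 : F (Z 1 0 0) = F ⊥ := le_antisymm h (mono F hs bot_le)
    have h3 := hinj h2
    have h4 : (![1, 0, 0] : Fin 3 → ZMod m) ∈ (⊥ : AddSubgroup (Fin 3 → ZMod m)) := by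
      rw [← h3]; exact mem_Z.2 ⟨1, by simp, by simp, by simp⟩
    have h5 := congrFun (AddSubgroup.mem_bot.1 h4) 0
    simp at h5
  obtain ⟨a, ha, hab⟩ := SetLike.not_le_iff_exists.1 hne
  obtain ⟨b, hb, hk⟩ := key F hs hi ha
  have hbot : ∀ x, (F ⊥ : Submodule D V) ≤ F x := fun x => mono F hs bot_le
  have hb0 : b ∉ F ⊥ := by
    intro hb0
    apply hab
    have e1 : a ∈ F (Z 1 1 0) := by
      have h1 := hk 1
      simp only [Nat.cast_one, one_smul] at h1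
      have : a = (a + b) - b := by abel
      rw [this]; exact sub_mem h1 (hbot _ hb0)
    have e3 : a ∈ F (Z 1 0 0 ⊓ Z 1 1 0) := by rw [hi]; exact ⟨ha, e1⟩
    refine mono F hs ?_ e3
    intro v hv
    obtain ⟨hv1, hv2⟩ := AddSubgroup.mem_inf.1 hv
    obtain ⟨s, a0, a1, a2⟩ := mem_Z.1 hv1
    obtain ⟨t, b0, b1, b2⟩ := mem_Z.1 hv2
    simp only [mul_one, mul_zero] at a0 a1 a2 b0 b1 b2
    rw [AddSubgroup.mem_bot]
    funext i
    fin_cases i
    · show v 0 = 0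
      rw [b0, ← b1, a1]
    · exact a1
    · exact a2
  have hmb : (m : ℕ) • b ∈ F ⊥ := by
    have h1 := hk m
    have h2 : (m : ℕ) • b ∈ F (Z 1 0 0) := by
      have : (m : ℕ) • b = (a + (m : ℕ) • b) - a := by abel
      rw [this]
      refine sub_mem ?_ ha
      have e : ((m : ℕ) : ZMod m) = 0 := by simp
      rw [e] at h1
      exact h1
    have h3 : (m : ℕ) • b ∈ F (Z 1 0 0 ⊓ Z 0 1 0) := by
      rw [hi]; exact ⟨h2, Submodule.smul_of_tower_mem _ m hb⟩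
    refine mono F hs ?_ h3
    intro v hv
    obtain ⟨hv1, hv2⟩ := AddSubgroup.mem_inf.1 hv
    obtain ⟨s, a0, a1, a2⟩ := mem_Z.1 hv1
    obtain ⟨t, b0, b1, b2⟩ := mem_Z.1 hv2
    simp only [mul_one, mul_zero] at a0 a1 a2 b0 b1 b2
    rw [AddSubgroup.mem_bot]
    funext i
    fin_cases i
    · exact b0
    · exact a1
    · exact a2
  have hmD : (m : D) = 0 := by
    by_contra hne
    apply hb0
    have : b = (m : D)⁻¹ • ((m : ℕ) • b) := by
      rw [← Nat.cast_smul_eq_nsmul D m b, smul_smul, inv_mul_cancel₀ hne, one_smul]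
    rw [this]; exact Submodule.smul_mem _ _ hmb
  -- characteristic
  obtain ⟨p, hp⟩ := CharP.exists D
  have hpm : p ∣ m := (CharP.cast_eq_zero_iff D p m).1 hmD
  have hp0 : p ≠ 0 := by
    rintro rfl
    exact hm0 (Nat.eq_zero_of_zero_dvd hpm)
  have hpp : p.Prime := by
    rcases CharP.char_is_prime_or_zero D p with h | h
    · exact h
    · exact absurd h hp0
  have hlt : p < m := by
    rcases Nat.lt_or_ge p m with h | h
    · exact h
    · exact absurd (le_antisymm (Nat.le_of_dvd (by omega) hpm) h ▸ hpp) hm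
  have hle : F (Z 1 0 0) ≤ F (Z 1 (p : ZMod m) 0) := by
    intro x hx
    obtain ⟨y, hy, hk⟩ := key F hs hi hx
    have := hk p
    rw [← Nat.cast_smul_eq_nsmul D p y, (CharP.cast_eq_zero D p), zero_smul, add_zero] at this
    exact this
  have heq : F (Z 1 0 0 ⊓ Z 1 (p : ZMod m) 0) = F (Z 1 0 0) := by
    rw [hi]; exact inf_eq_left.2 hle
  have h3 := hinj heq
  have h4 : (![1, 0, 0] : Fin 3 → ZMod m) ∈ Z 1 (p : ZMod m) 0 := by
    have : (![1, 0, 0] : Fin 3 → ZMod m) ∈ Z 1 0 0 ⊓ Z 1 (p : ZMod m) 0 := by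
      rw [h3]; exact mem_Z.2 ⟨1, by simp, by simp, by simp⟩
    exact this.2
  obtain ⟨s, b0, b1, b2⟩ := mem_Z.1 h4
  simp only [mul_one, Matrix.cons_val_zero, Matrix.cons_val_one] at b0 b1
  rw [← b0, one_mul] at b1
  have : m ∣ p := (CharP.cast_eq_zero_iff (ZMod m) m p).1 b1.symm
  exact absurd (Nat.le_of_dvd (Nat.pos_of_ne_zero hp0) this) (by omega)

end

/-- If `(ℤ/m)³` embeds into `A`, with `m` composite, then `Sub(A)` does not embed. -/
theorem no_embed_of_injective {A D V : Type*} [AddCommGroup A] [DivisionRing D] [AddCommGroup V]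
    [Module D V] {m : ℕ} (hm1 : 1 < m) (hm : ¬ m.Prime) (g : (Fin 3 → ZMod m) →+ A)
    (hg : Function.Injective g) (f : LatticeHom (AddSubgroup A) (Submodule D V))
    (hf : Function.Injective f) : False := by
  refine no_embed (F := fun H => f (H.map g)) ?_ ?_ hm1 hm ?_
  · intro x y
    rw [AddSubgroup.map_sup, SupHomClass.map_sup]
  · intro x y
    rw [AddSubgroup.map_inf x y g hg, InfHomClass.map_inf]
  · intro x y h
    exact AddSubgroup.map_injective hg (hf h)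

end Run7.h622.SubNec
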