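import Mathlib

/-! Structure facts on finite abelian groups. -/

namespace Run7.h622.SubStruct

open DirectSum

/-- three elements spanning a copy of `(ℤ/m)³` -/
def Indep3 {A : Type*} [AddCommGroup A] (m : ℕ) (a : Fin 3 → A) : Prop :=
  (∀ t, m • a t = 0) ∧ ∀ k : Fin 3 → ℤ, ∑ t, k t • a t = 0 → ∀ t, (m : ℤ) ∣ k t

/-- hom from `ZMod m` determined by an element killed by `m` -/
noncomputable def homOf {A : Type*} [AddCommGroup A] {m : ℕ} {g : A} (h : m • g = 0) :
    ZMod m →+ A :=
  ZMod.lift m ⟨zmultiplesHom A g, by simpa using h⟩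

lemma homOf_intCast {A : Type*} [AddCommGroup A] {m : ℕ} {g : A} (h : m • g = 0) (x : ℤ) :
    homOf h (x : ZMod m) = x • g := by
  rw [homOf, ZMod.lift_coe]; simp

lemma exists_hom_of_indep3 {A : Type*} [AddCommGroup A] {m : ℕ} {a : Fin 3 → A}
    (h : Indep3 m a) : ∃ g : (Fin 3 → ZMod m) →+ A, Function.Injective g := by
  refine ⟨∑ t, (homOf (h.1 t)).comp (Pi.evalAddMonoidHom _ t), ?_⟩
  rw [injective_iff_map_eq_zero]
  intro x hx
  have hk : ∀ t, ∃ k : ℤ, (k : ZMod m) = x t := fun t => ZMod.intCast_surjective (x t)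
  choose k hk using hk
  have hx' : ∑ t, k t • a t = 0 := by
    rw [← hx, AddMonoidHom.finsetSum_apply]
    refine Finset.sum_congr rfl fun t _ => ?_
    show k t • a t = homOf (h.1 t) (x t)
    rw [← hk, homOf_intCast]
  funext t
  rw [← hk]
  exact (ZMod.intCast_zmod_eq_zero_iff_dvd (k t) m).2 (h.2 k hx' t)

lemma indep3_mul {A : Type*} [AddCommGroup A] {p q : ℕ} (hpq : Nat.Coprime p q)
    {a b : Fin 3 → A} (ha : Indep3 p a) (hb : Indep3 q b) : Indep3 (p * q) (a + b) := by
  constructor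
  · intro t
    have h1 : (p * q) • a t = 0 := by rw [mul_comm, mul_nsmul', ha.1 t, smul_zero]
    have h2 : (p * q) • b t = 0 := by rw [mul_nsmul', hb.1 t, smul_zero]
    rw [Pi.add_apply, nsmul_add, h1, h2, add_zero]
  · intro k hk t
    have e1 : ∀ s : ℤ, ∑ t, (s * k t) • (a + b) t = 0 := by
      intro s
      have : ∑ t, (s * k t) • (a + b) t = s • ∑ t, k t • (a + b) t := by
        rw [Finset.smul_sum]
        exact Finset.sum_congr rfl fun t _ => by rw [mul_smul]
      rw [this, hk, smul_zero]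
    have hq0 : ∀ t, ((q : ℤ) * k t) • b t = 0 := by
      intro t
      rw [mul_comm, mul_smul, natCast_zsmul, hb.1 t, smul_zero]
    have hp0 : ∀ t, ((p : ℤ) * k t) • a t = 0 := by
      intro t
      rw [mul_comm, mul_smul, natCast_zsmul, ha.1 t, smul_zero]
    have h1 : (p : ℤ) ∣ q * k t := by
      apply ha.2 (fun t => q * k t)
      rw [← e1 q]
      refine Finset.sum_congr rfl fun t _ => ?_
      rw [Pi.add_apply, smul_add, hq0, add_zero]
    have h2 : (q : ℤ) ∣ p * k t := by
      apply hb.2 (fun t => p * k t)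
      rw [← e1 p]
      refine Finset.sum_congr rfl fun t _ => ?_
      rw [Pi.add_apply, smul_add, hp0, zero_add]
    have hc : IsCoprime (p : ℤ) (q : ℤ) := Nat.isCoprime_iff_coprime.2 hpq
    have h1' : (p : ℤ) ∣ k t := hc.dvd_of_dvd_mul_left h1
    have h2' : (q : ℤ) ∣ k t := hc.symm.dvd_of_dvd_mul_left h2
    push_cast
    exact hc.mul_dvd h1' h2'

lemma exists_basis (A : Type*) [AddCommGroup A] [Finite A] :
    ∃ (ι : Type) (_ : Fintype ι) (p e : ι → ℕ) (u : ι → A), (∀ i, (p i).Prime) ∧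
      (∀ x : A, ∃ k : ι → ℤ, x = ∑ i, k i • u i) ∧
      (∀ k : ι → ℤ, ∑ i, k i • u i = 0 → ∀ i, ((p i : ℤ) ^ e i) ∣ k i) ∧
      (∀ i, (p i ^ e i) • u i = 0) := by
  classical
  obtain ⟨ι, hι, p, hp, e, ⟨φ⟩⟩ := AddCommGroup.equiv_directSum_zmod_of_finite A
  let w : ι → ⨁ i, ZMod (p i ^ e i) := fun i => DirectSum.of (fun i => ZMod (p i ^ e i)) i 1
  have hw : ∀ (i : ι) (k : ℤ), DirectSum.of (fun i => ZMod (p i ^ e i)) i (k : ZMod (p i ^ e i)) =
      k • w i := by
    intro i k
    rw [← map_zsmul]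
    congr 1
    simp
  refine ⟨ι, hι, p, e, fun i => φ.symm (w i), hp, ?_, ?_, ?_⟩
  · intro x
    have hk : ∀ i, ∃ k : ℤ, (k : ZMod (p i ^ e i)) = φ x i :=
      fun i => ZMod.intCast_surjective (φ x i)
    choose k hk using hk
    refine ⟨k, ?_⟩
    apply φ.injective
    rw [map_sum, ← DirectSum.sum_univ_of (φ x)]
    refine Finset.sum_congr rfl fun i _ => ?_
    rw [map_zsmul, AddEquiv.apply_symm_apply, ← hk, hw]
  · intro k hk i
    have h1 := congrArg φ hk
    rw [map_sum, map_zero] at h1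
    have h2 : ∑ i, DirectSum.of (fun i => ZMod (p i ^ e i)) i (k i : ZMod (p i ^ e i)) = 0 := by
      rw [← h1]
      refine Finset.sum_congr rfl fun i _ => ?_
      rw [map_zsmul, AddEquiv.apply_symm_apply, ← hw]
    have h3 : (k i : ZMod (p i ^ e i)) = 0 := by
      have h4 := congrArg (fun z : ⨁ i, ZMod (p i ^ e i) => z i) h2
      simp only [DirectSum.zero_apply] at h4
      rw [← h4]
      rw [DFinsupp.finsetSum_apply]
      rw [Finset.sum_eq_single i]
      · exact (DirectSum.of_eq_same (β := fun i => ZMod (p i ^ e i)) i _).symm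
      · intro j _ hj
        exact DirectSum.of_eq_of_ne (β := fun i => ZMod (p i ^ e i)) j i _ hj.symm
      · intro h; exact absurd (Finset.mem_univ i) h
    have := (ZMod.intCast_zmod_eq_zero_iff_dvd (k i) (p i ^ e i)).1 h3
    push_cast at this
    exact this
  · intro i
    show _ • φ.symm (w i) = 0
    rw [← map_nsmul, ← map_nsmul]
    simp

/-- If three distinct indices have `p i = q`, `e i ≥ s`, there is an independent triple of
exponent `q ^ s`. -/
lemma indep3_of_three {A : Type*} [AddCommGroup A] {ι : Type} [Fintype ι] {p e : ι → ℕ}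
    {u : ι → A}
    (h2 : ∀ k : ι → ℤ, ∑ i, k i • u i = 0 → ∀ i, ((p i : ℤ) ^ e i) ∣ k i)
    (h3 : ∀ i, (p i ^ e i) • u i = 0) {q s : ℕ} (hq : q.Prime) {S : Finset ι}
    (hS : ∀ i ∈ S, p i = q ∧ s ≤ e i) (hcard : 2 < S.card) :
    ∃ a : Fin 3 → A, Indep3 (q ^ s) a := by
  classical
  obtain ⟨i0, h0, i1, h1, i2, hi2, h01, h02, h12⟩ := Finset.two_lt_card.1 hcard
  let v : Fin 3 → ι := ![i0, i1, i2]
  have hv : Function.Injective v := by
    intro x y hxy
    fin_cases x <;> fin_cases y <;> simp_all [v]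
  have hvS : ∀ t, v t ∈ S := by
    intro t; fin_cases t
    · exact h0
    · exact h1
    · exact hi2
  refine ⟨fun t => (q ^ (e (v t) - s)) • u (v t), ?_, ?_⟩
  · intro t
    obtain ⟨hp, hs⟩ := hS _ (hvS t)
    have e1 : q ^ s • q ^ (e (v t) - s) • u (v t) = (q ^ s * q ^ (e (v t) - s)) • u (v t) := by
      rw [mul_nsmul']
    rw [e1, ← pow_add, Nat.add_sub_cancel' hs, ← hp, h3]
  · intro k hk t
    have hk' : ∑ i, (∑ t, if v t = i then k t * (q : ℤ) ^ (e i - s) else 0) • u i = 0 := by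
      rw [← hk]
      simp_rw [Finset.sum_smul]
      rw [Finset.sum_comm]
      refine Finset.sum_congr rfl fun t _ => ?_
      rw [Finset.sum_eq_single (v t)]
      · rw [if_pos rfl, mul_smul]
        congr 1
        rw [← natCast_zsmul]
        push_cast
        rfl
      · intro b _ hb
        rw [if_neg (Ne.symm hb), zero_smul]
      · intro h; exact absurd (Finset.mem_univ _) h
    have h4 := h2 _ hk' (v t)
    rw [Finset.sum_eq_single t] at h4
    · rw [if_pos rfl] at h4
      obtain ⟨hp, hs⟩ := hS _ (hvS t)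
      rw [hp] at h4
      have h5 : (q : ℤ) ^ s * (q : ℤ) ^ (e (v t) - s) ∣ k t * (q : ℤ) ^ (e (v t) - s) := by
        rw [← pow_add, Nat.add_sub_cancel' hs]; exact h4
      push_cast
      exact Int.dvd_of_mul_dvd_mul_right (pow_ne_zero _ (by exact_mod_cast hq.ne_zero)) h5
    · intro b _ hb
      rw [if_neg]
      intro h; exact hb (hv h)
    · intro h; exact absurd (Finset.mem_univ _) h

lemma two_elements {A : Type*} [AddCommGroup A] {ι : Type} {u : ι → A} {S : Finset ι}
    (hS : S.card ≤ 2) {n : ℕ} (hu : ∀ i ∈ S, n • u i = 0) :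
    ∃ g1 g2 : A, n • g1 = 0 ∧ n • g2 = 0 ∧ ∀ i ∈ S, u i = g1 ∨ u i = g2 := by
  classical
  rcases Nat.lt_or_ge S.card 1 with h | h
  · have : S = ∅ := Finset.card_eq_zero.1 (by omega)
    refine ⟨0, 0, by simp, by simp, ?_⟩
    intro i hi; rw [this] at hi; simp at hi
  rcases Nat.lt_or_ge S.card 2 with h' | h'
  · obtain ⟨a, ha⟩ := Finset.card_eq_one.1 (by omega : S.card = 1)
    refine ⟨u a, u a, hu a (by simp [ha]), hu a (by simp [ha]), ?_⟩
    intro i hi; rw [ha] at hi; simp at hi; left; rw [hi]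
  · obtain ⟨a, b, -, hab⟩ := Finset.card_eq_two.1 (by omega : S.card = 2)
    refine ⟨u a, u b, hu a (by simp [hab]), hu b (by simp [hab]), ?_⟩
    intro i hi; rw [hab] at hi; simp at hi
    rcases hi with rfl | rfl
    · left; rfl
    · right; rfl

end Run7.h622.SubStruct
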