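import Pool.Agent.Run7.h622.SubPrime
import Pool.Agent.Run7.h622.SubStruct
import Pool.Agent.Run7.h622.SubNec

/-! Assembly of the classification. -/

namespace Run7.h622.SubFinal

open Run7.h622.SubStruct Run7.h622.SubPrime

section psi

variable {A : Type*} [AddCommGroup A] {q N : ℕ} {J : Type} [Fintype J]

noncomputable def psi {g1 g2 : A} (h1 : (q ^ N) • g1 = 0) (h2 : (q ^ N) • g2 = 0) {h : J → A}
    (hh : ∀ i, q • h i = 0) : (ZMod (q ^ N) × ZMod (q ^ N) × (J → ZMod q)) →+ A :=
  AddMonoidHom.coprod (homOf h1) (AddMonoidHom.coprod (homOf h2)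
    (∑ i, (homOf (hh i)).comp (Pi.evalAddMonoidHom _ i)))

lemma psi_g1 {g1 g2 : A} (h1 : (q ^ N) • g1 = 0) (h2 : (q ^ N) • g2 = 0) {h : J → A}
    (hh : ∀ i, q • h i = 0) : g1 ∈ (psi h1 h2 hh).range := by
  refine ⟨(((1 : ℤ) : ZMod (q ^ N)), 0, 0), ?_⟩
  rw [psi, AddMonoidHom.coprod_apply]
  simp only [AddMonoidHom.coprod_apply, homOf_intCast, map_zero, add_zero, one_smul]

lemma psi_g2 {g1 g2 : A} (h1 : (q ^ N) • g1 = 0) (h2 : (q ^ N) • g2 = 0) {h : J → A}
    (hh : ∀ i, q • h i = 0) : g2 ∈ (psi h1 h2 hh).range := by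
  refine ⟨(0, ((1 : ℤ) : ZMod (q ^ N)), 0), ?_⟩
  rw [psi, AddMonoidHom.coprod_apply]
  simp only [AddMonoidHom.coprod_apply, homOf_intCast, map_zero, add_zero, zero_add, one_smul]

lemma psi_h {g1 g2 : A} (h1 : (q ^ N) • g1 = 0) (h2 : (q ^ N) • g2 = 0) {h : J → A}
    (hh : ∀ i, q • h i = 0) (j : J) : h j ∈ (psi h1 h2 hh).range := by
  classical
  refine ⟨(0, 0, Pi.single j ((1 : ℤ) : ZMod q)), ?_⟩
  rw [psi, AddMonoidHom.coprod_apply]
  simp only [AddMonoidHom.coprod_apply, map_zero, zero_add, AddMonoidHom.finsetSum_apply,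
    AddMonoidHom.comp_apply, Pi.evalAddMonoidHom_apply]
  rw [Finset.sum_eq_single j]
  · rw [Pi.single_eq_same, homOf_intCast, one_smul]
  · intro b _ hb
    rw [Pi.single_eq_of_ne hb, map_zero]
  · intro h; exact absurd (Finset.mem_univ _) h

end psi

lemma prim_exists (A : Type*) [AddCommGroup A] [Finite A] {q : ℕ} (hq : q.Prime) (Q : Prop)
    (h1 : Q ∨ ¬ ∃ a : Fin 3 → A, Indep3 q a) (h2 : ¬ ∃ a : Fin 3 → A, Indep3 (q ^ 2) a) :
    ∃ (J : Type) (_ : Fintype J) (N : ℕ) (ψ : (ZMod (q ^ N) × ZMod (q ^ N) × (J → ZMod q)) →+ A),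
      (IsEmpty J ∨ Q) ∧ ∀ x : A, (∃ n, (q ^ n) • x = 0) → x ∈ ψ.range := by
  classical
  obtain ⟨ι, hι, p, e, u, hp, hu1, hu2, hu3⟩ := exists_basis A
  set N := ∑ i, e i with hN
  have heN : ∀ i, e i ≤ N := fun i => Finset.single_le_sum (fun _ _ => Nat.zero_le _)
    (Finset.mem_univ i)
  have hkill : ∀ i, p i = q → (q ^ N) • u i = 0 := by
    intro i hi
    obtain ⟨r, hr⟩ := Nat.exists_eq_add_of_le (heN i)
    rw [hr, pow_add, mul_comm, mul_nsmul', ← hi, hu3, smul_zero]
  -- key: sufficient condition for range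
  have key : ∀ (R : AddSubgroup A), (∀ i, p i = q → 1 ≤ e i → u i ∈ R) →
      ∀ x : A, (∃ n, (q ^ n) • x = 0) → x ∈ R := by
    intro R hR x ⟨n, hn⟩
    obtain ⟨k, hk⟩ := hu1 x
    rw [hk]
    refine sum_mem fun i _ => ?_
    by_cases hi : p i = q
    · rcases Nat.eq_zero_or_pos (e i) with h0 | h0
      · have := hu3 i
        rw [h0, pow_zero, one_smul] at this
        rw [this, smul_zero]; exact zero_mem _
      · exact zsmul_mem (hR i hi h0) _
    · have hs : ∑ i, ((q : ℤ) ^ n * k i) • u i = 0 := by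
        rw [← hn, hk, Finset.smul_sum]
        refine Finset.sum_congr rfl fun i _ => ?_
        rw [mul_smul, ← natCast_zsmul]
        push_cast
        rfl
      have hd := hu2 _ hs i
      have hc : IsCoprime ((p i : ℤ) ^ e i) ((q : ℤ) ^ n) := by
        apply IsCoprime.pow
        exact Nat.isCoprime_iff_coprime.2 ((Nat.coprime_primes (hp i) hq).2 hi)
      obtain ⟨r, hr⟩ := hc.dvd_of_dvd_mul_left hd
      have : k i • u i = 0 := by
        rw [hr, mul_comm, mul_smul]
        have : ((p i : ℤ) ^ e i) • u i = 0 := by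
          have := hu3 i
          rw [← natCast_zsmul] at this
          push_cast at this
          exact this
        rw [this, smul_zero]
      rw [this]; exact zero_mem _
  rcases h1 with hQ | h1
  · -- big case
    let S : Finset ι := Finset.univ.filter fun i => p i = q ∧ 2 ≤ e i
    have hS : S.card ≤ 2 := by
      by_contra hcon
      exact h2 (indep3_of_three hu2 hu3 hq (S := S) (s := 2) (by
        intro i hi; exact (Finset.mem_filter.1 hi).2) (by omega))
    obtain ⟨g1, g2, hg1, hg2, hg⟩ := two_elements (u := u) (n := q ^ N) hS (by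
      intro i hi; exact hkill i (Finset.mem_filter.1 hi).2.1)
    let h : ι → A := fun i => if p i = q ∧ e i ≤ 1 then u i else 0
    have hh : ∀ i, q • h i = 0 := by
      intro i
      simp only [h]
      split_ifs with hi
      · obtain ⟨hi1, hi2⟩ := hi
        have h3 := hu3 i
        rcases Nat.lt_or_ge (e i) 1 with h0 | h0
        · have : e i = 0 := by omega
          rw [this, pow_zero, one_smul] at h3
          rw [h3, smul_zero]
        · have : e i = 1 := by omega
          rw [this, pow_one, hi1] at h3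
          exact h3
      · simp
    refine ⟨ι, hι, N, psi hg1 hg2 hh, Or.inr hQ, ?_⟩
    apply key
    intro i hi hei
    rcases Nat.lt_or_ge 1 (e i) with h0 | h0
    · rcases hg i (Finset.mem_filter.2 ⟨Finset.mem_univ _, hi, h0⟩) with h | h
      · rw [h]; exact psi_g1 _ _ _
      · rw [h]; exact psi_g2 _ _ _
    · have : u i = h i := by simp [h, hi, h0]
      rw [this]; exact psi_h _ _ _ i
  · let S : Finset ι := Finset.univ.filter fun i => p i = q ∧ 1 ≤ e i
    have hS : S.card ≤ 2 := by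
      by_contra hcon
      have := (indep3_of_three hu2 hu3 hq (S := S) (s := 1) (by
        intro i hi; exact (Finset.mem_filter.1 hi).2) (by omega))
      rw [pow_one] at this
      exact h1 this
    obtain ⟨g1, g2, hg1, hg2, hg⟩ := two_elements (u := u) (n := q ^ N) hS (by
      intro i hi; exact hkill i (Finset.mem_filter.1 hi).2.1)
    refine ⟨Fin 0, inferInstance, N, psi hg1 hg2 (h := fun _ => 0) (by simp), Or.inl inferInstance,
      ?_⟩
    apply key
    intro i hi hei
    rcases hg i (Finset.mem_filter.2 ⟨Finset.mem_univ _, hi, hei⟩) with h | h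
    · rw [h]; exact psi_g1 _ _ _
    · rw [h]; exact psi_g2 _ _ _

/-- an additive group hom from a q-primary group covering the q-part: `comap` preserves sups -/
lemma comap_sup_of_range {A B : Type*} [AddCommGroup A] [Finite A] [AddCommGroup B] {q M : ℕ}
    (hq : q.Prime) (hB : ∀ b : B, (q ^ M) • b = 0) (ψ : B →+ A)
    (hψ : ∀ x : A, (∃ n, (q ^ n) • x = 0) → x ∈ ψ.range) (H H' : AddSubgroup A) :
    (H ⊔ H').comap ψ = H.comap ψ ⊔ H'.comap ψ := by
  apply le_antisymm
  · intro x hx
    obtain ⟨h, hh, h', hh', hs⟩ := AddSubgroup.mem_sup.1 hx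
    obtain ⟨a, n', hn', hn⟩ := Nat.exists_eq_pow_mul_and_not_dvd
      (n := Nat.card A) Nat.card_pos.ne' q hq.ne_one
    have hc : IsCoprime (n' : ℤ) ((q : ℤ) ^ M) := by
      apply IsCoprime.pow_right
      exact Nat.isCoprime_iff_coprime.2 (Nat.Coprime.symm ((Nat.Prime.coprime_iff_not_dvd hq).2 hn'))
    obtain ⟨s, t, hst⟩ := hc
    have hx1 : (s * (n' : ℤ)) • x = x := by
      have : (t * (q : ℤ) ^ M) • x = 0 := by
        rw [mul_smul]
        have : ((q : ℤ) ^ M) • x = 0 := by
          have := hB x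
          rw [← natCast_zsmul] at this
          push_cast at this
          exact this
        rw [this, smul_zero]
      have e := congrArg (fun z : ℤ => z • x) hst
      simp only [add_smul, one_smul, this, add_zero] at e
      exact e
    have hr : (s * (n' : ℤ)) • h ∈ ψ.range := by
      apply hψ
      refine ⟨a, ?_⟩
      have : (q ^ a) • (s * (n' : ℤ)) • h = s • ((q ^ a * n') • h) := by
        rw [← natCast_zsmul, ← natCast_zsmul, smul_smul, smul_smul]
        congr 1
        push_cast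
        ring
      rw [this, ← hn, card_nsmul_eq_zero', smul_zero]
    obtain ⟨w, hw⟩ := hr
    rw [AddSubgroup.mem_sup]
    refine ⟨w, ?_, x - w, ?_, by abel⟩
    · show ψ w ∈ H
      rw [hw]; exact zsmul_mem hh _
    · show ψ (x - w) ∈ H'
      have : ψ (x - w) = (s * (n' : ℤ)) • h' := by
        rw [map_sub, hw]
        nth_rewrite 1 [← hx1]
        rw [map_zsmul, ← hs, smul_add]
        abel
      rw [this]; exact zsmul_mem hh' _
  · exact sup_le (AddSubgroup.comap_mono le_sup_left) (AddSubgroup.comap_mono le_sup_right)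

lemma embed_prime (A : Type*) [AddCommGroup A] [Finite A] {q : ℕ} (hq : q.Prime)
    (K : Type) [Field K] [Infinite K]
    (h1 : CharP K q ∨ ¬ ∃ a : Fin 3 → A, Indep3 q a) (h2 : ¬ ∃ a : Fin 3 → A, Indep3 (q ^ 2) a) :
    ∃ (V : Type) (_ : AddCommGroup V) (_ : Module K V) (G : AddSubgroup A → Submodule K V),
      (∀ x y, G (x ⊔ y) = G x ⊔ G y) ∧ (∀ x y, G (x ⊓ y) = G x ⊓ G y) ∧
      (∀ H H', G H = G H' → ∀ x ∈ H, (∃ n, (q ^ n) • x = 0) → x ∈ H') := by
  have : Fact q.Prime := ⟨hq⟩
  obtain ⟨J, hJ, N, ψ, hQ, hψ⟩ := prim_exists A hq _ h1 h2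
  have hc : ∃ c : ZMod q → K, c 0 = 0 ∧ Function.Injective c ∧
      (IsEmpty J ∨ ∃ φ : ZMod q →+* K, ∀ x, c x = φ x) := by
    rcases hQ with hQ | hQ
    · let g := Infinite.natEmbedding K
      refine ⟨fun x => g (ZMod.val x) - g 0, by simp, ?_, Or.inl hQ⟩
      intro x y hxy
      simp only [sub_left_inj] at hxy
      exact ZMod.val_injective q (g.injective hxy)
    · let φ : ZMod q →+* K := ZMod.castHom (dvd_refl q) K
      exact ⟨φ, map_zero φ, φ.injective, Or.inr ⟨φ, fun x => rfl⟩⟩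
  obtain ⟨c, hc0, hci, hι⟩ := hc
  obtain ⟨f, hf⟩ := prime_part (ι := J) N c hc0 hci hι
  refine ⟨(Fin N → K) × (Fin N → K) × (J → K), inferInstance, inferInstance,
    fun H => f (H.comap ψ), ?_, ?_, ?_⟩
  · intro x y
    show f ((x ⊔ y).comap ψ) = f (x.comap ψ) ⊔ f (y.comap ψ)
    rw [comap_sup_of_range (M := N + 1) hq ?_ ψ hψ, SupHomClass.map_sup]
    have hz : ∀ a : ZMod (q ^ N), (q ^ (N + 1)) • a = 0 := by
      intro a
      have : (q ^ N) • a = 0 := by
        rw [nsmul_eq_mul, ZMod.natCast_self, zero_mul]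
      rw [pow_succ, mul_comm, mul_nsmul', this, smul_zero]
    rintro ⟨a, b, w⟩
    have hw : (q ^ (N + 1)) • w = 0 := by
      funext i
      have : q • w i = 0 := by
        rw [nsmul_eq_mul, ZMod.natCast_self, zero_mul]
      rw [Pi.smul_apply, pow_succ, mul_nsmul', this, smul_zero]; rfl
    show ((q ^ (N + 1)) • a, (q ^ (N + 1)) • b, (q ^ (N + 1)) • w) = 0
    rw [hz, hz, hw]; rfl
  · intro x y
    show f ((x ⊓ y).comap ψ) = f (x.comap ψ) ⊓ f (y.comap ψ)
    rw [← InfHomClass.map_inf]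
    rfl
  · intro H H' hHH x hx hn
    have := hf hHH
    obtain ⟨b, rfl⟩ := hψ x hn
    have hb : b ∈ H.comap ψ := hx
    rw [this] at hb
    exact hb


/-- choice of the field -/
lemma exists_field (A : Type*) [AddCommGroup A]
    (hA : ∀ m : ℕ, 1 < m → ¬ m.Prime → ¬ ∃ a : Fin 3 → A, Indep3 m a) :
    ∃ (K : Type) (_ : Field K), Infinite K ∧
      ∀ q : ℕ, q.Prime → (CharP K q ∨ ¬ ∃ a : Fin 3 → A, Indep3 q a) := by
  by_cases h : ∃ p : ℕ, p.Prime ∧ ∃ a : Fin 3 → A, Indep3 p a
  · obtain ⟨p, hp, a, ha⟩ := h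
    have : Fact p.Prime := ⟨hp⟩
    have hinf : Infinite (RatFunc (ZMod p)) :=
      Infinite.of_injective (algebraMap (Polynomial (ZMod p)) (RatFunc (ZMod p)))
        (RatFunc.algebraMap_injective _)
    refine ⟨RatFunc (ZMod p), inferInstance, hinf, ?_⟩
    intro q hq
    by_cases hpq : p = q
    · left
      subst hpq
      have := charP_of_injective_algebraMap (algebraMap (ZMod p) (RatFunc (ZMod p))).injective p
      exact this
    · right
      rintro ⟨b, hb⟩
      refine hA (p * q) ?_ ?_ ⟨_, indep3_mul ((Nat.coprime_primes hp hq).2 hpq) ha hb⟩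
      · nlinarith [hp.two_le, hq.two_le]
      · exact Nat.not_prime_mul hp.ne_one hq.ne_one
  · refine ⟨ℚ, inferInstance, inferInstance, ?_⟩
    intro q hq
    right
    intro h'
    exact h ⟨q, hq, h'⟩

theorem embedK (A : Type*) [AddCommGroup A] [Finite A] (K : Type) [Field K] [Infinite K]
    (hchar : ∀ q : ℕ, q.Prime → (CharP K q ∨ ¬ ∃ a : Fin 3 → A, Indep3 q a))
    (hsq : ∀ q : ℕ, q.Prime → ¬ ∃ a : Fin 3 → A, Indep3 (q ^ 2) a) :
    ∃ (V : Type) (_ : AddCommGroup V) (_ : Module K V)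
      (f : LatticeHom (AddSubgroup A) (Submodule K V)), Function.Injective f := by
  have hprime : ∀ q : {q : ℕ // q ∈ (Nat.card A).primeFactors},
      ∃ (V : Type) (_ : AddCommGroup V) (_ : Module K V) (G : AddSubgroup A → Submodule K V),
      (∀ x y, G (x ⊔ y) = G x ⊔ G y) ∧ (∀ x y, G (x ⊓ y) = G x ⊓ G y) ∧
      (∀ H H', G H = G H' → ∀ x ∈ H, (∃ n, ((q : ℕ) ^ n) • x = 0) → x ∈ H') := by
    rintro ⟨q, hq⟩
    have hq' := Nat.prime_of_mem_primeFactors hq
    exact embed_prime A hq' K (hchar q hq') (hsq q hq')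
  choose V hV1 hV2 G hG1 hG2 hG3 using hprime
  let F : AddSubgroup A → Submodule K (∀ q, V q) := fun H => Submodule.pi Set.univ (fun q => G q H)
  have hFmem : ∀ H v, v ∈ F H ↔ ∀ q, v q ∈ G q H := by
    intro H v
    simp [F, Submodule.mem_pi]
  have hmono : ∀ q x y, x ≤ y → G q x ≤ G q y := by
    intro q x y h
    have := hG1 q x y
    rw [sup_eq_right.2 h] at this
    rw [this]; exact le_sup_left
  have hsup : ∀ x y, F (x ⊔ y) = F x ⊔ F y := by
    intro x y
    apply le_antisymm
    · intro v hv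
      rw [hFmem] at hv
      have : ∀ q, ∃ a ∈ G q x, ∃ b ∈ G q y, a + b = v q := by
        intro q
        have := hv q
        rw [hG1] at this
        exact Submodule.mem_sup.1 this
      choose a ha b hb hab using this
      rw [Submodule.mem_sup]
      exact ⟨a, (hFmem _ _).2 ha, b, (hFmem _ _).2 hb, funext hab⟩
    · apply sup_le
      · intro v hv
        rw [hFmem] at hv ⊢
        exact fun q => hmono q _ _ le_sup_left (hv q)
      · intro v hv
        rw [hFmem] at hv ⊢
        exact fun q => hmono q _ _ le_sup_right (hv q)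
  have hinf' : ∀ x y, F (x ⊓ y) = F x ⊓ F y := by
    intro x y
    ext v
    rw [Submodule.mem_inf, hFmem, hFmem, hFmem, ← forall_and]
    refine forall_congr' fun q => ?_
    rw [hG2, Submodule.mem_inf]
  have hinj1 : ∀ x y, F x = F y → ∀ q, G q x = G q y := by
    classical
    intro x y h q
    have key : ∀ x y, F x = F y → G q x ≤ G q y := by
      intro x y h v hv
      have : Pi.single q v ∈ F x := by
        rw [hFmem]
        intro r
        by_cases hr : r = q
        · subst hr; rw [Pi.single_eq_same]; exact hv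
        · rw [Pi.single_eq_of_ne hr]; exact zero_mem _
      rw [h, hFmem] at this
      have := this q
      rwa [Pi.single_eq_same] at this
    exact le_antisymm (key x y h) (key y x h.symm)
  have hle : ∀ x y, F x = F y → x ≤ y := by
    intro H H' h x hx
    have hGG := hinj1 H H' h
    set o := addOrderOf (QuotientAddGroup.mk x : A ⧸ H') with ho
    have hmem : ∀ k : ℕ, k • x ∈ H' ↔ o ∣ k := by
      intro k
      rw [ho, addOrderOf_dvd_iff_nsmul_eq_zero, ← QuotientAddGroup.eq_zero_iff,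
        QuotientAddGroup.mk_nsmul]
    by_cases h1 : o = 1
    · have := (hmem 1).2 (by rw [h1])
      simpa using this
    exfalso
    obtain ⟨q, hq, hqo⟩ := Nat.exists_prime_and_dvd h1
    have hon : o ∣ Nat.card A := (hmem _).1 (by rw [card_nsmul_eq_zero']; exact zero_mem _)
    have hqn : q ∈ (Nat.card A).primeFactors :=
      Nat.mem_primeFactors.2 ⟨hq, hqo.trans hon, Nat.card_pos.ne'⟩
    obtain ⟨a, n', hn', hn⟩ := Nat.exists_eq_pow_mul_and_not_dvd
      (n := Nat.card A) Nat.card_pos.ne' q hq.ne_one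
    have : n' • x ∈ H' := by
      apply hG3 ⟨q, hqn⟩ H H' (hGG _) (n' • x) (nsmul_mem hx _)
      refine ⟨a, ?_⟩
      show (q ^ a) • n' • x = 0
      rw [← mul_nsmul', ← hn, card_nsmul_eq_zero']
    exact hn' (hqo.trans ((hmem _).1 this))
  refine ⟨∀ q, V q, inferInstance, inferInstance, ⟨⟨F, hsup⟩, hinf'⟩, ?_⟩
  intro x y hxy
  exact le_antisymm (hle x y hxy) (hle y x hxy.symm)

theorem embed (A : Type*) [AddCommGroup A] [Finite A]
    (hA : ∀ m : ℕ, 1 < m → ¬ m.Prime → ¬ ∃ a : Fin 3 → A, Indep3 m a) :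
    ∃ (K : Type) (_ : Field K) (V : Type) (_ : AddCommGroup V) (_ : Module K V)
      (f : LatticeHom (AddSubgroup A) (Submodule K V)), Function.Injective f := by
  obtain ⟨K, hK, hinf, hchar⟩ := exists_field A hA
  have hsq : ∀ q : ℕ, q.Prime → ¬ ∃ a : Fin 3 → A, Indep3 (q ^ 2) a := by
    intro q hq
    apply hA
    · have := hq.two_le
      nlinarith
    · exact Nat.Prime.not_prime_pow le_rfl
  exact ⟨K, hK, embedK A K hchar hsq⟩

end Run7.h622.SubFinal
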