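import Pool.Agent.Run7.h622.SubFinal

/-! Universe lifting. -/

namespace Run7.h622.SubLift

universe u v w

section
variable {K : Type} [Field K] {V : Type w} [AddCommGroup V] [Module K V]

def up (W : Submodule K V) : Submodule (ULift.{u} K) (ULift.{v} V) where
  carrier := {x | x.down ∈ W}
  zero_mem' := W.zero_mem
  add_mem' := by
    intro a b ha hb
    exact W.add_mem ha hb
  smul_mem' := by
    intro c x hx
    exact W.smul_mem c.down hx

lemma mem_up {W : Submodule K V} {x : ULift.{v} V} : x ∈ up.{u, v, w} W ↔ x.down ∈ W := Iff.rfl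

def upHom : LatticeHom (Submodule K V) (Submodule (ULift.{u} K) (ULift.{v} V)) where
  toFun := up
  map_sup' := by
    intro x y
    apply le_antisymm
    · intro v hv
      rw [mem_up] at hv
      obtain ⟨a, ha, b, hb, hab⟩ := Submodule.mem_sup.1 hv
      rw [Submodule.mem_sup]
      exact ⟨ULift.up a, ha, ULift.up b, hb, ULift.ext _ _ hab⟩
    · apply sup_le
      · intro v hv
        exact (le_sup_left : x ≤ x ⊔ y) hv
      · intro v hv
        exact (le_sup_right : y ≤ x ⊔ y) hv
  map_inf' := by
    intro x y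
    rfl

lemma upHom_injective : Function.Injective (upHom.{u, v, w} (K := K) (V := V)) := by
  intro x y h
  ext v
  have : ULift.up v ∈ up.{u, v, w} x ↔ ULift.up v ∈ up.{u, v, w} y := by
    change up.{u, v, w} x = up.{u, v, w} y at h
    rw [h]
  exact this

end

theorem classification (A : Type w) [AddCommGroup A] [Finite A] :
    (∃ (D : Type u) (_ : DivisionRing D) (V : Type v) (_ : AddCommGroup V) (_ : Module D V)
      (f : LatticeHom (AddSubgroup A) (Submodule D V)), Function.Injective f) ↔
    ∀ m : ℕ, 1 < m → ¬ m.Prime → ¬ ∃ g : (Fin 3 → ZMod m) →+ A, Function.Injective g := by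
  constructor
  · rintro ⟨D, _, V, _, _, f, hf⟩ m hm1 hm ⟨g, hg⟩
    exact Run7.h622.SubNec.no_embed_of_injective hm1 hm g hg f hf
  · intro h
    obtain ⟨K, hK, V, hV, hM, f, hf⟩ := Run7.h622.SubFinal.embed A (by
      rintro m hm1 hm ⟨a, ha⟩
      exact h m hm1 hm (Run7.h622.SubStruct.exists_hom_of_indep3 ha))
    refine ⟨ULift.{u} K, inferInstance, ULift.{v} V, inferInstance, inferInstance,
      upHom.{u, v, 0}.comp f, ?_⟩
    exact upHom_injective.comp hf

end Run7.h622.SubLift
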