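import Pool.Agent.Run7.h622.SubFG
import Pool.Agent.Run7.h622.SubLift

/-! General abelian groups. -/

namespace Run7.h622.SubGen

open Run7.h622.SubStruct Run7.h622.SubFG Run7.h622.SubGlue Run7.h622.SubFinal

section fg

lemma le_of_hom_le {L M : Type*} [Lattice L] [Lattice M] (f : LatticeHom L M)
    (hf : Function.Injective f) {x y : L} (h : f x ≤ f y) : x ≤ y := by
  have : f (x ⊓ y) = f x := by rw [map_inf, inf_eq_left.2 h]
  have := hf this
  exact inf_eq_left.1 this

lemma finite_quot (A : Type*) [AddCommGroup A] [Module.Finite ℤ A] (n : ℕ) :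
    Finite (A ⧸ NN A n) := by
  have h1 : Module.Finite ℤ (A ⧸ NN A n) :=
    Module.Finite.of_surjective (QuotientAddGroup.mk' (NN A n)).toIntLinearMap
      (QuotientAddGroup.mk'_surjective (NN A n))
  apply Module.finite_of_fg_torsion
  intro x
  obtain ⟨a, rfl⟩ := QuotientAddGroup.mk_surjective x
  refine ⟨⟨(n.factorial : ℤ), mem_nonZeroDivisors_of_ne_zero
    (by exact_mod_cast (Nat.factorial_pos n).ne')⟩, ?_⟩
  show (n.factorial : ℤ) • (QuotientAddGroup.mk a : A ⧸ NN A n) = 0
  rw [← QuotientAddGroup.mk_zsmul, QuotientAddGroup.eq_zero_iff, mem_NN]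
  exact ⟨a, by rw [natCast_zsmul]⟩

lemma windep3_of_quot {A : Type*} [AddCommGroup A] {N : AddSubgroup A} {m : ℕ}
    {a : Fin 3 → A ⧸ N} (h : Indep3 m a) : ∃ b : Fin 3 → A, WIndep3 m b := by
  have : ∀ t, ∃ b : A, (QuotientAddGroup.mk b : A ⧸ N) = a t :=
    fun t => QuotientAddGroup.mk_surjective (a t)
  choose b hb using this
  refine ⟨b, windep3_of_map (QuotientAddGroup.mk' N) ?_⟩
  have : (fun t => QuotientAddGroup.mk' N (b t)) = a := funext hb
  rw [this]
  exact h.2

theorem embed_fg (A : Type*) [AddCommGroup A] [Module.Finite ℤ A] (K : Type) [Field K]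
    [Infinite K] (hchar : ∀ q : ℕ, q.Prime → (CharP K q ∨ ¬ ∃ a : Fin 3 → A, WIndep3 q a))
    (hsq : ∀ q : ℕ, q.Prime → ¬ ∃ a : Fin 3 → A, WIndep3 (q ^ 2) a) :
    ∃ (V : Type) (_ : AddCommGroup V) (_ : Module K V)
      (f : LatticeHom (AddSubgroup A) (Submodule K V)), Function.Injective f := by
  have hn : ∀ n : ℕ, ∃ (V : Type) (_ : AddCommGroup V) (_ : Module K V)
      (f : LatticeHom (AddSubgroup (A ⧸ NN A n)) (Submodule K V)), Function.Injective f := by
    intro n
    have := finite_quot A n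
    apply embedK (A ⧸ NN A n) K
    · intro q hq
      rcases hchar q hq with h | h
      · exact Or.inl h
      · right
        rintro ⟨a, ha⟩
        exact h (windep3_of_quot ha)
    · rintro q hq ⟨a, ha⟩
      exact hsq q hq (windep3_of_quot ha)
  choose V hV1 hV2 f hf using hn
  let F : ∀ n, AddSubgroup A → Submodule K (V n) :=
    fun n H => f n (H.map (QuotientAddGroup.mk' (NN A n)))
  have hFs : ∀ n x y, F n (x ⊔ y) = F n x ⊔ F n y := by
    intro n x y
    simp only [F]
    rw [AddSubgroup.map_sup, SupHomClass.map_sup]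
  have hFm : ∀ n, Monotone (F n) := by
    intro n x y h
    have := hFs n x y
    rw [sup_eq_right.2 h] at this
    rw [this]; exact le_sup_left
  have hback : ∀ n (y : AddSubgroup A), NN A n ≤ y → ∀ a : A,
      (QuotientAddGroup.mk' (NN A n)) a ∈ y.map (QuotientAddGroup.mk' (NN A n)) → a ∈ y := by
    rintro n y hy a ⟨b, hb, hab⟩
    have h1 : (QuotientAddGroup.mk b : A ⧸ NN A n) = QuotientAddGroup.mk a := hab
    rw [QuotientAddGroup.eq] at h1
    have : a = b + (-b + a) := by abel
    rw [this]; exact add_mem hb (hy h1)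
  have hFi : ∀ n x y, NN A n ≤ x → NN A n ≤ y → F n (x ⊓ y) = F n x ⊓ F n y := by
    intro n x y hx hy
    simp only [F]
    rw [← InfHomClass.map_inf]
    congr 1
    apply le_antisymm
    · exact le_inf (AddSubgroup.map_mono inf_le_left) (AddSubgroup.map_mono inf_le_right)
    · rintro _ ⟨⟨a, ha, rfl⟩, hb⟩
      exact ⟨a, ⟨ha, hback n y hy a hb⟩, rfl⟩
  have hFc : ∀ n x y, NN A n ≤ y → F n x ≤ F n y → x ≤ y := by
    intro n x y hy h a ha
    have h1 := le_of_hom_le (f n) (hf n) h
    exact hback n y hy a (h1 ⟨a, ha, rfl⟩)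
  refine ⟨∀ n, V n, inferInstance, inferInstance,
    ⟨⟨theta (NN A) F, theta_sup (NN A) NN_antitone F hFm hFs⟩,
      theta_inf (NN A) NN_antitone F hFm hFi AR⟩, ?_⟩
  intro x y hxy
  have hxy' : theta (NN A) F x = theta (NN A) F y := hxy
  exact le_antisymm (theta_inj (NN A) NN_antitone F hFm hFc SEP hxy'.le)
    (theta_inj (NN A) NN_antitone F hFm hFc SEP hxy'.ge)

end fg

lemma fg_inf {A : Type*} [AddCommGroup A] (X Y : AddSubgroup A) (hX : X.FG) : (X ⊓ Y).FG := by
  have h1 : (AddSubgroup.toIntSubmodule X).FG := by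
    rw [Submodule.fg_iff_addSubgroup_fg]
    simpa using hX
  have h2 : (AddSubgroup.toIntSubmodule (X ⊓ Y)).FG := h1.of_le (by
    intro z hz; exact hz.1)
  rw [Submodule.fg_iff_addSubgroup_fg, AddSubgroup.toIntSubmodule_toAddSubgroup] at h2
  exact h2

theorem embed_all (A : Type*) [AddCommGroup A] (K : Type) [Field K]
    [Infinite K] (hchar : ∀ q : ℕ, q.Prime → (CharP K q ∨ ¬ ∃ a : Fin 3 → A, WIndep3 q a))
    (hsq : ∀ q : ℕ, q.Prime → ¬ ∃ a : Fin 3 → A, WIndep3 (q ^ 2) a) :
    ∃ (V : Finset A → Type) (_ : ∀ s, AddCommGroup (V s)) (_ : ∀ s, Module K (V s))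
      (f : LatticeHom (AddSubgroup A) (Submodule K (∀ s, V s))), Function.Injective f := by
  have hs : ∀ s : Finset A, ∃ (V : Type) (_ : AddCommGroup V) (_ : Module K V)
      (f : LatticeHom (AddSubgroup (AddSubgroup.closure (s : Set A))) (Submodule K V)),
      Function.Injective f := by
    intro s
    have hfin : Module.Finite ℤ (AddSubgroup.closure (s : Set A)) :=
      Module.Finite.iff_addGroup_fg.2 inferInstance
    apply embed_fg _ K
    · intro q hq
      rcases hchar q hq with h | h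
      · exact Or.inl h
      · right
        rintro ⟨a, ha⟩
        exact h ⟨_, windep3_map (AddSubgroup.subtype _) (AddSubgroup.subtype_injective _) ha⟩
    · rintro q hq ⟨a, ha⟩
      exact hsq q hq ⟨_, windep3_map (AddSubgroup.subtype _) (AddSubgroup.subtype_injective _) ha⟩
  choose V hV1 hV2 g hg using hs
  let G : ∀ s, AddSubgroup A → Submodule K (V s) :=
    fun s X => g s (X.addSubgroupOf (AddSubgroup.closure (s : Set A)))
  have hGi : ∀ s x y, G s (x ⊓ y) = G s x ⊓ G s y := by
    intro s x y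
    simp only [G]
    rw [← InfHomClass.map_inf]
    rfl
  have hGs : ∀ (s : Finset A) (x y : AddSubgroup A), x ≤ AddSubgroup.closure s →
      y ≤ AddSubgroup.closure s → G s (x ⊔ y) = G s x ⊔ G s y := by
    intro s x y hx hy
    simp only [G]
    rw [AddSubgroup.addSubgroupOf_sup hx hy, SupHomClass.map_sup]
  have hGc : ∀ (s : Finset A) (x y : AddSubgroup A), x ≤ AddSubgroup.closure s →
      G s x ≤ G s y → x ≤ y := by
    intro s x y hx h a ha
    have h1 := le_of_hom_le (g s) (hg s) h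
    have h2 : (⟨a, hx ha⟩ : AddSubgroup.closure (s : Set A)) ∈
        x.addSubgroupOf (AddSubgroup.closure (s : Set A)) := ha
    exact h1 h2
  refine ⟨V, hV1, hV2, ⟨⟨psi G hGi, psi_sup G hGi hGs⟩, psi_inf G hGi fg_inf⟩, ?_⟩
  intro x y hxy
  have hxy' : psi G hGi x = psi G hGi y := hxy
  exact le_antisymm (psi_inj G hGi hGc hxy'.le) (psi_inj G hGi hGc hxy'.ge)


section char

/-- an element of the kernel of three integer vectors in the plane, not divisible by `p` -/
lemma exists_relation (p : ℕ) (hp : p.Prime) (X Y : Fin 3 → ℤ) :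
    ∃ r : Fin 3 → ℤ, ∑ t, r t * X t = 0 ∧ ∑ t, r t * Y t = 0 ∧ ∃ t, ¬ (p : ℤ) ∣ r t := by
  classical
  -- nonzero kernel element
  have h1 : ∃ r : Fin 3 → ℤ, r ≠ 0 ∧ ∑ t, r t * X t = 0 ∧ ∑ t, r t * Y t = 0 := by
    let f : (Fin 3 → ℤ) →ₗ[ℤ] (Fin 2 → ℤ) :=
      LinearMap.pi ![∑ t, X t • LinearMap.proj t, ∑ t, Y t • LinearMap.proj t]
    have hf : ¬ Function.Injective f := by
      intro h
      have := le_of_fin_injective ℤ f h
      omega
    rw [← LinearMap.ker_eq_bot, Submodule.eq_bot_iff] at hf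
    push Not at hf
    obtain ⟨r, hr, hr0⟩ := hf
    refine ⟨r, hr0, ?_, ?_⟩
    · have := congrFun (LinearMap.mem_ker.1 hr) 0
      simp only [f, LinearMap.pi_apply, Matrix.cons_val_zero, LinearMap.sum_apply,
        LinearMap.smul_apply, LinearMap.proj_apply, smul_eq_mul, Pi.zero_apply] at this
      rw [← this]
      exact Finset.sum_congr rfl fun t _ => mul_comm _ _
    · have := congrFun (LinearMap.mem_ker.1 hr) 1
      have e : f r 1 = ∑ t, Y t * r t := by
        simp [f]
      rw [e, Pi.zero_apply] at this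
      rw [← this]
      exact Finset.sum_congr rfl fun t _ => mul_comm _ _
  -- descent
  have key : ∀ (n : ℕ) (r : Fin 3 → ℤ), ∑ t, (r t).natAbs ≤ n → r ≠ 0 →
      ∑ t, r t * X t = 0 → ∑ t, r t * Y t = 0 →
      ∃ r : Fin 3 → ℤ, ∑ t, r t * X t = 0 ∧ ∑ t, r t * Y t = 0 ∧ ∃ t, ¬ (p : ℤ) ∣ r t := by
    intro n
    induction n with
    | zero =>
      intro r hn hr0
      exfalso
      apply hr0
      funext t
      have h2 := Finset.sum_eq_zero_iff.1 (Nat.le_zero.1 hn) t (Finset.mem_univ t)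
      exact Int.natAbs_eq_zero.1 h2
    | succ n ih =>
      intro r hn hr0 hX hY
      by_cases h : ∃ t, ¬ (p : ℤ) ∣ r t
      · exact ⟨r, hX, hY, h⟩
      · push Not at h
        choose s hs using h
        have hp0 : (p : ℤ) ≠ 0 := by exact_mod_cast hp.ne_zero
        have hs0 : s ≠ 0 := by
          rintro rfl
          apply hr0
          funext t
          rw [hs]; simp
        apply ih s ?_ hs0
        · have : (p : ℤ) * ∑ t, s t * X t = 0 := by
            rw [← hX, Finset.mul_sum]
            exact Finset.sum_congr rfl fun t _ => by rw [hs]; ring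
          rcases mul_eq_zero.1 this with h | h
          · exact absurd h hp0
          · exact h
        · have : (p : ℤ) * ∑ t, s t * Y t = 0 := by
            rw [← hY, Finset.mul_sum]
            exact Finset.sum_congr rfl fun t _ => by rw [hs]; ring
          rcases mul_eq_zero.1 this with h | h
          · exact absurd h hp0
          · exact h
        · have hpos : 0 < ∑ t, (s t).natAbs := by
            by_contra hcon
            apply hs0
            funext t
            have h2 := Finset.sum_eq_zero_iff.1 (by omega : ∑ t, (s t).natAbs = 0) t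
              (Finset.mem_univ t)
            exact Int.natAbs_eq_zero.1 h2
          have h3 : ∑ t, (r t).natAbs = p * ∑ t, (s t).natAbs := by
            rw [Finset.mul_sum]
            refine Finset.sum_congr rfl fun t _ => ?_
            rw [hs, Int.natAbs_mul, Int.natAbs_natCast]
          have h4 := hp.two_le
          have h5 : 2 * ∑ t, (s t).natAbs ≤ p * ∑ t, (s t).natAbs :=
            Nat.mul_le_mul_right _ h4
          omega
  obtain ⟨r, hr0, hX, hY⟩ := h1
  exact key _ r le_rfl hr0 hX hY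

lemma indep3_of_windep3 {C : Type*} [AddCommGroup C] [Finite C] {p : ℕ} (hp : p.Prime)
    (h : ∃ a : Fin 3 → C, WIndep3 p a) : ∃ a : Fin 3 → C, Indep3 p a := by
  by_contra hcon
  obtain ⟨a, ha⟩ := h
  have hcon2 : ¬ ∃ a : Fin 3 → C, Indep3 (p ^ 2) a := by
    rintro ⟨b, hb⟩
    apply hcon
    refine ⟨fun t => p • b t, ?_, ?_⟩
    · intro t
      rw [← mul_nsmul', ← pow_two]
      exact hb.1 t
    · intro k hk t
      have h1 : ∑ t, (k t * p) • b t = 0 := by
        rw [← hk]
        exact Finset.sum_congr rfl fun t _ => by rw [mul_smul, natCast_zsmul]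
      have h2 := hb.2 _ h1 t
      push_cast at h2
      rw [pow_two] at h2
      exact Int.dvd_of_mul_dvd_mul_right (by exact_mod_cast hp.ne_zero) h2
  obtain ⟨J, _, N, ψ, hJ, hψ⟩ := prim_exists C hp False (Or.inr hcon) hcon2
  have hJ' : IsEmpty J := by
    rcases hJ with h | h
    · exact h
    · exact h.elim
  obtain ⟨s, n', hn', hn⟩ := Nat.exists_eq_pow_mul_and_not_dvd
    (n := Nat.card C) Nat.card_pos.ne' p hp.ne_one
  have hmem : ∀ t, ∃ x y : ℤ, ψ ((x : ZMod (p ^ N)), (y : ZMod (p ^ N)), 0) = n' • a t := by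
    intro t
    obtain ⟨⟨x, y, w⟩, hxy⟩ := hψ (n' • a t) ⟨s, by rw [← mul_nsmul', ← hn, card_nsmul_eq_zero']⟩
    obtain ⟨x, rfl⟩ := ZMod.intCast_surjective x
    obtain ⟨y, rfl⟩ := ZMod.intCast_surjective y
    refine ⟨x, y, ?_⟩
    rw [← hxy]
    congr 3
    exact Subsingleton.elim _ _
  choose X Y hXY using hmem
  obtain ⟨r, hX, hY, t, ht⟩ := exists_relation p hp X Y
  apply ht
  have h1 : ∑ t, (r t * n') • a t = 0 := by
    have : ∑ t, (r t * n') • a t = ψ (((∑ t, r t * X t : ℤ) : ZMod (p ^ N)),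
        ((∑ t, r t * Y t : ℤ) : ZMod (p ^ N)), 0) := by
      have e : (((∑ t, r t * X t : ℤ) : ZMod (p ^ N)), ((∑ t, r t * Y t : ℤ) : ZMod (p ^ N)),
          (0 : J → ZMod p)) = ∑ t, r t • ((X t : ZMod (p ^ N)), (Y t : ZMod (p ^ N)),
          (0 : J → ZMod p)) := by
        refine Prod.ext ?_ (Prod.ext ?_ (Subsingleton.elim _ _))
        · rw [Prod.fst_sum]
          push_cast
          refine Finset.sum_congr rfl fun t _ => ?_
          simp
        · rw [Prod.snd_sum, Prod.fst_sum]
          push_cast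
          refine Finset.sum_congr rfl fun t _ => ?_
          simp
      rw [e, map_sum]
      refine Finset.sum_congr rfl fun t _ => ?_
      rw [map_zsmul, hXY, mul_smul, natCast_zsmul]
    rw [this, hX, hY, Int.cast_zero]
    exact map_zero ψ
  have h2 := ha _ h1 t
  have hc : IsCoprime (p : ℤ) (n' : ℤ) :=
    Nat.isCoprime_iff_coprime.2 ((Nat.Prime.coprime_iff_not_dvd hp).2 hn')
  exact hc.dvd_of_dvd_mul_right h2

/-- the key claim: triples for two primes give a triple for the product -/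
lemma windep3_mul {A : Type*} [AddCommGroup A] {p q : ℕ} (hp : p.Prime) (hq : q.Prime)
    (hpq : p ≠ q) {a b : Fin 3 → A} (ha : WIndep3 p a) (hb : WIndep3 q b) :
    ∃ c : Fin 3 → A, WIndep3 (p * q) c := by
  classical
  set S : Finset A := Finset.univ.image a ∪ Finset.univ.image b with hS
  set B := AddSubgroup.closure (S : Set A) with hB
  have hfin : Module.Finite ℤ B := Module.Finite.iff_addGroup_fg.2 inferInstance
  have haB : ∀ t, a t ∈ B := fun t => AddSubgroup.subset_closure (by simp [hS])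
  have hbB : ∀ t, b t ∈ B := fun t => AddSubgroup.subset_closure (by simp [hS])
  let a' : Fin 3 → B := fun t => ⟨a t, haB t⟩
  let b' : Fin 3 → B := fun t => ⟨b t, hbB t⟩
  have ha' : WIndep3 p a' := windep3_of_map B.subtype ha
  have hb' : WIndep3 q b' := windep3_of_map B.subtype hb
  obtain ⟨t1, ht1, h1⟩ := exists_exponent (AddSubgroup.closure (Set.range a'))
  obtain ⟨t2, ht2, h2⟩ := exists_exponent (AddSubgroup.closure (Set.range b'))
  -- general transfer
  have key : ∀ (p : ℕ) (a' : Fin 3 → B) (t1 J : ℕ), WIndep3 p a' → 0 < J →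
      (t1 * p ∣ J) → 0 < t1 →
      (∀ (x : B) (n : ℤ), n ≠ 0 → n • x ∈ AddSubgroup.closure (Set.range a') →
        (t1 : ℤ) • x ∈ AddSubgroup.closure (Set.range a')) →
      ∀ (N : AddSubgroup B), (∀ x, x ∈ N → ∃ y : B, J • y = x) →
      WIndep3 p (fun t => (QuotientAddGroup.mk (a' t) : B ⧸ N)) := by
    intro p a' t1 J ha' hJ ⟨r, hr⟩ ht1 h1 N hN k hk
    have hk' : (∑ t, k t • a' t) ∈ N := by
      rw [← QuotientAddGroup.eq_zero_iff, ← hk]
      have := map_sum (QuotientAddGroup.mk' N) (fun t => k t • a' t) Finset.univ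
      simp only [QuotientAddGroup.mk'_apply] at this
      rw [this]
      exact Finset.sum_congr rfl fun t _ => QuotientAddGroup.mk_zsmul N (a' t) (k t)
    obtain ⟨x, hx⟩ := hN _ hk'
    have hcl : ∀ z, z ∈ AddSubgroup.closure (Set.range a') → ∃ l : Fin 3 → ℤ,
        z = ∑ t, l t • a' t := by
      intro z hz
      induction hz using AddSubgroup.closure_induction with
      | mem x hx =>
        obtain ⟨i, rfl⟩ := hx
        refine ⟨Pi.single i 1, ?_⟩
        rw [Finset.sum_eq_single i]
        · simp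
        · intro b _ hb
          rw [Pi.single_eq_of_ne hb, zero_smul]
        · intro h; exact absurd (Finset.mem_univ _) h
      | zero => exact ⟨0, by simp⟩
      | add x y _ _ hx hy =>
        obtain ⟨l1, h1⟩ := hx
        obtain ⟨l2, h2⟩ := hy
        exact ⟨l1 + l2, by rw [h1, h2, ← Finset.sum_add_distrib]; simp [add_smul]⟩
      | neg x _ hx =>
        obtain ⟨l1, h1⟩ := hx
        exact ⟨-l1, by rw [h1, ← Finset.sum_neg_distrib]; simp⟩
    have hmem : ∀ z : Fin 3 → ℤ, (∑ t, z t • a' t) ∈ AddSubgroup.closure (Set.range a') :=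
      fun z => sum_mem fun t _ => zsmul_mem (AddSubgroup.subset_closure (Set.mem_range_self t)) _
    have h3 : (t1 : ℤ) • x ∈ AddSubgroup.closure (Set.range a') := by
      apply h1 x J (by exact_mod_cast hJ.ne')
      rw [natCast_zsmul, hx]
      exact hmem k
    obtain ⟨l, hl⟩ := hcl _ h3
    have h4 : ∑ t, (k t - (p * r : ℕ) * l t) • a' t = 0 := by
      have e1 : ∑ t, (k t - (p * r : ℕ) * l t) • a' t =
          ∑ t, k t • a' t - ((p * r : ℕ) : ℤ) • ∑ t, l t • a' t := by
        rw [Finset.smul_sum, ← Finset.sum_sub_distrib]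
        exact Finset.sum_congr rfl fun t _ => by rw [sub_smul, mul_smul]
      rw [e1, ← hx, ← hl, smul_smul, ← natCast_zsmul, hr, sub_eq_zero]
      congr 1
      push_cast
      ring
    intro t
    have h5 := ha' _ h4 t
    have h6 : (p : ℤ) ∣ (p * r : ℕ) * l t := ⟨r * l t, by push_cast; ring⟩
    have := dvd_add h5 h6
    simpa using this
  set J := (t1 * p) * (t2 * q) with hJ
  have hJpos : 0 < J := Nat.mul_pos (Nat.mul_pos ht1 hp.pos) (Nat.mul_pos ht2 hq.pos)
  -- use N = J! B
  have hfinC := finite_quot B J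
  have hJf : J ∣ J.factorial := Nat.dvd_factorial hJpos le_rfl
  have hwa := key p a' t1 J.factorial ha' (Nat.factorial_pos _)
    ((Dvd.intro _ rfl : t1 * p ∣ J).trans hJf) ht1 h1 (NN B J) (fun x hx => mem_NN.1 hx)
  have hwb := key q b' t2 J.factorial hb' (Nat.factorial_pos _)
    ((Dvd.intro_left _ rfl : t2 * q ∣ J).trans hJf) ht2 h2 (NN B J) (fun x hx => mem_NN.1 hx)
  obtain ⟨x, hx⟩ := indep3_of_windep3 hp ⟨_, hwa⟩
  obtain ⟨y, hy⟩ := indep3_of_windep3 hq ⟨_, hwb⟩
  obtain ⟨c, hc⟩ := windep3_of_quot (indep3_mul ((Nat.coprime_primes hp hq).2 hpq) hx hy)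
  exact ⟨_, windep3_map B.subtype (AddSubgroup.subtype_injective _) hc⟩

/-- a triple gives a section -/
lemma section_of_windep3 {A : Type*} [AddCommGroup A] {m : ℕ} {a : Fin 3 → A}
    (h : WIndep3 m a) : ∃ (B : AddSubgroup A) (g : B →+ (Fin 3 → ZMod m)),
      Function.Surjective g := by
  classical
  let φ : (Fin 3 → ℤ) →+ A :=
    ∑ t, (zmultiplesHom A (a t)).comp (Pi.evalAddMonoidHom _ t)
  have hφ : ∀ k, φ k = ∑ t, k t • a t := by
    intro k
    simp [φ, AddMonoidHom.finsetSum_apply]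
  let ρ : (Fin 3 → ℤ) →+ (Fin 3 → ZMod m) := (Int.castAddHom (ZMod m)).compLeft (Fin 3)
  have hρ : Function.Surjective ρ := by
    intro x
    have : ∀ t, ∃ k : ℤ, (k : ZMod m) = x t := fun t => ZMod.intCast_surjective (x t)
    choose k hk using this
    exact ⟨k, funext hk⟩
  have hker : φ.rangeRestrict.ker ≤ ρ.ker := by
    intro k hk
    rw [AddMonoidHom.mem_ker] at hk ⊢
    have h1 : φ k = 0 := congrArg Subtype.val hk
    rw [hφ] at h1
    funext t
    exact (ZMod.intCast_zmod_eq_zero_iff_dvd (k t) m).2 (h k h1 t)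
  refine ⟨φ.range, AddMonoidHom.liftOfSurjective φ.rangeRestrict φ.rangeRestrict_surjective
    ⟨ρ, hker⟩, ?_⟩
  intro x
  obtain ⟨k, rfl⟩ := hρ x
  exact ⟨φ.rangeRestrict k, AddMonoidHom.liftOfRightInverse_comp_apply _ _ _ ⟨ρ, hker⟩ k⟩

end char

end Run7.h622.SubGen
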