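import Mathlib

/-! Order embeddings of modular graded lattices into subspace lattices with matching rank are
lattice embeddings. -/

namespace Run7.h622.SubRank

section abstract

variable {L : Type*} [Lattice L] [BoundedOrder L] {K V : Type*} [DivisionRing K]
  [AddCommGroup V] [Module K V] [FiniteDimensional K V]
  (ρ : L → ℕ) (hmono : StrictMono ρ) (hmod : ∀ x y, ρ (x ⊔ y) + ρ (x ⊓ y) = ρ x + ρ y)
  (hcov : ∀ x y, x < y → ∃ z, x < z ∧ z ≤ y ∧ ρ z = ρ x + 1)
  (F : L → Submodule K V) (hF : ∀ x y, F x ≤ F y ↔ x ≤ y)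

omit [BoundedOrder L] [FiniteDimensional K V] in
include hF in
lemma F_lt {x y : L} (h : x < y) : F x < F y := by
  rw [lt_iff_le_not_ge] at h ⊢
  exact ⟨(hF _ _).2 h.1, fun h' => h.2 ((hF _ _).1 h')⟩

omit [BoundedOrder L] in
include hF hcov in
lemma finrank_chain : ∀ (n : ℕ) (x y : L), x ≤ y → ρ y = ρ x + n →
    Module.finrank K (F x) + n ≤ Module.finrank K (F y) := by
  intro n
  induction n with
  | zero =>
    intro x y hxy _
    exact Submodule.finrank_mono ((hF _ _).2 hxy)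
  | succ n ih =>
    intro x y hxy h
    have hlt : x < y := lt_of_le_of_ne hxy (by rintro rfl; omega)
    obtain ⟨z, hxz, hzy, hz⟩ := hcov x y hlt
    have h1 := Submodule.finrank_lt_finrank_of_lt (F_lt F hF hxz)
    have h2 := ih z y hzy (by omega)
    omega

include hF hcov hmono in
lemma finrank_eq (h0 : ρ ⊥ = 0) (htop : ρ ⊤ = Module.finrank K V) (x : L) :
    Module.finrank K (F x) = ρ x := by
  have h1 := finrank_chain ρ hcov F hF (ρ x) ⊥ x bot_le (by omega)
  have h2 : ρ x ≤ ρ ⊤ := hmono.monotone le_top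
  have h3 := finrank_chain ρ hcov F hF (ρ ⊤ - ρ x) x ⊤ le_top (by omega)
  have h4 : Module.finrank K (F ⊤) ≤ Module.finrank K V := Submodule.finrank_le _
  omega

include hF hcov hmono hmod in
lemma F_sup (h0 : ρ ⊥ = 0) (htop : ρ ⊤ = Module.finrank K V) :
    ∀ (n : ℕ) (x y : L), ρ (x ⊔ y) ≤ ρ (x ⊓ y) + n → F (x ⊔ y) ≤ F x ⊔ F y := by
  have hfr := finrank_eq ρ hmono hcov F hF h0 htop
  intro n
  induction n using Nat.strong_induction_on with
  | _ n ih =>
  -- one-sided step
  have step : ∀ x y : L, ρ (x ⊔ y) ≤ ρ (x ⊓ y) + n → ∀ z, x < z → z < x ⊔ y → ρ z = ρ x + 1 →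
      F (x ⊔ y) ≤ F x ⊔ F y := by
    intro x y hn z hxz hzw hz
    have hzy : z ⊔ y = x ⊔ y := by
      apply le_antisymm
      · exact sup_le hzw.le le_sup_right
      · exact sup_le (hxz.le.trans le_sup_left) le_sup_right
    have hm1 := hmod x y
    have hm2 := hmod z y
    rw [hzy] at hm2
    -- (x, z ⊓ y)
    have hm3 := hmod x (z ⊓ y)
    have hmeet : x ⊓ (z ⊓ y) = x ⊓ y := by
      rw [← inf_assoc, inf_eq_left.2 hxz.le]
    rw [hmeet] at hm3
    have hle : x ⊔ (z ⊓ y) ≤ z := sup_le hxz.le inf_le_left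
    have hρw : ρ z < ρ (x ⊔ y) := hmono hzw
    have hρi : ρ (x ⊓ y) ≤ ρ x := hmono.monotone inf_le_left
    have hjoin : x ⊔ (z ⊓ y) = z := by
      rcases lt_or_eq_of_le hle with h | h
      · have := hmono h
        omega
      · exact h
    have h1 : F z ≤ F x ⊔ F (z ⊓ y) := by
      have := ih (n - 1) (by omega) x (z ⊓ y) (by rw [hmeet, hjoin]; omega)
      rwa [hjoin] at this
    have h2 : F (z ⊔ y) ≤ F z ⊔ F y := ih (n - 1) (by omega) z y (by rw [hzy]; omega)
    rw [hzy] at h2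
    refine h2.trans (sup_le (h1.trans (sup_le le_sup_left ?_)) le_sup_right)
    exact ((hF _ _).2 inf_le_right).trans le_sup_right
  intro x y hn
  by_cases hx : x = x ⊔ y
  · rw [← hx]; exact le_sup_left
  by_cases hy : y = x ⊔ y
  · rw [← hy]; exact le_sup_right
  have hxw : x < x ⊔ y := lt_of_le_of_ne le_sup_left hx
  have hyw : y < x ⊔ y := lt_of_le_of_ne le_sup_right hy
  obtain ⟨z, hxz, hzw, hz⟩ := hcov _ _ hxw
  rcases lt_or_eq_of_le hzw with h | h
  · exact step x y hn z hxz h hz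
  obtain ⟨z', hyz, hzw', hz'⟩ := hcov _ _ hyw
  rcases lt_or_eq_of_le hzw' with h' | h'
  · have := step y x (by rw [sup_comm, inf_comm]; exact hn) z' hyz (by rwa [sup_comm]) hz'
    rw [sup_comm x y, sup_comm (F x)]; exact this
  -- diamond
  subst h
  have hxy : ¬ F y ≤ F x := by
    intro hle
    have := (hF _ _).1 hle
    apply hx
    rw [sup_eq_left.2 this]
  have hlt : F x < F x ⊔ F y := by
    rw [left_lt_sup]; exact hxy
  have h1 := Submodule.finrank_lt_finrank_of_lt hlt
  have h2 : F x ⊔ F y ≤ F (x ⊔ y) := sup_le ((hF _ _).2 le_sup_left) ((hF _ _).2 le_sup_right)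
  have h3 : F x ⊔ F y = F (x ⊔ y) := by
    apply Submodule.eq_of_le_of_finrank_le h2
    rw [hfr] at h1 ⊢
    omega
  rw [h3]

include hF hcov hmono hmod in
theorem latticeHom_of_rank (h0 : ρ ⊥ = 0) (htop : ρ ⊤ = Module.finrank K V) :
    (∀ x y, F (x ⊔ y) = F x ⊔ F y) ∧ (∀ x y, F (x ⊓ y) = F x ⊓ F y) := by
  have hs : ∀ x y, F (x ⊔ y) = F x ⊔ F y := by
    intro x y
    apply le_antisymm
    · exact F_sup ρ hmono hmod hcov F hF h0 htop (ρ (x ⊔ y)) x y (by omega)
    · exact sup_le ((hF _ _).2 le_sup_left) ((hF _ _).2 le_sup_right)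
  refine ⟨hs, ?_⟩
  intro x y
  have hfr := finrank_eq ρ hmono hcov F hF h0 htop
  have h1 : F (x ⊓ y) ≤ F x ⊓ F y := le_inf ((hF _ _).2 inf_le_left) ((hF _ _).2 inf_le_right)
  apply Submodule.eq_of_le_of_finrank_le h1
  have h2 := Submodule.finrank_sup_add_finrank_inf_eq (F x) (F y)
  rw [← hs] at h2
  have h3 := hmod x y
  simp only [hfr] at h2 ⊢
  omega

end abstract


section pgroup

variable {B : Type*} [AddCommGroup B] [Finite B] {p : ℕ} [hp : Fact p.Prime] {n : ℕ}

/-- the rank of a subgroup of a finite p-group -/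
noncomputable def rk (p : ℕ) (H : AddSubgroup B) : ℕ := Nat.log p (Nat.card H)

omit [Finite B] in
lemma card_eq (hB : Nat.card B = p ^ n) (H : AddSubgroup B) : Nat.card H = p ^ rk p H := by
  have h1 : Nat.card H ∣ p ^ n := hB ▸ AddSubgroup.card_addSubgroup_dvd_card H
  obtain ⟨k, -, hk⟩ := (Nat.dvd_prime_pow hp.out).1 h1
  rw [rk, hk, Nat.log_pow hp.out.one_lt]

lemma rk_strictMono (hB : Nat.card B = p ^ n) : StrictMono (rk p : AddSubgroup B → ℕ) := by
  intro H K h
  have h1 : Nat.card H < Nat.card K := by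
    have hle := AddSubgroup.card_le_of_le h.le
    rcases lt_or_eq_of_le hle with h' | h'
    · exact h'
    · exfalso
      apply h.ne
      exact AddSubgroup.eq_of_le_of_card_ge h.le h'.ge
  rw [card_eq hB, card_eq hB] at h1
  exact (Nat.pow_lt_pow_iff_right hp.out.one_lt).1 h1

omit [Finite B] in
lemma card_mod (H K : AddSubgroup B) :
    Nat.card (H ⊔ K : AddSubgroup B) * Nat.card (H ⊓ K : AddSubgroup B) =
      Nat.card H * Nat.card K := by
  have h1 := AddSubgroup.relIndex_mul_relIndex (⊥ : AddSubgroup B) K (H ⊔ K) bot_le le_sup_right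
  have h2 := AddSubgroup.relIndex_mul_relIndex (⊥ : AddSubgroup B) (H ⊓ K) H bot_le inf_le_left
  rw [AddSubgroup.relIndex_bot_left, AddSubgroup.relIndex_bot_left,
    AddSubgroup.relIndex_sup_right] at h1
  rw [AddSubgroup.relIndex_bot_left, AddSubgroup.relIndex_bot_left,
    AddSubgroup.inf_relIndex_left] at h2
  rw [← h1, ← h2]; ring

lemma rk_mod (hB : Nat.card B = p ^ n) (H K : AddSubgroup B) :
    rk p (H ⊔ K) + rk p (H ⊓ K) = rk p H + rk p K := by
  have h := card_mod H K
  rw [card_eq hB, card_eq hB, card_eq hB, card_eq hB, ← pow_add, ← pow_add] at h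
  exact Nat.pow_right_injective hp.out.two_le h

lemma rk_cov (hB : Nat.card B = p ^ n) (H K : AddSubgroup B) (h : H < K) :
    ∃ Z, H < Z ∧ Z ≤ K ∧ rk p Z = rk p H + 1 := by
  classical
  obtain ⟨w, hwK, hwH⟩ := SetLike.exists_of_lt h
  have hex : ∃ k : ℕ, (p ^ k) • w ∈ H := by
    refine ⟨n, ?_⟩
    have : (p ^ n) • w = 0 := by
      rw [← hB]; exact card_nsmul_eq_zero'
    rw [this]; exact zero_mem H
  set k := Nat.find hex with hk
  have hk1 : k ≠ 0 := by
    intro h0
    have := Nat.find_spec hex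
    rw [← hk, h0] at this
    simp at this
    exact hwH this
  obtain ⟨l, hl⟩ := Nat.exists_eq_succ_of_ne_zero hk1
  set v := (p ^ l) • w with hv
  have hvH : v ∉ H := Nat.find_min hex (by omega)
  have hpv : p • v ∈ H := by
    have := Nat.find_spec hex
    rw [← hk, hl] at this
    rw [hv, ← mul_nsmul', ← pow_succ']
    exact this
  have hvK : v ∈ K := nsmul_mem hwK _
  set Z := H ⊔ AddSubgroup.zmultiples v with hZ
  have hHZ : H < Z := by
    rw [hZ, left_lt_sup, AddSubgroup.zmultiples_le]; exact hvH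
  refine ⟨Z, hHZ, sup_le h.le (AddSubgroup.zmultiples_le.2 hvK), ?_⟩
  have h1 := rk_strictMono hB hHZ
  have h2 : Nat.card Z ≤ Nat.card (H × Fin p) := by
    have hmem : ∀ x : H × Fin p, (x.1 : B) + (x.2 : ℕ) • v ∈ Z := by
      intro x
      exact add_mem (AddSubgroup.mem_sup_left x.1.2)
        (nsmul_mem (AddSubgroup.mem_sup_right (AddSubgroup.mem_zmultiples v)) _)
    apply Nat.card_le_card_of_surjective (fun x : H × Fin p => (⟨_, hmem x⟩ : Z))
    rintro ⟨z, hz⟩
    obtain ⟨a, ha, b, hb, rfl⟩ := AddSubgroup.mem_sup.1 hz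
    obtain ⟨m, rfl⟩ := AddSubgroup.mem_zmultiples_iff.1 hb
    have hp0 : (0 : ℤ) < p := by exact_mod_cast hp.out.pos
    have hr0 := Int.emod_nonneg m hp0.ne'
    have hr1 := Int.emod_lt_of_pos m hp0
    have hq : (p : ℤ) * (m / p) + m % p = m := Int.mul_ediv_add_emod m p
    refine ⟨(⟨a + ((m / p) : ℤ) • (p • v), add_mem ha (zsmul_mem hpv _)⟩,
      ⟨(m % p).toNat, by omega⟩), ?_⟩
    apply Subtype.ext
    show a + ((m / p) : ℤ) • (p • v) + ((m % p).toNat) • v = a + m • v
    have e1 : ((m % p).toNat) • v = (m % p) • v := by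
      rw [← natCast_zsmul, Int.toNat_of_nonneg hr0]
    have e2 : ((m / p) : ℤ) • (p • v) = ((p : ℤ) * (m / p)) • v := by
      rw [← natCast_zsmul, ← mul_zsmul, mul_comm]
    rw [e1, e2, add_assoc, ← add_zsmul, hq]
  rw [Nat.card_prod, Nat.card_fin, card_eq hB, card_eq hB, ← pow_succ] at h2
  have h3 := (Nat.pow_le_pow_iff_right hp.out.one_lt).1 h2
  omega

/-- For a finite abelian p-group: an order embedding of subgroup lattice into the subspaces of a
space of matching dimension is a lattice embedding. -/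
theorem latticeHom_of_pgroup (hB : Nat.card B = p ^ n) {K V : Type*} [DivisionRing K]
    [AddCommGroup V] [Module K V] [FiniteDimensional K V] (hV : Module.finrank K V = n)
    (F : AddSubgroup B → Submodule K V) (hF : ∀ x y, F x ≤ F y ↔ x ≤ y) :
    ∃ f : LatticeHom (AddSubgroup B) (Submodule K V), ∀ x, f x = F x := by
  have h0 : rk p (⊥ : AddSubgroup B) = 0 := by simp [rk]
  have ht : rk p (⊤ : AddSubgroup B) = Module.finrank K V := by
    rw [rk, AddSubgroup.card_top, hB, hV, Nat.log_pow hp.out.one_lt]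
  obtain ⟨h1, h2⟩ := latticeHom_of_rank (rk p) (rk_strictMono hB) (rk_mod hB) (rk_cov hB) F hF h0 ht
  exact ⟨⟨⟨F, h1⟩, h2⟩, fun x => rfl⟩

end pgroup

end Run7.h622.SubRank
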