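import Pool.Agent.Run7.h622.SubDigits
import Pool.Agent.Run7.h622.SubRank

/-! The subgroup lattice of `(ℤ/p^N)² × (ℤ/p)^ι` embeds into a subspace lattice. -/

namespace Run7.h622.SubPrime

open PowerSeries Run7.h622.SubData Run7.h622.SubDigits

section mem
variable {R k E : Type*} [CommRing R] [Field k] [AddCommGroup E] [Module k E]
  {π : R} {res : R →+* k} {d : Data R k E}

lemma mem_zero : Mem π res d 0 := ⟨0, 0, by simp, by simp, by simp⟩

lemma mem_add {v w : R × R × E} (hv : Mem π res d v) (hw : Mem π res d w) :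
    Mem π res d (v + w) := by
  obtain ⟨a, b, h1, h2, h3⟩ := hv
  obtain ⟨a', b', h1', h2', h3'⟩ := hw
  refine ⟨a + a', b + b', ?_, ?_, ?_⟩
  · rw [Prod.fst_add, h1, h1']; ring
  · rw [Prod.snd_add, Prod.fst_add, h2, h2']; ring
  · have : (v + w).2.2 - res (a + a') • d.e1 - res (b + b') • d.e2 =
      (v.2.2 - res a • d.e1 - res b • d.e2) + (w.2.2 - res a' • d.e1 - res b' • d.e2) := by
      rw [Prod.snd_add, Prod.snd_add, map_add, map_add, add_smul, add_smul]; abel
    rw [this]; exact add_mem h3 h3'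

lemma mem_mul {v : R × R × E} (s : R) (hv : Mem π res d v) :
    Mem π res d (s * v.1, s * v.2.1, res s • v.2.2) := by
  obtain ⟨a, b, h1, h2, h3⟩ := hv
  refine ⟨s * a, s * b, ?_, ?_, ?_⟩
  · rw [h1]; ring
  · simp only [h2]; ring
  · have : res s • v.2.2 - res (s * a) • d.e1 - res (s * b) • d.e2 =
      res s • (v.2.2 - res a • d.e1 - res b • d.e2) := by
      rw [map_mul, map_mul, smul_sub, smul_sub, mul_smul, mul_smul]
    show res s • v.2.2 - res (s * a) • d.e1 - res (s * b) • d.e2 ∈ d.Y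
    rw [this]; exact Submodule.smul_mem _ _ h3

lemma mem_neg {v : R × R × E} (hv : Mem π res d v) : Mem π res d (-v) := by
  have := mem_mul (-1) hv
  have e : -v = ((-1 : R) * v.1, (-1 : R) * v.2.1, res (-1) • v.2.2) := by
    ext1
    · simp
    · ext1 <;> simp
  rw [e]; exact this

end mem

/-- the subgroup of `ℤ × ℤ × E` -/
def HH {p : ℕ} [Fact p.Prime] {ι : Type*} (d : Data ℤ (ZMod p) (ι → ZMod p)) :
    AddSubgroup (ℤ × ℤ × (ι → ZMod p)) where
  carrier := {v | Mem (p : ℤ) (Int.castRingHom (ZMod p)) d v}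
  zero_mem' := mem_zero
  add_mem' := mem_add
  neg_mem' := mem_neg

/-- the subspace of `K⟦X⟧ × K⟦X⟧ × (ι → K)` -/
def FF {K : Type*} [Field K] {ι : Type*} (d : Data (PowerSeries K) K (ι → K)) :
    Submodule K (PowerSeries K × PowerSeries K × (ι → K)) where
  carrier := {v | Mem (X : PowerSeries K) (constantCoeff (R := K)) d v}
  zero_mem' := mem_zero
  add_mem' := mem_add
  smul_mem' := by
    intro r v hv
    have := mem_mul (C r : PowerSeries K) hv
    have e : r • v = ((C r : PowerSeries K) * v.1, (C r : PowerSeries K) * v.2.1,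
        (constantCoeff (R := K)) (C r) • v.2.2) := by
      ext1
      · simp [PowerSeries.smul_eq_C_mul]
      · ext1
        · simp [PowerSeries.smul_eq_C_mul]
        · simp
    show Mem _ _ d (r • v)
    rw [e]; exact this

section surj

variable {p : ℕ} [hp : Fact p.Prime] {ι : Type*}

lemma exists_pow_gen (S : AddSubgroup ℤ) {N : ℕ} (h : ((p : ℤ) ^ N) ∈ S) :
    ∃ i : ℕ, ((p : ℤ) ^ i) ∈ S ∧ ∀ a ∈ S, ((p : ℤ) ^ i) ∣ a := by
  obtain ⟨g, hg⟩ := Int.subgroup_cyclic S
  have hmem : ∀ a, a ∈ S ↔ g ∣ a := by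
    intro a
    rw [hg, AddSubgroup.mem_closure_singleton]
    constructor
    · rintro ⟨n, rfl⟩; exact ⟨n, by simp [mul_comm]⟩
    · rintro ⟨n, rfl⟩; exact ⟨n, by simp [mul_comm]⟩
  have h1 : g ∣ (p : ℤ) ^ N := (hmem _).1 h
  have h2 : g.natAbs ∣ p ^ N := by
    have := Int.natAbs_dvd_natAbs.2 h1
    rwa [Int.natAbs_pow, Int.natAbs_natCast] at this
  obtain ⟨i, -, hi⟩ := (Nat.dvd_prime_pow hp.out).1 h2
  refine ⟨i, (hmem _).2 ?_, fun a ha => ?_⟩
  · rw [← Int.natAbs_dvd_natAbs, Int.natAbs_pow, Int.natAbs_natCast, hi]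
  · have := (hmem _).1 ha
    rw [← Int.natAbs_dvd_natAbs, hi] at this
    rw [← Int.natAbs_dvd_natAbs, Int.natAbs_pow, Int.natAbs_natCast]
    exact this

lemma exists_data {N : ℕ} (H : AddSubgroup (ℤ × ℤ × (ι → ZMod p)))
    (h1 : ((p : ℤ) ^ N, (0 : ℤ), (0 : ι → ZMod p)) ∈ H)
    (h2 : ((0 : ℤ), (p : ℤ) ^ N, (0 : ι → ZMod p)) ∈ H) :
    ∃ d : Data ℤ (ZMod p) (ι → ZMod p), ∀ v, v ∈ H ↔
      Mem (p : ℤ) (Int.castRingHom (ZMod p)) d v := by
  -- first coordinate
  obtain ⟨i, hi, hi'⟩ := exists_pow_gen (p := p) (N := N)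
    (H.map (AddMonoidHom.fst ℤ (ℤ × (ι → ZMod p)))) ⟨_, h1, rfl⟩
  obtain ⟨⟨w1, w2, w3⟩, hw, hwi⟩ := hi
  simp only [AddMonoidHom.coe_fst] at hwi
  subst hwi
  -- second coordinate
  let H2 : AddSubgroup (ℤ × (ι → ZMod p)) := H.comap (AddMonoidHom.inr ℤ (ℤ × (ι → ZMod p)))
  have hH2 : ∀ u, u ∈ H2 ↔ ((0 : ℤ), u) ∈ H := fun u => Iff.rfl
  obtain ⟨j, hj, hj'⟩ := exists_pow_gen (p := p) (N := N)
    (H2.map (AddMonoidHom.fst ℤ (ι → ZMod p))) ⟨_, h2, rfl⟩
  obtain ⟨⟨u2, u3⟩, hu, huj⟩ := hj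
  simp only [AddMonoidHom.coe_fst] at huj
  subst huj
  have hu' : ((0 : ℤ), (p : ℤ) ^ j, u3) ∈ H := hu
  let Y0 : AddSubgroup (ι → ZMod p) := H2.comap (AddMonoidHom.inr ℤ (ι → ZMod p))
  have hY0 : ∀ e, e ∈ Y0 ↔ ((0 : ℤ), (0 : ℤ), e) ∈ H := fun u => Iff.rfl
  let Y : Submodule (ZMod p) (ι → ZMod p) := AddSubgroup.toZModSubmodule p Y0
  have hY : ∀ e, e ∈ Y ↔ ((0 : ℤ), (0 : ℤ), e) ∈ H := fun u => Iff.rfl
  refine ⟨⟨i, j, w2, w3, u3, Y⟩, ?_⟩
  have hcast : ∀ (a : ℤ) (e : ι → ZMod p), (Int.castRingHom (ZMod p)) a • e = a • e := by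
    intro a e
    funext t
    simp
  intro v
  constructor
  · intro hv
    obtain ⟨a, ha⟩ := hi' v.1 ⟨v, hv, rfl⟩
    have hv' : v - a • ((p : ℤ) ^ i, w2, w3) ∈ H := sub_mem hv (zsmul_mem hw a)
    have he1 : v - a • ((p : ℤ) ^ i, w2, w3) = (0, v.2.1 - a * w2, v.2.2 - a • w3) := by
      ext1
      · simp [ha, mul_comm]
      · ext1
        · simp
        · simp
    rw [he1] at hv'
    obtain ⟨b, hb⟩ := hj' (v.2.1 - a * w2) ⟨_, hv', rfl⟩
    refine ⟨a, b, by rw [ha, mul_comm], by rw [mul_comm b, ← hb]; ring, ?_⟩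
    rw [hY, hcast, hcast]
    have hv'' : (0, v.2.1 - a * w2, v.2.2 - a • w3) - b • ((0 : ℤ), (p : ℤ) ^ j, u3) ∈ H :=
      sub_mem hv' (zsmul_mem hu' b)
    have he2 : (0, v.2.1 - a * w2, v.2.2 - a • w3) - b • ((0 : ℤ), (p : ℤ) ^ j, u3) =
        (0, 0, v.2.2 - a • w3 - b • u3) := by
      ext1
      · simp
      · ext1
        · show v.2.1 - a * w2 - b * (p : ℤ) ^ j = 0
          rw [hb]; ring
        · simp
    rw [he2] at hv''
    exact hv''
  · rintro ⟨a, b, h1, h2, h3⟩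
    simp only at h1 h2 h3
    rw [hY, hcast, hcast] at h3
    have : v = a • ((p : ℤ) ^ i, w2, w3) + b • ((0 : ℤ), (p : ℤ) ^ j, u3) +
        ((0 : ℤ), (0 : ℤ), v.2.2 - a • w3 - b • u3) := by
      ext1
      · simp [h1]
      · ext1
        · simp [h2]
        · simp
    rw [this]
    exact add_mem (add_mem (zsmul_mem hw a) (zsmul_mem hu' b)) h3

end surj

section main

variable {p : ℕ} [hp : Fact p.Prime] {ι : Type*} [Finite ι] {K : Type*} [Field K]

/-- truncation -/
noncomputable def tau (N : ℕ) : (PowerSeries K × PowerSeries K × (ι → K)) →ₗ[K]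
    ((Fin N → K) × (Fin N → K) × (ι → K)) :=
  LinearMap.prodMap (LinearMap.pi fun l : Fin N => PowerSeries.coeff (l : ℕ))
    (LinearMap.prodMap (LinearMap.pi fun l : Fin N => PowerSeries.coeff (l : ℕ)) LinearMap.id)

/-- reduction -/
def red (N : ℕ) : (ℤ × ℤ × (ι → ZMod p)) →+
    (ZMod (p ^ N) × ZMod (p ^ N) × (ι → ZMod p)) :=
  AddMonoidHom.prodMap (Int.castAddHom _) (AddMonoidHom.prodMap (Int.castAddHom _)
    (AddMonoidHom.id _))

omit [Finite ι] in
lemma red_surj (N : ℕ) : Function.Surjective (red (p := p) (ι := ι) N) := by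
  rintro ⟨a, b, e⟩
  obtain ⟨a, rfl⟩ := ZMod.intCast_surjective a
  obtain ⟨b, rfl⟩ := ZMod.intCast_surjective b
  exact ⟨(a, b, e), rfl⟩

theorem prime_part (N : ℕ) (c : ZMod p → K) (hc0 : c 0 = 0) (hci : Function.Injective c)
    (hι : IsEmpty ι ∨ ∃ φ : ZMod p →+* K, ∀ x, c x = φ x) :
    ∃ f : LatticeHom (AddSubgroup (ZMod (p ^ N) × ZMod (p ^ N) × (ι → ZMod p)))
      (Submodule K ((Fin N → K) × (Fin N → K) × (ι → K))), Function.Injective f := by
  cases nonempty_fintype ι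
  have hpN : NeZero (p ^ N) := ⟨pow_ne_zero _ hp.out.ne_zero⟩
  set B := ZMod (p ^ N) × ZMod (p ^ N) × (ι → ZMod p) with hBdef
  have hfin : Finite B := by rw [hBdef]; infer_instance
  have hex : ∀ H : AddSubgroup B, ∃ d : Data ℤ (ZMod p) (ι → ZMod p), ∀ v,
      v ∈ H.comap (red N) ↔ Mem (p : ℤ) (Int.castRingHom (ZMod p)) d v := by
    intro H
    apply exists_data (N := N)
    · show red N _ ∈ H
      have : red (p := p) N ((p : ℤ) ^ N, (0 : ℤ), (0 : ι → ZMod p)) = 0 := by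
        ext1
        · simp only [red, AddMonoidHom.coe_prodMap, Prod.map_apply, Int.coe_castAddHom]
          have := ZMod.natCast_self (p ^ N)
          push_cast at this ⊢
          exact this
        · ext1
          · simp [red]
          · simp [red]
      rw [this]; exact zero_mem H
    · show red N _ ∈ H
      have : red (p := p) N ((0 : ℤ), (p : ℤ) ^ N, (0 : ι → ZMod p)) = 0 := by
        ext1
        · simp [red]
        · ext1
          · simp only [red, AddMonoidHom.coe_prodMap, Prod.map_apply, Int.coe_castAddHom]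
            have := ZMod.natCast_self (p ^ N)
            push_cast at this ⊢
            exact this
          · simp [red]
      rw [this]; exact zero_mem H
  choose D hD using hex
  let F : AddSubgroup B → Submodule K ((Fin N → K) × (Fin N → K) × (ι → K)) :=
    fun H => (FF (shData c (D H))).map (tau N)
  have hpu : ¬ IsUnit (p : ℤ) := by
    rw [Int.isUnit_iff_natAbs_eq, Int.natAbs_natCast]; exact hp.out.one_lt.ne'
  have hp0 : (p : ℤ) ≠ 0 := by exact_mod_cast hp.out.ne_zero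
  have hXu : ¬ IsUnit (X : PowerSeries K) := X_prime.not_isUnit
  have hX0 : (X : PowerSeries K) ≠ 0 := X_ne_zero
  -- kernel
  have hker : ∀ H : AddSubgroup B, LinearMap.ker (tau (K := K) (ι := ι) N) ≤
      FF (shData c (D H)) := by
    intro H
    let dN : Data ℤ (ZMod p) (ι → ZMod p) := ⟨N, N, 0, 0, 0, ⊥⟩
    have h1 : Cond (p : ℤ) (Int.castRingHom (ZMod p)) dN (D H) := by
      rw [← mem_iff_cond hp0 hpu]
      rintro ⟨v1, v2, v3⟩ hv
      rw [← hD]
      obtain ⟨a, b, h1, h2, h3⟩ := hv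
      simp only [dN, mul_zero, zero_add, smul_zero, sub_zero, Submodule.mem_bot] at h1 h2 h3
      show red N (v1, v2, v3) ∈ H
      have : red (p := p) N (v1, v2, v3) = 0 := by
        have e := ZMod.natCast_self (p ^ N)
        push_cast at e
        have e1 : ((v1 : ℤ) : ZMod (p ^ N)) = 0 := by
          rw [h1]; push_cast; rw [e]; simp
        have e2 : ((v2 : ℤ) : ZMod (p ^ N)) = 0 := by
          rw [h2]; push_cast; rw [e]; simp
        show (((v1 : ℤ) : ZMod (p ^ N)), ((v2 : ℤ) : ZMod (p ^ N)), v3) = 0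
        rw [e1, e2, h3]; rfl
      rw [this]; exact zero_mem H
    have h2 := (cond_iff c hc0 hci hι dN (D H)).2 h1
    rw [← mem_iff_cond hX0 hXu] at h2
    intro w hw
    apply h2
    rw [LinearMap.mem_ker] at hw
    have hw1 : ∀ l < N, coeff l w.1 = 0 := by
      intro l hl
      have := congrFun (congrArg Prod.fst hw) ⟨l, hl⟩
      simpa [tau] using this
    have hw2 : ∀ l < N, coeff l w.2.1 = 0 := by
      intro l hl
      have := congrFun (congrArg (fun z => z.2.1) hw) ⟨l, hl⟩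
      simpa [tau] using this
    have hw3 : w.2.2 = 0 := by
      have := (congrArg (fun z => z.2.2) hw)
      simpa [tau] using this
    obtain ⟨a, ha⟩ := X_pow_dvd_iff.2 hw1
    obtain ⟨b, hb⟩ := X_pow_dvd_iff.2 hw2
    refine ⟨a, b, by rw [ha, mul_comm]; rfl, ?_, ?_⟩
    · have : sharp c 0 = 0 := by
        ext l; rw [coeff_sharp]; simp [hc0]
      simp only [shData, dN, this, mul_zero, zero_add]
      rw [hb, mul_comm]
    · have : c ∘ (0 : ι → ZMod p) = 0 := by
        funext t; simp [hc0]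
      simp only [shData, dN, this, smul_zero, sub_zero, hw3]
      exact zero_mem _
  have hF : ∀ x y, F x ≤ F y ↔ x ≤ y := by
    intro x y
    have e1 : F x ≤ F y ↔ FF (shData c (D x)) ≤ FF (shData c (D y)) := by
      show Submodule.map _ _ ≤ Submodule.map _ _ ↔ _
      rw [Submodule.map_le_iff_le_comap, Submodule.comap_map_eq, sup_eq_left.2 (hker y)]
    rw [e1]
    have e2 : FF (shData c (D x)) ≤ FF (shData c (D y)) ↔
        ∀ v, Mem (X : PowerSeries K) (constantCoeff (R := K)) (shData c (D x)) v →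
          Mem (X : PowerSeries K) (constantCoeff (R := K)) (shData c (D y)) v := Iff.rfl
    rw [e2, mem_iff_cond hX0 hXu, cond_iff c hc0 hci hι, ← mem_iff_cond hp0 hpu]
    rw [← AddSubgroup.comap_le_comap_of_surjective (red_surj N)]
    constructor
    · intro h v hv
      exact (hD y v).2 (h v ((hD x v).1 hv))
    · intro h v hv
      exact (hD y v).1 (h ((hD x v).2 hv))
  have hcard : Nat.card B = p ^ (N + (N + Fintype.card ι)) := by
    rw [hBdef, Nat.card_prod, Nat.card_prod, Nat.card_zmod, Nat.card_pi]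
    simp [pow_add]
  have hdim : Module.finrank K ((Fin N → K) × (Fin N → K) × (ι → K)) =
      N + (N + Fintype.card ι) := by
    rw [Module.finrank_prod, Module.finrank_prod, Module.finrank_fin_fun,
      Module.finrank_fintype_fun_eq_card]
  obtain ⟨f, hf⟩ := Run7.h622.SubRank.latticeHom_of_pgroup hcard hdim F hF
  refine ⟨f, ?_⟩
  intro x y hxy
  rw [hf, hf] at hxy
  exact le_antisymm ((hF _ _).1 hxy.le) ((hF _ _).1 hxy.ge)

end main

end Run7.h622.SubPrime
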